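import Pool.Agent.Helper73.E.Main
import Pool.Agent.Helper25.FLT.Top

set_option autoImplicit false

/-!
# The statement `StE`
-/

namespace Pool.Agent.Helper73.E

theorem m_E : Helper25.FLT.StE :=
  fun w p q D hw hwp hpq cwp cwq cpq hD hF => main w p q D hw hwp hpq cwp cwq cpq hD hF

end Pool.Agent.Helper73.E
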