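import Pool.Agent.Helper73.E.Cases

set_option autoImplicit false

/-!
# The evaluation points: `p ≡ q ≡ 1`
-/

namespace Pool.Agent.Helper73.E

open Finset

variable {P Q w sg D t : ℤ} {k : ℕ}

/-- evaluation at the other end of the window -/
theorem evalC {J : ℕ} (h : Ch P Q w 1 D t k) {om : ℤ} (hom : 1 ≤ om) (homk : om ≤ k)
    (hwin : ∀ n, 0 < n → n < w → k - om < yy P Q w D n ∧ om + yy P Q w D n ≤ P) {m x : ℤ}
    (hm : m = -om * (w * Q) + (w - 1) + P * x) (hx : x < w * Q) (hJ : w ≤ J) {a b : ℤ}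
    (ha0 : 1 ≤ a) (haw : a ≤ w) (hb0 : 1 ≤ b) (hbw : b ≤ w) (ha : w ∣ x - a * Q)
    (hb : w ∣ x - 1 - b * Q) :
    A P Q w J m = S P Q w m - S P Q w (m - P) - (th (x - a * Q) - th (x - 1 - b * Q)) := by
  obtain ⟨i0, hi0⟩ : ∃ i0 : ℕ, (k : ℤ) - om = i0 :=
    ⟨_, (Int.toNat_of_nonneg (by linarith)).symm⟩
  have hk := h.hk
  have hP := h.P0
  have hw0 := h.w0
  have hwQ := h.wQ0
  have hmlt : m < w * (P * Q) := by
    have e1 : w * Q ≤ om * (w * Q) := by nlinarith
    have e2 : P * x ≤ P * (w * Q) - P := by nlinarith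
    have e3 := h.wP
    rw [hm]
    nlinarith
  have hi : i0 < k := by
    have : (i0 : ℤ) < k := by linarith
    exact_mod_cast this
  have h1 := eval_plus (jU := a - 1) (jV := b - 1) (r := w - 1) (z := x - Q) h.P0 h.Q0 h.w0 h.cop
    h.cQ h.wP.le hk hJ hmlt hi (by linarith) (by linarith)
    (by rw [hm, ← hi0]; linear_combination Q * hk) (by
      intro i hi1 hi2
      have e1 : m - Q - i * (w * Q) = P * (x - Q) + (w - 1) + ((k : ℤ) - om - i) * (w * Q) := by
        rw [hm]; linear_combination Q * hk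
      rw [e1]
      by_contra hcon
      push Not at hcon
      have v1 : (i : ℤ) + 1 ≤ k := by exact_mod_cast hi1
      have v2 : (0 : ℤ) ≤ i := Nat.cast_nonneg i
      have v3 : (k : ℤ) - om - i ≠ 0 := by
        rw [hi0]
        intro h3
        apply hi2
        have : (i : ℤ) = i0 := by linarith
        exact_mod_cast this
      obtain ⟨v, hv⟩ : ∃ v, (k : ℤ) - om - i = v := ⟨_, rfl⟩
      rw [hv] at hcon v3
      obtain ⟨n', hn'⟩ : ∃ n', (P * (x - Q) + (w - 1) + v * (w * Q)) % P = n' := ⟨_, rfl⟩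
      rw [hn'] at hcon
      have hn0 : 0 ≤ n' := by rw [← hn']; exact Int.emod_nonneg _ hP.ne'
      have hd : P ∣ v * (w * Q) + (w - 1 - n') := by
        have := Int.emod_add_mul_ediv (P * (x - Q) + (w - 1) + v * (w * Q)) P
        rw [hn'] at this
        exact ⟨(P * (x - Q) + (w - 1) + v * (w * Q)) / P - (x - Q), by linarith⟩
      rcases eq_or_lt_of_le (show 0 ≤ w - 1 - n' by linarith) with h3 | h3
      · rw [← h3, add_zero] at hd
        have h4 := h.copPwQ.dvd_of_dvd_mul_right hd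
        have h5 := h.kP
        exact v3 (Int.eq_zero_of_abs_lt_dvd h4 (by rw [abs_lt]; constructor <;> linarith))
      · obtain ⟨h4, h5⟩ := hwin _ h3 (by linarith)
        have h6 := h.spec (w - 1 - n')
        have h7 : P ∣ (yy P Q w D (w - 1 - n') - v) * (w * Q) := by
          obtain ⟨c, hc⟩ := hd
          exact ⟨dl Q w D (w - 1 - n') - c, by linear_combination -1 * hc - h6⟩
        have h8 := h.copPwQ.dvd_of_dvd_mul_right h7
        have := Int.le_of_dvd (by linarith) h8
        linarith) (by linarith) (by linarith)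
    (by rwa [show x - Q - (a - 1) * Q = x - a * Q by ring]) (by linarith) (by linarith)
    (by rwa [show x - Q - 1 - (b - 1) * Q = x - 1 - b * Q by ring])
  rw [h1, show x - Q - (a - 1) * Q = x - a * Q by ring,
    show x - Q - 1 - (b - 1) * Q = x - 1 - b * Q by ring]

/-- `P ≡ Q ≡ 1`, nonmembers -/
theorem coreC {J : ℕ} (h : Ch P Q w 1 D t k) (hF : Fl P Q w Q J)
    (hn : ∀ n, 0 < n → n < w → dl Q w D n < Q * ta w 1 t n) (hsQ : w ∣ Q - 1) (hQP : Q < P)
    {j : ℤ} (hj : 1 ≤ j) (hjQ : j * w ≤ Q) (hj1 : dl Q w D (j * w) + dl Q w D 1 < w * Q)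
    (hj2 : Q < dl Q w D (j * w + 1)) : False := by
  have hQ := h.Q0
  have hP := h.P0
  have hw2 := h.w2
  have hwQ := h.wQ
  have hwQ0 := h.wQ0
  have hk := h.hk
  have hk1 : (1 : ℤ) ≤ k := by exact_mod_cast h.k1
  have t1 : ta w 1 t 1 = 1 := h.tauniq (by norm_num) (by linarith) (by simpa using hsQ)
  have d0 := h.dlpos (n := 1) one_pos (by linarith)
  have n1 := hn 1 one_pos (by linarith)
  rw [t1, mul_one] at n1
  have y0 := h.yypos (n := 1) one_pos (by linarith) (by linarith [h.wP])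
  have sp := h.spec 1
  -- multiples
  have hmul : ∀ n, 0 < n → n < w → yy P Q w D n = n * yy P Q w D 1 := by
    intro n h0 h1
    exact (h.uniq (n := n) (d := n * dl Q w D 1) (Y := n * yy P Q w D 1)
      (mul_nonneg h0.le (by linarith)) (by nlinarith) (by linear_combination n * sp)).2
  have y1 : w * yy P Q w D 1 ≤ k * w := by
    have := h.nmem_yy (n := 1) one_pos (hn 1 one_pos (by linarith))
    rw [t1, mul_one] at this
    linarith
  have y1k : yy P Q w D 1 ≤ k := by
    have : w * yy P Q w D 1 ≤ w * k := by linarith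
    exact le_of_mul_le_mul_left this h.w0
  have hwin : ∀ n, 0 < n → n < w → k - (k + 1 - yy P Q w D 1) < yy P Q w D n ∧
      k + 1 - yy P Q w D 1 + yy P Q w D n ≤ P := by
    intro n h0 h1
    rw [hmul n h0 h1]
    constructor
    · nlinarith
    · have : n * yy P Q w D 1 ≤ (w - 1) * yy P Q w D 1 :=
        mul_le_mul_of_nonneg_right (by linarith) (by linarith)
      nlinarith
  obtain ⟨e1, e2⟩ := h.add_lt hj1
  -- the cofactor of `j w`
  have hYj : k + 1 ≤ yy P Q w D (j * w) + yy P Q w D 1 := by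
    rw [← e2]
    have s1 := h.spec (j * w + 1)
    have s2 : P * Q + P ≤ P * dl Q w D (j * w + 1) := by nlinarith
    have s0 : j * w < Q := by
      refine lt_of_le_of_ne hjQ fun h6 => ?_
      have h7 : w ∣ Q := ⟨j, by linarith⟩
      have h8 : w ∣ 1 := by
        have := dvd_sub h7 hsQ
        rwa [show Q - (Q - 1) = 1 by ring] at this
      have := Int.le_of_dvd one_pos h8
      linarith
    have s3 : Q * P < Q * (w * yy P Q w D (j * w + 1)) := by linarith
    have s4 := lt_of_mul_lt_mul_left s3 hQ.le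
    have s5 : w * (k : ℤ) < w * yy P Q w D (j * w + 1) := by linarith
    have := lt_of_mul_lt_mul_left s5 h.w0.le
    linarith
  have hjw : 0 < j * w := by nlinarith
  have hYj' := h.yylt (n := j * w) hjw
  obtain ⟨x, hx1, hx2, hx3, hx4, hx5⟩ := mid (a := dl Q w D (j * w)) (b := (w - 1) * Q + 1)
    (c := w * Q) (d := 1 + w * Q - dl Q w D 1) (w := w) (e := 0) (h.dl1 _) (by linarith)
    (by nlinarith) (by nlinarith) (by
      have := dvd_add (h.dlmod (j * w)) (Dvd.intro_left j rfl : w ∣ j * w)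
      rwa [show dl Q w D (j * w) - 1 * (j * w) + j * w = dl Q w D (j * w) - 0 by ring] at this) (by
      have := dvd_sub (Dvd.intro Q rfl : w ∣ w * Q) hsQ
      rwa [show w * Q - (Q - 1) = (w - 1) * Q + 1 - 0 by ring] at this)
  rw [sub_zero] at hx5
  have c1 : w ∣ x - w * Q := dvd_sub hx5 (Dvd.intro Q rfl)
  have c2 : w ∣ x - 1 - (w - 1) * Q := by
    have := dvd_add c1 hsQ
    rwa [show x - w * Q + (Q - 1) = x - 1 - (w - 1) * Q by ring] at this
  have c3 : w ∣ x - dl Q w D (j * w) := by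
    have := dvd_sub hx5 (dvd_add (h.dlmod (j * w)) (Dvd.intro_left j rfl : w ∣ j * w))
    rwa [show x - (dl Q w D (j * w) - 1 * (j * w) + j * w) = x - dl Q w D (j * w) by
      ring] at this
  have c4 : w ∣ x - (1 + w * Q - dl Q w D 1) := by
    have := dvd_add c1 (h.dlmod 1)
    rwa [show x - w * Q + (dl Q w D 1 - 1 * 1) = x - (1 + w * Q - dl Q w D 1) by ring] at this
  obtain ⟨om, hom⟩ : ∃ om, k + 1 - yy P Q w D 1 = om := ⟨_, rfl⟩
  rw [hom] at hwin
  have hev := evalC h (by linarith) (by linarith) hwin (m := -om * (w * Q) + (w - 1) + P * x) rfl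
    hx3 hF.hJ (a := w) (b := w - 1) (by linarith) le_rfl (by linarith) (by linarith) c1 c2
  have s1 := S_thr (M := -om * (w * Q) + (w - 1) + P * x - j * w) (y := w - 1)
    (a := yy P Q w D (j * w) - om) (z := x - dl Q w D (j * w)) h.P0 h.Q0 h.w0 h.cop
    (by linarith) (by linarith) (by linarith) (by linarith) c3
    (by linear_combination h.spec (j * w))
  have s2 := S_thr (M := -om * (w * Q) + (w - 1) + P * x - P) (y := w - 2)
    (a := P - yy P Q w D 1 - om) (z := x - (1 + w * Q - dl Q w D 1)) h.P0 h.Q0 h.w0 h.cop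
    (by linarith) (by linarith) (by linarith [h.kP]) (by linarith) c4
    (by linear_combination -1 * h.spec 1)
  rw [th_pos (show 0 ≤ x - dl Q w D (j * w) by linarith)] at s1
  rw [th_neg (show x - (1 + w * Q - dl Q w D 1) < 0 by linarith)] at s2
  rw [th_neg (show x - w * Q < 0 by linarith),
    th_pos (show 0 ≤ x - 1 - (w - 1) * Q by linarith), s2] at hev
  have hm0 := nonneg_of_S h s1
  have hm1 : -om * (w * Q) + (w - 1) + P * x < w * (P * Q) := by
    have e3 : w * Q ≤ om * (w * Q) := by nlinarith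
    nlinarith
  have hb := hF.al _ j (by linarith) hm1 (by linarith)
    (by
      have := Int.emod_lt_of_pos (-om * (w * Q) + (w - 1) + P * x) h.w0
      linarith)
  rw [hev, s1] at hb
  ring_nf at hb
  norm_num at hb

theorem caseC {J : ℕ} (h : Ch P Q w 1 D t k) (hF : Fl P Q w Q J)
    (hn : ∀ n, 0 < n → n < w → dl Q w D n < Q * ta w 1 t n) (hsQ : w ∣ Q - 1) (hQP : Q < P)
    (hne : dl Q w D 1 ≠ 1) : False := by
  have hQ := h.Q0
  have hP := h.P0
  have hw2 := h.w2
  have hwQ := h.wQ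
  have hwQ0 := h.wQ0
  have t1 : ta w 1 t 1 = 1 := h.tauniq (by norm_num) (by linarith) (by simpa using hsQ)
  have d0 := h.dlpos (n := 1) one_pos (by linarith)
  have n1 := hn 1 one_pos (by linarith)
  rw [t1, mul_one] at n1
  have sp := h.spec 1
  obtain ⟨d, hd⟩ : ∃ d, dl Q w D 1 = d := ⟨_, rfl⟩
  obtain ⟨y, hy⟩ : ∃ y, yy P Q w D 1 = y := ⟨_, rfl⟩
  rw [hd] at d0 n1 hne sp
  rw [hy] at sp
  rcases lt_or_ge (w * d) ((w - 1) * Q) with hc | hc
  · -- `d ≥ w + 1`
    have dw : w + 1 ≤ d := by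
      obtain ⟨c, hc'⟩ := h.dlmod 1
      rw [hd] at hc'
      have hc1 : 1 ≤ c := by
        by_contra hcon
        push Not at hcon
        rcases lt_or_eq_of_le (show c ≤ 0 by linarith) with h2 | h2
        · nlinarith
        · rw [h2] at hc'
          exact hne (by linarith)
      nlinarith
    have hwd : 0 < w * d := by positivity
    obtain ⟨q0, r0, hq0, hr0, hr1, hqr⟩ : ∃ q0 r0 : ℤ, 0 ≤ q0 ∧ 0 ≤ r0 ∧ r0 < w * d ∧
        Q - d = w * d * q0 + r0 :=
      ⟨(Q - d) / (w * d), (Q - d) % (w * d),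
        Int.ediv_nonneg (by linarith) hwd.le, Int.emod_nonneg _ hwd.ne',
        Int.emod_lt_of_pos _ hwd, (Int.mul_ediv_add_emod _ _).symm⟩
    have hval : ((q0 + 1) * w + 1) * d = Q - r0 + w * d := by linear_combination -1 * hqr
    have hu1 : (q0 * w + 1) * d ≤ Q := by linarith
    have hu2 : (q0 * w + 1) * (w + 1) ≤ Q := by
      have h3 : 0 ≤ q0 * w + 1 := by positivity
      exact (mul_le_mul_of_nonneg_left dw h3).trans hu1
    have hjQ : (q0 + 1) * w ≤ Q := by
      have := mul_nonneg hq0 h.w0.le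
      nlinarith
    have h0 : 0 ≤ (q0 + 1) * w * d := by positivity
    have e1 := (h.uniq (n := (q0 + 1) * w) (d := (q0 + 1) * w * d) (Y := (q0 + 1) * w * y) h0
      (by linarith) (by linear_combination ((q0 + 1) * w) * sp)).1
    have e2 := (h.uniq (n := (q0 + 1) * w + 1) (d := ((q0 + 1) * w + 1) * d)
      (Y := ((q0 + 1) * w + 1) * y) (by positivity)
      (by linarith) (by linear_combination ((q0 + 1) * w + 1) * sp)).1
    refine coreC h hF hn hsQ hQP (j := q0 + 1) (by linarith) hjQ ?_ ?_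
    · rw [e1, hd]
      linarith
    · rw [e2]
      linarith
  · -- `c = Q - d`
    obtain ⟨c, hc'⟩ : ∃ c, Q - d = c := ⟨_, rfl⟩
    have hc0 : 0 < c := by linarith
    have hcw : w ≤ c := by
      have h5 := dvd_sub hsQ (h.dlmod 1)
      rw [hd, show Q - 1 - (d - 1 * 1) = Q - d by ring, hc'] at h5
      exact Int.le_of_dvd hc0 h5
    have hwcQ : w * c < Q := by
      have h5 : w * c ≤ Q := by
        rw [← hc']
        linarith
      refine lt_of_le_of_ne h5 fun h6 => ?_
      have h7 : w ∣ Q := ⟨c, h6.symm⟩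
      have h8 : w ∣ 1 := by
        have := dvd_sub h7 hsQ
        rwa [show Q - (Q - 1) = 1 by ring] at this
      have := Int.le_of_dvd one_pos h8
      linarith
    have hwc : 0 < w * c := by positivity
    obtain ⟨q0, r0, hq0, hr0, hr1, hqr⟩ : ∃ q0 r0 : ℤ, 0 ≤ q0 ∧ 0 ≤ r0 ∧ r0 < w * c ∧
        Q - c = w * c * q0 + r0 :=
      ⟨(Q - c) / (w * c), (Q - c) % (w * c),
        Int.ediv_nonneg (by nlinarith) hwc.le, Int.emod_nonneg _ hwc.ne',
        Int.emod_lt_of_pos _ hwc, (Int.mul_ediv_add_emod _ _).symm⟩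
    have hval : ((q0 + 1) * w + 1) * c = Q - r0 + w * c := by linear_combination -1 * hqr
    have hu1 : (q0 * w + 1) * c ≤ Q := by linarith
    have hu2 : (q0 * w + 1) * w ≤ Q := by
      have h3 : 0 ≤ q0 * w + 1 := by positivity
      exact (mul_le_mul_of_nonneg_left hcw h3).trans hu1
    have hjQ : (q0 + 1) * w ≤ Q := by
      have := mul_nonneg hq0 h.w0.le
      nlinarith
    have h2Q : 2 * Q ≤ w * Q := mul_le_mul_of_nonneg_right hw2 hQ.le
    have hspc : P * (Q - c) = 1 + w * Q * y := by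
      rw [← hc']
      linear_combination sp
    have e1 := (h.uniq (n := (q0 + 1) * w) (d := w * Q - (q0 + 1) * w * c)
      (Y := P + (q0 + 1) * (w * y - P)) (by linarith) (by nlinarith)
      (by linear_combination ((q0 + 1) * w) * hspc)).1
    have e2 := (h.uniq (n := (q0 + 1) * w + 1) (d := w * Q + Q - ((q0 + 1) * w + 1) * c)
      (Y := P + y + (q0 + 1) * (w * y - P)) (by linarith)
      (by linarith) (by linear_combination ((q0 + 1) * w + 1) * hspc)).1
    refine coreC h hF hn hsQ hQP (j := q0 + 1) (by linarith) hjQ ?_ ?_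
    · rw [e1, hd]
      linarith
    · rw [e2]
      linarith

end Pool.Agent.Helper73.E
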