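import Pool.Agent.Helper73.E.Cases

set_option autoImplicit false

/-!
# The evaluation points: `P ≡ -1`
-/

namespace Pool.Agent.Helper73.E

open Finset

variable {P Q w sg D t : ℤ} {k : ℕ}

/-- all members, `P ≡ -1` -/
theorem caseM {pm : ℤ} {J : ℕ} (h : Ch P Q w (-1) D t k) (hF : Fl P Q w pm J)
    (hmem : ∀ n, 0 < n → n < w → Q * ta w (-1) t n < dl Q w D n) {s : ℤ} (hs : 1 ≤ s) (hsw : s < w)
    (hsQ : w ∣ Q - s) : False := by
  have hQ := h.Q0
  have hP := h.P0
  have hw2 := h.w2
  have hwQ := h.wQ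
  have hwQ0 := h.wQ0
  have hk := h.hk
  have hk1 : (1 : ℤ) ≤ k := by exact_mod_cast h.k1
  -- the classes
  have ts : ta w (-1) t s = w - 1 := h.tauniq (by linarith) (by linarith) (by
    have := dvd_sub (Dvd.intro Q rfl : w ∣ w * Q) hsQ
    rwa [show w * Q - (Q - s) = Q * (w - 1) - -1 * s by ring] at this)
  have tws : ta w (-1) t (w - s) = 1 := by
    rw [h.ta_sub (by linarith) hsw, ts]; ring
  have ms := hmem s (by linarith) hsw
  have mws := hmem (w - s) (by linarith) (by linarith)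
  have mw1 := hmem (w - 1) (by linarith) (by linarith)
  have m1 := hmem 1 one_pos (by linarith)
  have t1 := h.ta_sub (n := 1) one_pos (by linarith)
  have t2 := h.tapos (n := 1) one_pos (by linarith)
  have t3 := h.tapos (n := w - 1) (by linarith) (by linarith)
  have t4 := h.ta1 (w - 1)
  rw [ts] at ms
  rw [tws, mul_one] at mws
  -- the cofactors
  have hY : ∀ n, 0 < n → n < w → (k : ℤ) ≤ yy P Q w D n := by
    intro n h0 h1
    have h2 := h.mem_yy h1 (hmem n h0 h1)
    have h3 := h.tapos h0 h1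
    have h4 : w * (k : ℤ) < w * (yy P Q w D n + 1) := by nlinarith
    have := lt_of_mul_lt_mul_left h4 h.w0.le
    linarith
  have hW : Win P Q w D k k := ⟨hk1, le_rfl, fun n h0 h1 => ⟨hY n h0 h1, by linarith [h.yylt h0]⟩⟩
  have hYs : P < yy P Q w D s + k := by
    have h2 := h.mem_yy hsw (hmem s (by linarith) hsw)
    rw [ts] at h2
    have h4 : w * P < w * (yy P Q w D s + k) := by nlinarith
    exact lt_of_mul_lt_mul_left h4 h.w0.le
  -- `dl w`
  have hsum : w * Q ≤ dl Q w D (w - 1) + dl Q w D 1 := by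
    rw [t1] at mw1
    nlinarith
  have e2 := (h.add_ge hsum).1
  rw [sub_add_cancel] at e2
  have hsum' : w * Q ≤ dl Q w D (w - s) + dl Q w D s := by nlinarith
  have e3 := (h.add_ge hsum').1
  rw [sub_add_cancel] at e3
  have d1 := h.dl1 1
  have ds := h.dl1 s
  have dws := h.dl1 (w - s)
  obtain ⟨x, hx1, hx2, hx3, hx4, hx5, hx6⟩ := mid3 (a := Q * ta w (-1) t (w - 1))
    (b := 1 - Q + dl Q w D (w - s)) (c := dl Q w D (w - 1))
    (d := 1 + (w - 1) * Q + w * Q - dl Q w D s) (w := w) (e := 1) (u := (w - 1) * Q) mw1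
    (by nlinarith) (by nlinarith) (by nlinarith) (by
      have := dvd_add (h.tamod (w - 1)) (dvd_refl w)
      have h7 := dvd_sub this (dvd_mul_right w 2)
      rwa [show Q * ta w (-1) t (w - 1) - -1 * (w - 1) + w - w * 2 = Q * ta w (-1) t (w - 1) - 1 by
        ring] at h7) (by
      have := dvd_sub (h.dlmod (w - s)) hsQ
      have h7 := dvd_sub this (dvd_refl w)
      rwa [show dl Q w D (w - s) - -1 * (w - s) - (Q - s) - w = 1 - Q + dl Q w D (w - s) - 1 by
        ring] at h7) (by nlinarith) (by linarith)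
  have c1 : w ∣ x - ta w (-1) t (w - 1) * Q := by
    have := dvd_add (dvd_sub hx5 (h.tamod (w - 1))) (dvd_refl w)
    have h7 := dvd_sub this (dvd_mul_right w 2)
    rw [show x - 1 - (Q * ta w (-1) t (w - 1) - -1 * (w - 1)) + w - w * 2 =
      x - ta w (-1) t (w - 1) * Q - w * 2 by ring] at h7
    have h8 := dvd_add h7 (dvd_mul_right w 2)
    rwa [sub_add_cancel] at h8
  have c2 : w ∣ x - 1 - 0 * Q := by rwa [zero_mul, sub_zero]
  have c3 : w ∣ x - dl Q w D (w - 1) := by
    have := dvd_sub hx5 (h.dlmod (w - 1))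
    have h7 := dvd_add this (dvd_refl w)
    rwa [show x - 1 - (dl Q w D (w - 1) - -1 * (w - 1)) + w = x - dl Q w D (w - 1) by ring] at h7
  have c4 : w ∣ x - (1 - Q + dl Q w D (w - s)) := by
    have := dvd_add (dvd_sub hx5 (h.dlmod (w - s))) hsQ
    have h7 := dvd_add this (dvd_refl w)
    rwa [show x - 1 - (dl Q w D (w - s) - -1 * (w - s)) + (Q - s) + w =
      x - (1 - Q + dl Q w D (w - s)) by ring] at h7
  have c5 : w ∣ x - (1 + (w - 1) * Q + w * Q - dl Q w D s) := by
    have := dvd_add (dvd_add hx5 (h.dlmod s)) hsQ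
    have h7 := dvd_sub this (dvd_mul_right w (2 * Q))
    rwa [show x - 1 + (dl Q w D s - -1 * s) + (Q - s) - w * (2 * Q) =
      x - (1 + (w - 1) * Q + w * Q - dl Q w D s) by ring] at h7
  have hxQ : 0 ≤ x := by nlinarith
  have hev := eval0M h hW (m := (k - k) * (w * Q) + P * x) rfl hx6 hF.hJ
    (a := ta w (-1) t (w - 1)) (b := 0) (by linarith) t4 le_rfl h.w0 c1 c2
  have s1 := thr0 h (m := (k - k) * (w * Q) + P * x) (b0 := k - k) (z0 := 0) (y := w - 1)
    (d := dl Q w D (w - 1)) (Y := yy P Q w D (w - 1)) rfl (by linarith) (by linarith)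
    (by linear_combination h.spec (w - 1)) c3
    (by linarith [hY (w - 1) (by linarith) (by linarith)])
    (by linarith [h.yylt (n := w - 1) (by linarith)])
  have s2 := thr0 h (m := (k - k) * (w * Q) + P * x) (b0 := k - k) (z0 := P) (y := 0)
    (d := 1) (Y := 0) rfl le_rfl h.w0 (by ring) hx5 (by linarith) (by linarith)
  have s3 := thr0 h (m := (k - k) * (w * Q) + P * x) (b0 := k - k) (z0 := P + Q) (y := w - s)
    (d := 1 - Q + dl Q w D (w - s)) (Y := yy P Q w D (w - s) - k) rfl (by linarith) (by linarith)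
    (by linear_combination h.spec (w - s) - Q * hk) c4
    (by linarith [hY (w - s) (by linarith) (by linarith)])
    (by linarith [h.yylt (n := w - s) (by linarith)])
  have s4 := thr0 h (m := (k - k) * (w * Q) + P * x) (b0 := k - k) (z0 := P + Q - w) (y := w - s)
    (d := 1 + (w - 1) * Q + w * Q - dl Q w D s) (Y := 2 * P - yy P Q w D s - k) rfl (by linarith)
    (by linarith) (by linear_combination -1 * h.spec s - Q * hk) c5
    (by linarith [h.yylt (n := s) (by linarith), h.kP]) (by linarith)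
  rw [sub_zero, th_neg (show x - dl Q w D (w - 1) < 0 by linarith)] at s1
  rw [th_pos (show 0 ≤ x - 1 by nlinarith)] at s2
  rw [th_pos (show 0 ≤ x - (1 - Q + dl Q w D (w - s)) by linarith), ← sub_sub] at s3
  rw [th_neg (show x - (1 + (w - 1) * Q + w * Q - dl Q w D s) < 0 by linarith)] at s4
  have hm0 := nonneg_of_S h s3
  have hm1 : (k - k) * (w * Q) + P * x < w * (P * Q) := by
    have e4 : P * x ≤ P * ((w - 1) * Q) := mul_le_mul_of_nonneg_left hx6 hP.le
    have e5 : 0 < P * Q := by positivity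
    nlinarith
  rw [th_pos (show 0 ≤ x - ta w (-1) t (w - 1) * Q by linarith),
    th_pos (show 0 ≤ x - 1 - 0 * Q by nlinarith), s3] at hev
  have hb := hF.be _ (by linarith) hm1
  rw [show (k - k) * (w * Q) + P * x - (P + Q - w) = (k - k) * (w * Q) + P * x - P - Q + w by
    ring] at s4
  rw [hev, s1, s2, s4] at hb
  ring_nf at hb
  norm_num at hb

/-- all nonmembers, `P ≡ -1` -/
theorem caseN {pm : ℤ} {J : ℕ} (h : Ch P Q w (-1) D t k) (hF : Fl P Q w pm J)
    (hn : ∀ n, 0 < n → n < w → dl Q w D n < Q * ta w (-1) t n) {s : ℤ} (hs : 2 ≤ s) (hsw : s < w)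
    (hsQ : w ∣ Q - s) : False := by
  have hQ := h.Q0
  have hP := h.P0
  have hw2 := h.w2
  have hwQ := h.wQ
  have hwQ0 := h.wQ0
  have hk := h.hk
  have hk1 : (1 : ℤ) ≤ k := by exact_mod_cast h.k1
  have hW := win_one h hn
  -- the classes
  have ts : ta w (-1) t s = w - 1 := h.tauniq (by linarith) (by linarith) (by
    have := dvd_sub (Dvd.intro Q rfl : w ∣ w * Q) hsQ
    rwa [show w * Q - (Q - s) = Q * (w - 1) - -1 * s by ring] at this)
  have tws : ta w (-1) t (w - s) = 1 := by
    rw [h.ta_sub (by linarith) hsw, ts]; ring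
  have n1 := hn 1 one_pos (by linarith)
  have ns := hn (s - 1) (by linarith) (by linarith)
  have nw := hn (w - (s - 1)) (by linarith) (by linarith)
  have t1 := h.tapos (n := 1) one_pos (by linarith)
  have t1' := h.ta1 1
  have t2 := h.ta1 (s - 1)
  have t5 := h.tapos (n := s - 1) (by linarith) (by linarith)
  have t3 := h.ta_sub (n := s - 1) (by linarith) (by linarith)
  have t4 : ta w (-1) t 1 + ta w (-1) t (s - 1) = w - 1 := by
    rcases lt_or_ge (ta w (-1) t 1 + ta w (-1) t (s - 1)) w with h5 | h5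
    · have := h.ta_add_lt h5
      rw [add_sub_cancel, ts] at this
      linarith
    · have := h.ta_add_ge h5
      rw [add_sub_cancel, ts] at this
      linarith
  have d1 := h.dlpos (n := s - 1) (by linarith) (by linarith)
  have d2 := h.dlpos (n := 1) one_pos (by linarith)
  rw [t3] at nw
  obtain ⟨x, hx1, hx2, hx3, hx4, hx5⟩ := mid (a := 1 + dl Q w D 1)
    (b := 1 - Q + dl Q w D (w - (s - 1))) (c := 1 + ta w (-1) t 1 * Q)
    (d := 1 + (w - 1) * Q - dl Q w D (s - 1)) (w := w) (e := 0) (by linarith)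
    (by nlinarith) (by nlinarith) (by nlinarith) (by
      have := h.dlmod 1
      rwa [show dl Q w D 1 - -1 * 1 = 1 + dl Q w D 1 - 0 by ring] at this) (by
      have := dvd_sub (h.dlmod (w - (s - 1))) hsQ
      have h7 := dvd_sub this (dvd_refl w)
      rwa [show dl Q w D (w - (s - 1)) - -1 * (w - (s - 1)) - (Q - s) - w =
        1 - Q + dl Q w D (w - (s - 1)) - 0 by ring] at h7)
  rw [sub_zero] at hx5
  have hx6 : x ≤ (w - 1) * Q := by linarith
  have c1 : w ∣ x - 0 * Q := by rwa [zero_mul, sub_zero]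
  have c2 : w ∣ x - 1 - ta w (-1) t 1 * Q := by
    have := dvd_sub hx5 (h.tamod 1)
    rwa [show x - (Q * ta w (-1) t 1 - -1 * 1) = x - 1 - ta w (-1) t 1 * Q by ring] at this
  have c3 : w ∣ x - 0 := by rwa [sub_zero]
  have c4 : w ∣ x - (1 + dl Q w D 1) := by
    have := dvd_sub hx5 (h.dlmod 1)
    rwa [show x - (dl Q w D 1 - -1 * 1) = x - (1 + dl Q w D 1) by ring] at this
  have c5 : w ∣ x - (1 - Q + dl Q w D (w - (s - 1))) := by
    have := dvd_add (dvd_sub hx5 (h.dlmod (w - (s - 1)))) hsQ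
    have h7 := dvd_add this (dvd_refl w)
    rwa [show x - (dl Q w D (w - (s - 1)) - -1 * (w - (s - 1))) + (Q - s) + w =
      x - (1 - Q + dl Q w D (w - (s - 1))) by ring] at h7
  have c6 : w ∣ x - (1 + (w - 1) * Q - dl Q w D (s - 1)) := by
    have := dvd_add (dvd_add hx5 (h.dlmod (s - 1))) hsQ
    have h7 := dvd_sub this (Dvd.intro Q rfl : w ∣ w * Q)
    rwa [show x + (dl Q w D (s - 1) - -1 * (s - 1)) + (Q - s) - w * Q =
      x - (1 + (w - 1) * Q - dl Q w D (s - 1)) by ring] at h7
  have hev := eval0M h hW (m := (k - 1) * (w * Q) + P * x) rfl hx6 hF.hJ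
    (a := 0) (b := ta w (-1) t 1) le_rfl h.w0 (by linarith) t1' c1 c2
  have s1 := thr0 h (m := (k - 1) * (w * Q) + P * x) (b0 := k - 1) (z0 := 0) (y := 0)
    (d := 0) (Y := 0) rfl le_rfl h.w0 (by ring) c3 (by linarith) (by linarith [h.kP])
  have s2 := thr0 h (m := (k - 1) * (w * Q) + P * x) (b0 := k - 1) (z0 := P) (y := 1)
    (d := 1 + dl Q w D 1) (Y := yy P Q w D 1) rfl (by linarith) (by linarith)
    (by linear_combination h.spec 1) c4
    (by linarith [(hW.2.2 1 one_pos (by linarith)).1])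
    (by linarith [(hW.2.2 1 one_pos (by linarith)).2])
  have s3 := thr0 h (m := (k - 1) * (w * Q) + P * x) (b0 := k - 1) (z0 := P + Q)
    (y := w - (s - 1)) (d := 1 - Q + dl Q w D (w - (s - 1)))
    (Y := yy P Q w D (w - (s - 1)) - k) rfl (by linarith) (by linarith)
    (by linear_combination h.spec (w - (s - 1)) - Q * hk) c5
    (by linarith [(hW.2.2 (w - (s - 1)) (by linarith) (by linarith)).1])
    (by linarith [h.yylt (n := w - (s - 1)) (by linarith)])
  have s4 := thr0 h (m := (k - 1) * (w * Q) + P * x) (b0 := k - 1) (z0 := P + Q - w)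
    (y := w - (s - 1)) (d := 1 + (w - 1) * Q - dl Q w D (s - 1))
    (Y := P - yy P Q w D (s - 1) - k) rfl (by linarith) (by linarith)
    (by linear_combination -1 * h.spec (s - 1) - Q * hk) c6
    (by linarith [h.yylt (n := s - 1) (by linarith)])
    (by linarith [(hW.2.2 (s - 1) (by linarith) (by linarith)).1])
  have hx0 : 0 ≤ x := by linarith
  rw [sub_zero, th_pos (show 0 ≤ x - 0 by linarith)] at s1
  rw [th_pos (show 0 ≤ x - (1 + dl Q w D 1) by linarith)] at s2
  rw [th_pos (show 0 ≤ x - (1 - Q + dl Q w D (w - (s - 1))) by linarith), ← sub_sub] at s3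
  rw [th_neg (show x - (1 + (w - 1) * Q - dl Q w D (s - 1)) < 0 by linarith)] at s4
  have hm0 := nonneg_of_S h s3
  have hm1 : (k - 1) * (w * Q) + P * x < w * (P * Q) := by
    have e1 : (k : ℤ) * (w * Q) = P * Q + Q := by linear_combination (-Q) * hk
    have e3 : P * x ≤ P * ((w - 1) * Q) := mul_le_mul_of_nonneg_left hx6 h.P0.le
    have e5 : Q < w * Q := by nlinarith
    nlinarith
  rw [th_pos (show 0 ≤ x - 0 * Q by linarith),
    th_neg (show x - 1 - ta w (-1) t 1 * Q < 0 by linarith), s3] at hev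
  have hb := hF.be _ (by linarith) hm1
  rw [show (k - 1) * (w * Q) + P * x - (P + Q - w) = (k - 1) * (w * Q) + P * x - P - Q + w by
    ring] at s4
  rw [hev, s1, s2, s4] at hb
  ring_nf at hb
  norm_num at hb

end Pool.Agent.Helper73.E
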