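import Pool.Agent.Helper73.E.CaseAB
import Pool.Agent.Helper73.E.CaseC
import Pool.Agent.Helper73.E.CaseM

set_option autoImplicit false

/-!
# Assembly
-/

namespace Pool.Agent.Helper73.E

open Finset

theorem Fl.symm {P Q w pm : ℤ} {J : ℕ} (h : Fl P Q w pm J) : Fl Q P w pm J := by
  refine ⟨h.hJ, fun m h0 h1 => ?_, fun m j h0 h1 h2 h3 => ?_, fun m h0 h1 => ?_⟩
  · rw [mul_comm Q P] at h1
    rw [A_comm]
    exact h.A1 m h0 h1
  · rw [mul_comm Q P] at h1
    rw [A_comm, S_comm Q P, S_comm Q P]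
    exact h.al m j h0 h1 h2 h3
  · rw [mul_comm Q P] at h1
    rw [A_comm, S_comm Q P, S_comm Q P, S_comm Q P, S_comm Q P]
    have := h.be m (by linarith) h1
    rwa [show m - Q - P + w = m - P - Q + w by ring, show A P Q w J m - S P Q w m + S P Q w (m - Q)
      + S P Q w (m - P) = A P Q w J m - S P Q w m + S P Q w (m - P) + S P Q w (m - Q) by ring]

theorem fl_of {p q w : ℤ} (hw : 2 ≤ w) (hwp : w < p) (hpq : p < q)
    (hF : ∀ (N : ℕ) (m : ℤ), (N : ℤ) < p * q → |F p q w N m| ≤ 1) : Fl p q w p w.toNat := by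
  have hw0 : 0 < w := by linarith
  have hp0 : 0 < p := by linarith
  have hq : q + p ≤ p * q := by nlinarith
  have hJ : (w.toNat : ℤ) = w := Int.toNat_of_nonneg hw0.le
  have hdiv : ∀ m : ℤ, m < w * (p * q) → m / w < p * q := by
    intro m hm
    rw [Int.ediv_lt_iff_lt_mul hw0]
    linarith
  refine ⟨hJ.ge, fun m h0 h1 => ?_, fun m j h0 h1 h2 h3 => ?_, fun m h0 h1 => ?_⟩
  · have e1 : ((m / w).toNat : ℤ) = m / w := Int.toNat_of_nonneg (Int.ediv_nonneg h0 hw0.le)
    have h2 := F_al (N := (m / w).toNat) hp0 hpq.le hq hw0 (J := w.toNat) (m := m) (by rwa [hJ])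
      (by rw [e1]; exact Int.ediv_le_ediv hw0 (by linarith)) e1.le
    rw [e1] at h2
    have h3 : F p q w (m / w).toNat m = A p q w w.toNat m := by
      rw [h2]; unfold S; ring
    rw [← h3]
    exact hF _ _ (by rw [e1]; exact hdiv m h1)
  · have e0 : (m - j * w) / w = m / w - j := by
      rw [show m - j * w = m + -j * w by ring, Int.add_mul_ediv_right _ _ hw0.ne']
      ring
    have e1 : ((m / w - j).toNat : ℤ) = m / w - j := Int.toNat_of_nonneg (by
      rw [← e0]; exact Int.ediv_nonneg (by linarith) hw0.le)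
    have e2 := Int.emod_add_mul_ediv m w
    have h4 := F_al (N := (m / w - j).toNat) hp0 hpq.le hq hw0 (J := w.toNat) (m := m)
      (by rwa [hJ]) (by
        rw [e1]
        apply Int.le_of_lt_add_one
        rw [Int.ediv_lt_iff_lt_mul hw0]
        nlinarith) (by rw [e1]; linarith)
    rw [e1] at h4
    have h5 : F p q w (m / w - j).toNat m =
        A p q w w.toNat m - S p q w m + S p q w (m - j * w) := by
      rw [h4]; unfold S; rw [e0]
    rw [← h5]
    exact hF _ _ (by rw [e1]; linarith [hdiv m h1])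
  · have e1 : (((m - p - q + w) / w).toNat : ℤ) = (m - p - q + w) / w :=
      Int.toNat_of_nonneg (Int.ediv_nonneg h0 hw0.le)
    have h4 := F_be (N := ((m - p - q + w) / w).toNat) hp0 hpq.le hq hw0 (J := w.toNat) (m := m)
      (by rwa [hJ]) (by
        rw [e1]
        exact Int.ediv_le_ediv hw0 (by linarith)) (by
        rw [e1]
        exact Int.ediv_le_ediv hw0 (by linarith))
    rw [e1] at h4
    have h5 : F p q w ((m - p - q + w) / w).toNat m = A p q w w.toNat m - S p q w m +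
        S p q w (m - p) + S p q w (m - q) - S p q w (m - p - q + w) := by
      rw [h4]; unfold S; ring
    rw [← h5]
    exact hF _ _ (by rw [e1]; exact hdiv _ (by linarith))

theorem exists_ch {P Q w sg : ℤ} (hw : 2 ≤ w) (hwP : w < P) (hwQ : w < Q) (cPQ : IsCoprime P Q)
    (cwP : IsCoprime w P) (cwQ : IsCoprime w Q) (hsg : sg = 1 ∨ sg = -1) (hd : w ∣ P - sg) :
    ∃ (D t : ℤ) (k : ℕ), Ch P Q w sg D t k := by
  obtain ⟨a, b, hab⟩ := (cwP.symm.mul_right cPQ : IsCoprime P (w * Q))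
  obtain ⟨c, d, hcd⟩ := cwQ
  obtain ⟨k, hk⟩ := hd
  have hk0 : 0 ≤ k := by
    by_contra hcon
    push Not at hcon
    rcases hsg with h | h <;> rw [h] at hk <;> nlinarith
  refine ⟨a, d, k.toNat, hw, hwP, hwQ, cPQ, ⟨c, d, hcd⟩, hsg, ?_, ⟨-b, by linarith⟩,
    ⟨-c, by linarith⟩⟩
  rw [Int.toNat_of_nonneg hk0]
  linarith

theorem res {Q w : ℤ} (hw : 2 ≤ w) (cwQ : IsCoprime w Q) :
    1 ≤ Q % w ∧ Q % w < w ∧ w ∣ Q - Q % w := by
  refine ⟨?_, Int.emod_lt_of_pos _ (by linarith), ⟨Q / w, by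
    have := Int.emod_add_mul_ediv Q w
    linarith⟩⟩
  have h0 := Int.emod_nonneg Q (show w ≠ 0 by linarith)
  by_contra hcon
  push Not at hcon
  have h1 : w ∣ Q := Int.dvd_of_emod_eq_zero (by linarith)
  have h2 : IsUnit w := cwQ.isUnit_of_dvd' dvd_rfl h1
  have := Int.isUnit_iff.1 h2
  omega

/-- `P ≡ -1` modulo `w`, `Q` not `1` -/
theorem minus {P Q w pm : ℤ} {J : ℕ} (hw : 2 ≤ w) (hwP : w < P) (hwQ : w < Q) (cPQ : IsCoprime P Q)
    (cwP : IsCoprime w P) (cwQ : IsCoprime w Q) (hF : Fl P Q w pm J) (hd : w ∣ P + 1)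
    (hQ : ¬ w ∣ Q - 1) : False := by
  obtain ⟨D, t, k, h⟩ := exists_ch (sg := -1) hw hwP hwQ cPQ cwP cwQ (Or.inr rfl)
    (by rwa [sub_neg_eq_add])
  obtain ⟨r1, r2, r3⟩ := res hw cwQ
  have r4 : 2 ≤ Q % w := by
    rcases eq_or_lt_of_le r1 with h1 | h1
    · rw [← h1] at r3
      exact absurd r3 hQ
    · linarith
  rcases const h hF with hc | hc
  · exact caseM h hF hc r1 r2 r3
  · exact caseN h hF hc r4 r2 r3

/-- **Theorem E1.** -/
theorem main1 {p q w : ℤ} (hw : 2 ≤ w) (hwp : w < p) (hpq : p < q) (cpq : IsCoprime p q)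
    (cwp : IsCoprime w p) (cwq : IsCoprime w q)
    (hF : ∀ (N : ℕ) (m : ℤ), (N : ℤ) < p * q → |F p q w N m| ≤ 1)
    (hor : (w ∣ p - 1 ∨ w ∣ p + 1) ∨ (w ∣ q - 1 ∨ w ∣ q + 1)) : w * p ∣ q - 1 := by
  have hfl := fl_of hw hwp hpq hF
  have hwq : w < q := hwp.trans hpq
  by_cases hq1 : w ∣ q - 1
  · obtain ⟨D, t, k, h⟩ := exists_ch (sg := 1) hw hwq hwp cpq.symm cwq cwp (Or.inl rfl) hq1
    obtain ⟨r1, r2, r3⟩ := res hw cwp
    by_cases h1 : dl p w D 1 = 1
    · have h2 := h.spec 1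
      rw [h1] at h2
      exact ⟨yy q p w D 1, by linarith⟩
    · exfalso
      rcases const h hfl.symm with hc | hc
      · exact caseA h hfl.symm hwp.le hc
      · rcases eq_or_lt_of_le r1 with h3 | h3
        · rw [← h3] at r3
          exact caseC h hfl.symm hc r3 hpq h1
        · exact caseAB h hfl.symm hpq hc (s := p % w) (by linarith) r2 r3 h1
  · exfalso
    by_cases hp1 : w ∣ p - 1
    · obtain ⟨D, t, k, h⟩ := exists_ch (sg := 1) hw hwp hwq cpq cwp cwq (Or.inl rfl) hp1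
      obtain ⟨r1, r2, r3⟩ := res hw cwq
      have r4 : 2 ≤ q % w := by
        rcases eq_or_lt_of_le r1 with h1 | h1
        · rw [← h1] at r3
          exact absurd r3 hq1
        · linarith
      rcases const h hfl with hc | hc
      · exact caseA h hfl hwp.le hc
      · exact caseB h hfl hc r4 r2 r3
    · rcases hor with (h | h) | (h | h)
      · exact hp1 h
      · exact minus hw hwp hwq cpq cwp cwq hfl h hq1
      · exact hq1 h
      · exact minus hw hwq hwp cpq.symm cwq cwp hfl.symm h hp1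

end Pool.Agent.Helper73.E
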