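import Mathlib

set_option autoImplicit false

/-!
# Coefficient sums of `Φ_{pqr}` with `r ≡ w` modulo `p q`: evaluation rules
-/

namespace Pool.Agent.Helper73.E

open Finset

/-- step function -/
def th (y : ℤ) : ℤ := if 0 ≤ y then 1 else 0

theorem th_pos {y : ℤ} (h : 0 ≤ y) : th y = 1 := if_pos h
theorem th_neg {y : ℤ} (h : y < 0) : th y = 0 := if_neg (not_le.2 h)

open Classical in
/-- indicator of the semigroup generated by `P` and `Q` -/
noncomputable def g (P Q u : ℤ) : ℤ :=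
  if ∃ i j : ℤ, 0 ≤ i ∧ 0 ≤ j ∧ u = i * P + j * Q then 1 else 0

theorem g_comm (P Q u : ℤ) : g P Q u = g Q P u := by
  unfold g
  congr 1
  apply propext
  constructor
  · rintro ⟨i, j, hi, hj, h⟩
    exact ⟨j, i, hj, hi, by linarith⟩
  · rintro ⟨i, j, hi, hj, h⟩
    exact ⟨j, i, hj, hi, by linarith⟩

theorem g_neg {P Q u : ℤ} (hP : 0 < P) (hQ : 0 < Q) (hu : u < 0) : g P Q u = 0 := by
  unfold g
  rw [if_neg]
  rintro ⟨i, j, hi, hj, h⟩
  nlinarith

theorem g_rep {P Q a c : ℤ} (hP : 0 < P) (hQ : 0 < Q) (hcop : IsCoprime P Q) (ha : 0 ≤ a)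
    (haP : a < P) : g P Q (Q * a + P * c) = th c := by
  unfold g th
  by_cases hc : 0 ≤ c
  · rw [if_pos hc, if_pos]
    exact ⟨c, a, hc, ha, by ring⟩
  · rw [if_neg hc, if_neg]
    rintro ⟨i, j, hi, hj, h⟩
    have h1 : P ∣ (j - a) * Q := ⟨c - i, by linarith⟩
    obtain ⟨e, he⟩ := hcop.dvd_of_dvd_mul_right h1
    have he0 : 0 ≤ e := by
      by_contra hcon
      push Not at hcon
      nlinarith
    have h2 : P * (c - i) = P * (e * Q) := by
      have : j = a + P * e := by linarith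
      rw [this] at h
      linarith
    have h3 : c - i = e * Q := mul_left_cancel₀ hP.ne' h2
    nlinarith

/-- the blocks of length `w` -/
noncomputable def S (P Q w M : ℤ) : ℤ := g P Q (M / w)

theorem S_comm (P Q w M : ℤ) : S P Q w M = S Q P w M := g_comm _ _ _

theorem S_neg {P Q w M : ℤ} (hP : 0 < P) (hQ : 0 < Q) (hw : 0 < w) (hM : M < 0) :
    S P Q w M = 0 := g_neg hP hQ (Int.ediv_neg_of_neg_of_pos hM hw)

/-- threshold rule -/
theorem S_thr {P Q w M y a z : ℤ} (hP : 0 < P) (hQ : 0 < Q) (hw : 0 < w) (hcop : IsCoprime P Q)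
    (hy : 0 ≤ y) (hyw : y < w) (ha : 0 ≤ a) (haP : a < P) (hz : w ∣ z)
    (hM : M = y + w * (Q * a) + P * z) : S P Q w M = th z := by
  obtain ⟨c, rfl⟩ := hz
  have h1 : M / w = Q * a + P * c := by
    rw [hM, show y + w * (Q * a) + P * (w * c) = y + w * (Q * a + P * c) by ring,
      Int.add_mul_ediv_left _ _ hw.ne', Int.ediv_eq_zero_of_lt hy hyw, zero_add]
  unfold S
  rw [h1, g_rep hP hQ hcop ha haP]
  unfold th
  by_cases hc : 0 ≤ c
  · rw [if_pos hc, if_pos (mul_nonneg hw.le hc)]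
  · rw [if_neg hc, if_neg]
    push Not at hc ⊢
    exact mul_neg_of_pos_of_neg hw hc

/-- `S` in terms of the block number -/
theorem S_block {P Q w n y : ℤ} (hw : 0 < w) (hy : 0 ≤ y) (hyw : y < w) :
    S P Q w (w * n + y) = g P Q n := by
  unfold S
  rw [add_comm, Int.add_mul_ediv_left _ _ hw.ne', Int.ediv_eq_zero_of_lt hy hyw, zero_add]

/-- the two window function -/
def cc (p q x : ℤ) : ℤ :=
  (if x % (p * q) < p then 1 else 0) - (if q ≤ x % (p * q) ∧ x % (p * q) < q + p then 1 else 0)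

/-- the coefficient sums -/
noncomputable def F (p q w : ℤ) (N : ℕ) (m : ℤ) : ℤ :=
  ∑ s ∈ range (N + 1), (g p q s - g p q (s - 1)) * cc p q (m - w * s)

theorem cc_eq {p q x : ℤ} (hp : 0 < p) (hpq : p ≤ q) (hq : q + p ≤ p * q) (hx : 0 ≤ x) {J : ℕ}
    (hJ : x < J * (p * q)) :
    cc p q x = ∑ j ∈ range J, (th (x - j * (p * q)) - th (x - j * (p * q) - p) -
      th (x - j * (p * q) - q) + th (x - j * (p * q) - p - q)) := by
  have hM : 0 < p * q := mul_pos hp (lt_of_lt_of_le hp hpq)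
  obtain ⟨a, ha⟩ : ∃ a : ℕ, x / (p * q) = a :=
    ⟨_, (Int.toNat_of_nonneg (Int.ediv_nonneg hx hM.le)).symm⟩
  have hdiv := Int.emod_add_mul_ediv x (p * q)
  have hb0 := Int.emod_nonneg x hM.ne'
  have hb1 := Int.emod_lt_of_pos x hM
  rw [ha] at hdiv
  have haJ : a < J := by
    have : (a : ℤ) * (p * q) < J * (p * q) := by nlinarith
    have := lt_of_mul_lt_mul_right this hM.le
    exact_mod_cast this
  rw [sum_eq_single_of_mem a (mem_range.2 haJ)]
  · have e1 : x - a * (p * q) = x % (p * q) := by linarith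
    rw [e1]
    unfold cc th
    generalize x % (p * q) = b at *
    split_ifs <;> omega
  · intro j hj hja
    rcases lt_or_gt_of_ne hja with h | h
    · have h1 : (j : ℤ) + 1 ≤ a := by exact_mod_cast h
      have h2 : p * q ≤ x - j * (p * q) := by nlinarith
      rw [th_pos (by linarith), th_pos (by linarith), th_pos (by linarith), th_pos (by linarith)]
      ring
    · have h1 : (a : ℤ) + 1 ≤ j := by exact_mod_cast h
      have h2 : x - j * (p * q) < 0 := by nlinarith
      rw [th_neg (by linarith), th_neg (by linarith), th_neg (by linarith), th_neg (by linarith)]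
      ring

theorem psum {P Q w : ℤ} (hP : 0 < P) (hQ : 0 < Q) (hw : 0 < w) (M : ℤ) (N : ℕ) :
    ∑ s ∈ range (N + 1), (g P Q s - g P Q (s - 1)) * th (M - w * s) = g P Q (min (N : ℤ) (M / w)) := by
  induction N with
  | zero =>
    rw [zero_add, sum_range_one]
    have h1 : g P Q (((0 : ℕ) : ℤ) - 1) = 0 := g_neg hP hQ (by simp)
    rw [h1]
    by_cases hM : 0 ≤ M
    · rw [th_pos (by simpa using hM), min_eq_left (by simpa using Int.ediv_nonneg hM hw.le)]
      ring
    · push Not at hM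
      have h2 := Int.ediv_neg_of_neg_of_pos hM hw
      rw [th_neg (by simpa using hM), g_neg hP hQ (lt_of_le_of_lt (min_le_right _ _) h2)]
      ring
  | succ N ih =>
    rw [sum_range_succ, ih]
    by_cases h : ((N + 1 : ℕ) : ℤ) ≤ M / w
    · have h1 : w * ((N + 1 : ℕ) : ℤ) ≤ M := by
        have := (Int.le_ediv_iff_mul_le hw).1 h
        linarith
      rw [th_pos (by linarith), min_eq_left h, min_eq_left (by push_cast at h ⊢; linarith)]
      push_cast
      rw [add_sub_cancel_right]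
      ring
    · push Not at h
      have h1 : M < w * ((N + 1 : ℕ) : ℤ) := by
        have := (Int.ediv_lt_iff_lt_mul hw).1 h
        linarith
      rw [th_neg (by linarith), min_eq_right h.le,
        min_eq_right (by push_cast at h ⊢; linarith)]
      ring

/-- the coefficient of `Q_{w,p,q}` -/
noncomputable def A (P Q w : ℤ) (J : ℕ) (m : ℤ) : ℤ :=
  ∑ j ∈ range J, (S P Q w (m - j * (P * Q)) - S P Q w (m - j * (P * Q) - P) -
    S P Q w (m - j * (P * Q) - Q) + S P Q w (m - j * (P * Q) - P - Q))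

theorem A_comm (P Q w : ℤ) (J : ℕ) (m : ℤ) : A P Q w J m = A Q P w J m := by
  unfold A
  refine sum_congr rfl fun j _ => ?_
  rw [mul_comm P Q, S_comm P Q, S_comm P Q w (m - j * (Q * P) - P),
    S_comm P Q w (m - j * (Q * P) - Q), S_comm P Q w (m - j * (Q * P) - P - Q),
    show m - j * (Q * P) - P - Q = m - j * (Q * P) - Q - P by ring]
  ring

theorem F_min {p q w : ℤ} (hp : 0 < p) (hpq : p ≤ q) (hq : q + p ≤ p * q) (hw : 0 < w) {J : ℕ}
    {m : ℤ} {N : ℕ} (hN : w * N ≤ m) (hJ : m < J * (p * q)) :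
    F p q w N m = ∑ j ∈ range J, (g p q (min (N : ℤ) ((m - j * (p * q)) / w)) -
      g p q (min (N : ℤ) ((m - j * (p * q) - p) / w)) -
      g p q (min (N : ℤ) ((m - j * (p * q) - q) / w)) +
      g p q (min (N : ℤ) ((m - j * (p * q) - p - q) / w))) := by
  have hq0 : 0 < q := lt_of_lt_of_le hp hpq
  simp only [← psum hp hq0 hw]
  rw [F]
  simp only [← sum_sub_distrib, ← sum_add_distrib]
  rw [sum_comm]
  refine sum_congr rfl fun s hs => ?_
  rw [mem_range] at hs
  have hs1 : (s : ℤ) ≤ N := by exact_mod_cast Nat.lt_succ_iff.1 hs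
  rw [cc_eq hp hpq hq (x := m - w * s) (by nlinarith) (J := J) (by nlinarith [hs1, mul_nonneg hw.le (Nat.cast_nonneg (α := ℤ) s)]),
    mul_sum]
  refine sum_congr rfl fun j _ => ?_
  rw [show m - w * s - j * (p * q) = m - j * (p * q) - w * s by ring,
    show m - j * (p * q) - w * s - p = m - j * (p * q) - p - w * s by ring,
    show m - j * (p * q) - w * s - q = m - j * (p * q) - q - w * s by ring,
    show m - j * (p * q) - p - w * s - q = m - j * (p * q) - p - q - w * s by ring]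
  ring

/-- rule (al) -/
theorem F_al {p q w : ℤ} (hp : 0 < p) (hpq : p ≤ q) (hq : q + p ≤ p * q) (hw : 0 < w) {J : ℕ}
    {m : ℤ} {N : ℕ} (hJ : m < J * (p * q)) (h1 : (m - p) / w ≤ N)
    (h2 : (N : ℤ) ≤ m / w) : F p q w N m = A p q w J m - S p q w m + g p q N := by
  have hm : w * N ≤ m := by
    have := (Int.le_ediv_iff_mul_le hw).1 h2
    linarith
  have hM : 0 < p * q := by
    have : 0 < q := lt_of_lt_of_le hp hpq
    positivity
  have hm0 : 0 ≤ m := le_trans (by positivity) hm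
  obtain ⟨J', rfl⟩ : ∃ J', J = J' + 1 := by
    refine ⟨J - 1, ?_⟩
    rcases Nat.eq_zero_or_pos J with h | h
    · subst h
      simp at hJ
      linarith
    · omega
  rw [F_min hp hpq hq hw hm hJ, A, sum_range_succ', sum_range_succ']
  have hterm : ∀ M : ℤ, M ≤ m - p → g p q (min (N : ℤ) (M / w)) = S p q w M := by
    intro M hM
    rw [min_eq_right]
    · rfl
    · exact (Int.ediv_le_ediv hw hM).trans h1
  have h3 : ∀ j : ℕ, m - ((j + 1 : ℕ) : ℤ) * (p * q) ≤ m - p := by
    intro j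
    push_cast
    nlinarith [mul_nonneg (Nat.cast_nonneg (α := ℤ) j) hM.le]
  have hq0 : 0 < q := lt_of_lt_of_le hp hpq
  have e : ∀ j ∈ range J', (g p q (min (N : ℤ) ((m - ((j + 1 : ℕ) : ℤ) * (p * q)) / w)) -
      g p q (min (N : ℤ) ((m - ((j + 1 : ℕ) : ℤ) * (p * q) - p) / w)) -
      g p q (min (N : ℤ) ((m - ((j + 1 : ℕ) : ℤ) * (p * q) - q) / w)) +
      g p q (min (N : ℤ) ((m - ((j + 1 : ℕ) : ℤ) * (p * q) - p - q) / w))) =
      (S p q w (m - ((j + 1 : ℕ) : ℤ) * (p * q)) - S p q w (m - ((j + 1 : ℕ) : ℤ) * (p * q) - p) -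
    S p q w (m - ((j + 1 : ℕ) : ℤ) * (p * q) - q) + S p q w (m - ((j + 1 : ℕ) : ℤ) * (p * q) - p - q)) := by
    intro j _
    have := h3 j
    rw [hterm _ this, hterm _ (by linarith), hterm _ (by linarith), hterm _ (by linarith)]
  rw [sum_congr rfl e]
  simp only [Nat.cast_zero, zero_mul, sub_zero]
  rw [hterm _ le_rfl, hterm (m - q) (by linarith), hterm (m - p - q) (by linarith), min_eq_left h2]
  ring

/-- rule (be) -/
theorem F_be {p q w : ℤ} (hp : 0 < p) (hpq : p ≤ q) (hq : q + p ≤ p * q) (hw : 0 < w) {J : ℕ}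
    {m : ℤ} {N : ℕ} (hJ : m < J * (p * q)) (h1 : (m - p - q) / w ≤ N)
    (h2 : (N : ℤ) ≤ (m - q) / w) :
    F p q w N m = A p q w J m - S p q w m + S p q w (m - p) + S p q w (m - q) - g p q N := by
  have hq0 : 0 < q := lt_of_lt_of_le hp hpq
  have h2' : (N : ℤ) ≤ m / w := h2.trans (Int.ediv_le_ediv hw (by linarith))
  have h2'' : (N : ℤ) ≤ (m - p) / w := h2.trans (Int.ediv_le_ediv hw (by linarith))
  have hm : w * N ≤ m := by
    have := (Int.le_ediv_iff_mul_le hw).1 h2'
    linarith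
  have hM : 0 < p * q := by positivity
  have hm0 : 0 ≤ m := le_trans (by positivity) hm
  obtain ⟨J', rfl⟩ : ∃ J', J = J' + 1 := by
    refine ⟨J - 1, ?_⟩
    rcases Nat.eq_zero_or_pos J with h | h
    · subst h
      simp at hJ
      linarith
    · omega
  rw [F_min hp hpq hq hw hm hJ, A, sum_range_succ', sum_range_succ']
  have hterm : ∀ M : ℤ, M ≤ m - p - q → g p q (min (N : ℤ) (M / w)) = S p q w M := by
    intro M hM
    rw [min_eq_right]
    · rfl
    · exact (Int.ediv_le_ediv hw hM).trans h1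
  have h3 : ∀ j : ℕ, m - ((j + 1 : ℕ) : ℤ) * (p * q) ≤ m - p - q := by
    intro j
    push_cast
    nlinarith [mul_nonneg (Nat.cast_nonneg (α := ℤ) j) hM.le]
  have e : ∀ j ∈ range J', (g p q (min (N : ℤ) ((m - ((j + 1 : ℕ) : ℤ) * (p * q)) / w)) -
      g p q (min (N : ℤ) ((m - ((j + 1 : ℕ) : ℤ) * (p * q) - p) / w)) -
      g p q (min (N : ℤ) ((m - ((j + 1 : ℕ) : ℤ) * (p * q) - q) / w)) +
      g p q (min (N : ℤ) ((m - ((j + 1 : ℕ) : ℤ) * (p * q) - p - q) / w))) =
      (S p q w (m - ((j + 1 : ℕ) : ℤ) * (p * q)) - S p q w (m - ((j + 1 : ℕ) : ℤ) * (p * q) - p) -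
    S p q w (m - ((j + 1 : ℕ) : ℤ) * (p * q) - q) + S p q w (m - ((j + 1 : ℕ) : ℤ) * (p * q) - p - q)) := by
    intro j _
    have := h3 j
    rw [hterm _ this, hterm _ (by linarith), hterm _ (by linarith), hterm _ (by linarith)]
  rw [sum_congr rfl e]
  simp only [Nat.cast_zero, zero_mul, sub_zero]
  rw [hterm (m - p - q) le_rfl, min_eq_left h2', min_eq_left h2, min_eq_left h2'']
  ring

end Pool.Agent.Helper73.E
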