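import Pool.Agent.Helper73.E.Cases

set_option autoImplicit false

/-!
# The evaluation points, `q ≡ 1`
-/

namespace Pool.Agent.Helper73.E

open Finset

variable {P Q w sg D t : ℤ} {k : ℕ}

/-- all nonmembers, `P ≡ 1`, `Q` the smaller one, `s ≥ 2` -/
theorem caseAB {J : ℕ} (h : Ch P Q w 1 D t k) (hF : Fl P Q w Q J) (hQP : Q < P)
    (hn : ∀ n, 0 < n → n < w → dl Q w D n < Q * ta w 1 t n) {s : ℤ} (hs : 2 ≤ s) (hsw : s < w)
    (hsQ : w ∣ Q - s) (hne : dl Q w D 1 ≠ 1) : False := by
  have hQ := h.Q0
  have hP := h.P0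
  have hw2 := h.w2
  have hwQ := h.wQ
  have hwQ0 := h.wQ0
  have hk := h.hk
  have hk1 : (1 : ℤ) ≤ k := by exact_mod_cast h.k1
  have d0 := h.dlpos (n := 1) one_pos (by linarith)
  have dnn : 0 ≤ dl Q w D 1 := by linarith
  have dpp : 0 < dl Q w D 1 := by linarith
  have d1 := h.dl1 1
  have dm := h.dlmod 1
  have sp := h.spec 1
  have ts := ta_s h hsQ
  have ns := hn s (by linarith) hsw
  rw [ts, mul_one] at ns
  have y1 := h.yypos (n := 1) one_pos (by linarith) (by linarith [h.wP])
  -- `dl 1 ≥ w + 1`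
  have dw : w + 1 ≤ dl Q w D 1 := by
    obtain ⟨c, hc⟩ := dm
    have hc1 : 1 ≤ c := by
      by_contra hcon
      push Not at hcon
      rcases lt_or_eq_of_le (show c ≤ 0 by linarith) with h2 | h2
      · have h3 : w * c ≤ w * (-1) := mul_le_mul_of_nonneg_left (by linarith) h.w0.le
        linarith
      · rw [h2] at hc
        exact hne (by linarith)
    have h3 : w * 1 ≤ w * c := mul_le_mul_of_nonneg_left hc1 h.w0.le
    linarith
  rcases lt_or_ge (dl Q w D 1) Q with hcase | hcase
  · -- (a)
    have hsd : s * dl Q w D 1 < w * Q := mul_lt_mul'' hsw hcase (by linarith) dnn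
    have es := h.uniq (n := s) (d := s * dl Q w D 1) (Y := s * yy P Q w D 1) (by positivity) hsd
      (by linear_combination s * sp)
    rw [es.1] at ns
    have hs1d : (s - 1) * dl Q w D 1 < w * Q :=
      mul_lt_mul'' (by linarith) hcase (by linarith) dnn
    have es1 := h.uniq (n := s - 1) (d := (s - 1) * dl Q w D 1) (Y := (s - 1) * yy P Q w D 1)
      (mul_nonneg (by linarith) (by linarith)) hs1d (by linear_combination (s - 1) * sp)
    have hwd : 0 < w * dl Q w D 1 := by positivity
    obtain ⟨q0, r0, hq0, hr0, hr1, hqr⟩ : ∃ q0 r0 : ℤ, 0 ≤ q0 ∧ 0 ≤ r0 ∧ r0 < w * dl Q w D 1 ∧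
        Q - s * dl Q w D 1 = w * dl Q w D 1 * q0 + r0 :=
      ⟨(Q - s * dl Q w D 1) / (w * dl Q w D 1), (Q - s * dl Q w D 1) % (w * dl Q w D 1),
        Int.ediv_nonneg (by linarith) hwd.le, Int.emod_nonneg _ hwd.ne',
        Int.emod_lt_of_pos _ hwd, (Int.mul_ediv_add_emod _ _).symm⟩
    -- `j = q0 + 1`
    have hqw := mul_nonneg hq0 h.w0.le
    have hu1 : (q0 * w + s) * dl Q w D 1 ≤ Q := by linarith
    have hu2 : (w + 1) * (q0 * w + s) ≤ Q := by
      have h3 : (w + 1) * (q0 * w + s) ≤ dl Q w D 1 * (q0 * w + s) :=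
        mul_le_mul_of_nonneg_right dw (by linarith)
      linarith
    have hqw1 : q0 * 1 ≤ q0 * w := mul_le_mul_of_nonneg_left (by linarith) hq0
    have hjQ : (q0 + 1) * w ≤ Q := by
      have h3 : w * (q0 + 1) ≤ w * (q0 * w + s) :=
        mul_le_mul_of_nonneg_left (by linarith) h.w0.le
      linarith
    have hval : ((q0 + 1) * w + s) * dl Q w D 1 = Q - r0 + w * dl Q w D 1 := by
      linear_combination -1 * hqr
    have h2d : 2 * dl Q w D 1 < Q := by
      have h3 : 2 * dl Q w D 1 ≤ s * dl Q w D 1 := mul_le_mul_of_nonneg_right hs dnn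
      linarith
    have hlt : ((q0 + 1) * w + s) * dl Q w D 1 < w * Q := by
      rw [hval]
      have h3 : w * (2 * dl Q w D 1) < w * Q := mul_lt_mul_of_pos_left h2d h.w0
      have h4 : 2 * Q ≤ w * Q := mul_le_mul_of_nonneg_right hw2 hQ.le
      linarith
    have hj0 : 0 < (q0 + 1) * w + s := by positivity
    have ej := h.uniq (n := (q0 + 1) * w + s) (d := ((q0 + 1) * w + s) * dl Q w D 1)
      (Y := ((q0 + 1) * w + s) * yy P Q w D 1) (by positivity) hlt
      (by linear_combination ((q0 + 1) * w + s) * sp)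
    have yj := h.yylt hj0
    rw [ej.2] at yj
    refine fin_ab h hF hn hs hsw hsQ (j := q0 + 1) (d := ((q0 + 1) * w + s) * dl Q w D 1)
      (Y := ((q0 + 1) * w + s) * yy P Q w D 1) (by linarith) (by linarith) (by linarith)
      (by linear_combination ((q0 + 1) * w + s) * sp)
      (by have h3 := mul_pos hj0 y1; linarith) yj.le ?_ ?_ ?_
    · rw [← ej.1]
      have := dvd_add (h.dlmod ((q0 + 1) * w + s)) (Dvd.intro_left (q0 + 1) rfl : w ∣ (q0 + 1) * w)
      rwa [show dl Q w D ((q0 + 1) * w + s) - 1 * ((q0 + 1) * w + s) + (q0 + 1) * w =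
        dl Q w D ((q0 + 1) * w + s) - s by ring] at this
    · rw [hval]
      linarith
    · rw [es1.1]
      have h3 := mul_nonneg hqw dnn
      have h4 := mul_pos h.w0 dpp
      linarith
  · -- (b)
    have hcase' : Q < dl Q w D 1 := by
      rcases lt_or_eq_of_le hcase with h2 | h2
      · exact h2
      · exact absurd h2.symm (by simpa using h.dlne (n := 1) one_pos (by linarith) 1)
    have n1 := hn (s - 1) (by linarith) (by linarith)
    have n0 := hn 1 one_pos (by linarith)
    have t1 := h.tapos (n := s - 1) (by linarith) (by linarith)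
    have t2 := h.ta1 (s - 1)
    have t3 := h.tapos (n := 1) one_pos (by linarith)
    have t4 := h.ta1 1
    have e1 : ta w 1 t (s - 1) + ta w 1 t 1 - w = 1 := by
      rcases lt_or_ge (ta w 1 t (s - 1) + ta w 1 t 1) w with h2 | h2
      · have := h.ta_add_lt h2
        rw [sub_add_cancel, ts] at this
        linarith
      · have := h.ta_add_ge h2
        rw [sub_add_cancel, ts] at this
        linarith
    have dn := h.dl0 (s - 1)
    obtain ⟨e2, e2'⟩ : dl Q w D s = dl Q w D (s - 1) + dl Q w D 1 - w * Q ∧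
        yy P Q w D s = yy P Q w D (s - 1) + yy P Q w D 1 - P := by
      rcases lt_or_ge (dl Q w D (s - 1) + dl Q w D 1) (w * Q) with h2 | h2
      · have := (h.add_lt h2).1
        rw [sub_add_cancel] at this
        linarith
      · have := h.add_ge h2
        rwa [sub_add_cancel] at this
    -- `c = Q ta 1 - dl 1`
    obtain ⟨c, hc⟩ : ∃ c, Q * ta w 1 t 1 - dl Q w D 1 = c := ⟨_, rfl⟩
    have hc0 : 0 < c := by linarith
    have hcQ : c < Q := by
      have h5 : dl Q w D 1 = w * Q + dl Q w D s - dl Q w D (s - 1) := by linarith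
      have h6 : ta w 1 t (s - 1) = w + 1 - ta w 1 t 1 := by linarith
      rw [h6] at n1
      have := h.dl0 s
      have h7 : Q * (w + 1 - ta w 1 t 1) = w * Q + Q - Q * ta w 1 t 1 := by ring
      linarith
    have hcw : w ≤ c := by
      have h5 := h.dtmod 1
      rw [show dl Q w D 1 - Q * ta w 1 t 1 = -c by linarith, dvd_neg] at h5
      exact Int.le_of_dvd hc0 h5
    -- `s * ta 1 = 1 + w e`
    obtain ⟨e, he⟩ : ∃ e, s * ta w 1 t 1 = 1 + w * e := by
      have h5 := dvd_sub (h.tamod 1 |>.mul_left s) (h.tamod s)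
      rw [ts, show s * (Q * ta w 1 t 1 - 1 * 1) - (Q * 1 - 1 * s) =
        (s * ta w 1 t 1 - 1) * Q by ring] at h5
      obtain ⟨e, he⟩ := h.cQ.dvd_of_dvd_mul_right h5
      exact ⟨e, by linarith⟩
    have he1 : 1 ≤ e := by
      by_contra hcon
      push Not at hcon
      have h5 : w * e ≤ 0 := mul_nonpos_of_nonneg_of_nonpos h.w0.le (by linarith)
      have h6 : 2 * 1 ≤ s * ta w 1 t 1 := mul_le_mul hs t3 (by norm_num) (by linarith)
      linarith
    have hPc : P * (Q - s * c) = s + w * Q * (s * yy P Q w D 1 - P * e) := by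
      rw [← hc]
      linear_combination s * sp + (P * Q) * (-1) * he
    have hsc : s * c < w * Q := mul_lt_mul'' hsw hcQ (by linarith) hc0.le
    have hsc0 : 0 < s * c := mul_pos (by linarith) hc0
    have hQw : 2 * Q ≤ w * Q := mul_le_mul_of_nonneg_right hw2 hQ.le
    -- `dl s = Q - s c`
    have hdls : dl Q w D s = Q - s * c := by
      rcases lt_or_ge (Q - s * c) 0 with h5 | h5
      · exfalso
        have h6 := (h.uniq (n := s) (d := Q - s * c + w * Q)
          (Y := s * yy P Q w D 1 - P * e + P) (by linarith) (by linarith)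
          (by linear_combination hPc)).1
        rw [h6] at ns
        linarith
      · exact (h.uniq h5 (by linarith) hPc).1
    have hyls : yy P Q w D s = s * yy P Q w D 1 - P * e :=
      (h.uniq (by rw [← hdls]; exact h.dl0 s) (by rw [← hdls]; exact h.dl1 s) hPc).2
    have hdls0 : s ≤ dl Q w D s := by
      obtain ⟨f, hf⟩ := h.dlmod s
      have h5 := h.dlpos (n := s) (by linarith) (by linarith)
      have hf0 : 0 ≤ f := by
        by_contra hcon
        push Not at hcon
        have h6 : w * f ≤ w * (-1) := mul_le_mul_of_nonneg_left (by linarith) h.w0.le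
        linarith
      have h6 := mul_nonneg h.w0.le hf0
      linarith
    have hdls1 : dl Q w D (s - 1) = Q * ta w 1 t (s - 1) - (s - 1) * c := by
      have h6 : ta w 1 t (s - 1) = w + 1 - ta w 1 t 1 := by linarith
      rw [h6]
      linear_combination -1 * e2 + hdls + hc
    have hwc : 0 < w * c := by positivity
    obtain ⟨q0, r0, hq0, hr0, hr1, hqr⟩ : ∃ q0 r0 : ℤ, 0 ≤ q0 ∧ 0 ≤ r0 ∧ r0 < w * c ∧
        Q - s * c = w * c * q0 + r0 :=
      ⟨(Q - s * c) / (w * c), (Q - s * c) % (w * c),
        Int.ediv_nonneg (by rw [← hdls]; exact h.dl0 s) hwc.le, Int.emod_nonneg _ hwc.ne',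
        Int.emod_lt_of_pos _ hwc, (Int.mul_ediv_add_emod _ _).symm⟩
    have hqw := mul_nonneg hq0 h.w0.le
    have hu1 : (q0 * w + s) * c ≤ Q := by linarith
    have hu2 : w * (q0 * w + s) ≤ Q := by
      have h5 : w * (q0 * w + s) ≤ c * (q0 * w + s) :=
        mul_le_mul_of_nonneg_right hcw (by linarith)
      linarith
    have hqw1 : q0 * 1 ≤ q0 * w := mul_le_mul_of_nonneg_left (by linarith) hq0
    have hjQ : (q0 + 1) * w ≤ Q := by
      have h5 : w * (q0 + 1) ≤ w * (q0 * w + s) :=
        mul_le_mul_of_nonneg_left (by linarith) h.w0.le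
      linarith
    have hval : ((q0 + 1) * w + s) * c = Q - r0 + w * c := by linear_combination -1 * hqr
    have h2c : 2 * c < Q := by
      have h5 : 2 * c ≤ s * c := mul_le_mul_of_nonneg_right hs hc0.le
      linarith
    have h2wc : w * (2 * c) < w * Q := mul_lt_mul_of_pos_left h2c h.w0
    have hj0 : 0 < (q0 + 1) * w + s := by positivity
    have hPj : P * (w * Q + Q - ((q0 + 1) * w + s) * c) = ((q0 + 1) * w + s) +
        w * Q * (P + yy P Q w D s - (q0 + 1) * P * ta w 1 t 1 + (q0 + 1) * w * yy P Q w D 1) := by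
      rw [hyls]
      have h7 : P * c = P * Q * ta w 1 t 1 - 1 - w * Q * yy P Q w D 1 := by
        rw [← hc]
        linear_combination -1 * sp
      linear_combination hPc - (q0 + 1) * w * h7
    have ej := h.uniq (n := (q0 + 1) * w + s) (d := w * Q + Q - ((q0 + 1) * w + s) * c)
      (by rw [hval]; linarith) (by rw [hval]; linarith) hPj
    have yj := h.yylt hj0
    have yj' := h.yypos (n := (q0 + 1) * w + s) hj0
    rw [ej.2] at yj
    refine fin_ab h hF hn hs hsw hsQ (j := q0 + 1) (by linarith) (by linarith) (by linarith)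
      hPj ?_ yj.le ?_ ?_ ?_
    · -- the cofactor is positive
      have h8 : 0 < w * Q * (P + yy P Q w D s - (q0 + 1) * P * ta w 1 t 1 +
          (q0 + 1) * w * yy P Q w D 1) := by
        have h9 : Q ≤ w * Q + Q - ((q0 + 1) * w + s) * c := by
          rw [hval]
          linarith
        have h10 : P * Q ≤ P * (w * Q + Q - ((q0 + 1) * w + s) * c) :=
          mul_le_mul_of_nonneg_left h9 hP.le
        have h11 : (q0 + 1) * w + s < P * Q := by
          have h12 : 2 * Q ≤ P * Q := mul_le_mul_of_nonneg_right (by linarith) hQ.le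
          linarith
        linarith
      have := (mul_pos_iff_of_pos_left hwQ0).1 h8
      linarith
    · rw [← ej.1]
      have := dvd_add (h.dlmod ((q0 + 1) * w + s)) (Dvd.intro_left (q0 + 1) rfl : w ∣ (q0 + 1) * w)
      rwa [show dl Q w D ((q0 + 1) * w + s) - 1 * ((q0 + 1) * w + s) + (q0 + 1) * w =
        dl Q w D ((q0 + 1) * w + s) - s by ring] at this
    · rw [hval]
      linarith
    · rw [hval, hdls1]
      have h6 : ta w 1 t (s - 1) = w + 1 - ta w 1 t 1 := by linarith
      rw [h6]
      -- `1 + (w + 1 - s) c < (ta 1 - 1) Q`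
      have h7 : s * (1 + (w + 1 - s) * c) < s * ((ta w 1 t 1 - 1) * Q) := by
        have h8 : s * c = Q - dl Q w D s := by linarith
        have h9 : s * ((ta w 1 t 1 - 1) * Q) = (1 + w * e - s) * Q := by
          linear_combination Q * he
        have h10 : s * (1 + (w + 1 - s) * c) = s + (w + 1 - s) * (Q - dl Q w D s) := by
          rw [← h8]; ring
        rw [h9, h10]
        have h11 : 1 * (w * Q) ≤ e * (w * Q) := mul_le_mul_of_nonneg_right he1 hwQ0.le
        have h12 : 2 * s ≤ (w + 1 - s) * dl Q w D s :=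
          mul_le_mul (by linarith) hdls0 (by linarith) (by linarith)
        linarith
      have h8 := lt_of_mul_lt_mul_left h7 (by linarith)
      linarith

end Pool.Agent.Helper73.E
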