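import Pool.Agent.Helper73.E.Const

set_option autoImplicit false

/-!
# The evaluation points
-/

namespace Pool.Agent.Helper73.E

open Finset

variable {P Q w sg D t : ℤ} {k : ℕ}

theorem mid3 {a b c d u w e : ℤ} (h1 : a < c) (h2 : a < d) (h3 : b < c) (h4 : b < d)
    (h5 : w ∣ a - e) (h6 : w ∣ b - e) (h7 : a ≤ u) (h8 : b ≤ u) :
    ∃ x, a ≤ x ∧ b ≤ x ∧ x < c ∧ x < d ∧ w ∣ x - e ∧ x ≤ u := by
  rcases le_total a b with h | h
  · exact ⟨b, h, le_rfl, h3, h4, h6, h8⟩
  · exact ⟨a, le_rfl, h, h1, h2, h5, h7⟩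

theorem nonneg_of_S (h : Ch P Q w sg D t k) {M : ℤ} (hS : S P Q w M = 1) : 0 ≤ M := by
  by_contra hcon
  push Not at hcon
  rw [S_neg h.P0 h.Q0 h.w0 hcon] at hS
  norm_num at hS

/-- all members, `P ≡ 1` -/
theorem caseA {pm : ℤ} {J : ℕ} (h : Ch P Q w 1 D t k) (hF : Fl P Q w pm J) (hpm : w ≤ pm)
    (hmem : ∀ n, 0 < n → n < w → Q * ta w 1 t n < dl Q w D n) : False := by
  have hQ := h.Q0
  have hP := h.P0
  have hw2 := h.w2
  have hwQ := h.wQ
  have hk := h.hk
  have hk1 : (1 : ℤ) ≤ k := by exact_mod_cast h.k1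
  have m1 := hmem 1 one_pos (by linarith)
  have m2 := hmem (w - 1) (by linarith) (by linarith)
  have e1 := h.ta_sub (n := 1) one_pos (by linarith)
  have t1 := h.tapos (n := 1) one_pos (by linarith)
  have t2 := h.ta1 1
  have hsum : w * Q ≤ dl Q w D (w - 1) + dl Q w D 1 := by
    rw [e1] at m2
    nlinarith
  obtain ⟨e2, e3⟩ := h.add_ge hsum
  rw [sub_add_cancel] at e2 e3
  have d1 := h.dl1 1
  have d2 := h.dl1 w
  have yw := h.yypos h.w0 h.wQ h.wP
  have yw' := h.yylt h.w0
  -- all cofactors are large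
  have hY : ∀ n, 0 < n → n < w → (k : ℤ) + 1 ≤ yy P Q w D n := by
    intro n h0 h1
    have h2 := h.mem_yy h1 (hmem n h0 h1)
    have h3 := h.tapos h0 h1
    have h4 : w * (k : ℤ) < w * yy P Q w D n := by nlinarith
    have := lt_of_mul_lt_mul_left h4 h.w0.le
    linarith
  have hW : Win P Q w D k (min (yy P Q w D w) k) := by
    refine ⟨le_min yw hk1, min_le_right _ _, ?_⟩
    intro n h0 h1
    have h2 := hY n h0 h1
    refine ⟨(min_le_right _ _).trans (by linarith), ?_⟩
    rcases le_total (yy P Q w D w) k with h4 | h4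
    · rw [min_eq_left h4]
      have h5 := hY (w - n) (by linarith) (by linarith)
      rcases lt_or_ge (dl Q w D n + dl Q w D (w - n)) (w * Q) with h6 | h6
      · have h7 := (h.add_lt h6).2
        rw [add_sub_cancel] at h7
        linarith
      · have h7 := (h.add_ge h6).2
        rw [add_sub_cancel] at h7
        linarith
    · rw [min_eq_right h4]
      linarith [h.yylt h0]
  obtain ⟨om, hom⟩ : ∃ om, min (yy P Q w D w) k = om := ⟨_, rfl⟩
  rw [hom] at hW
  have hom1 : om ≤ yy P Q w D w := by rw [← hom]; exact min_le_left _ _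
  have hW1 := hW.1
  obtain ⟨x, hx1, hx2, hx3, hx4, hx5⟩ := mid (a := dl Q w D w) (b := 1 + ta w 1 t (w - 1) * Q)
    (c := w * Q) (d := 1 + dl Q w D (w - 1)) (w := w) (e := 0) d2 (by linarith)
    (by rw [e1]; nlinarith) (by linarith) (by
      have := dvd_add (h.dlmod w) (dvd_refl w)
      rwa [show dl Q w D w - 1 * w + w = dl Q w D w - 0 by ring] at this) (by
      have := dvd_add (h.tamod (w - 1)) (dvd_refl w)
      rwa [show Q * ta w 1 t (w - 1) - 1 * (w - 1) + w = 1 + ta w 1 t (w - 1) * Q - 0 by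
        ring] at this)
  rw [sub_zero] at hx5
  have c2 : w ∣ x - 1 - ta w 1 t (w - 1) * Q := by
    have := dvd_sub (dvd_sub hx5 (dvd_refl w)) (h.tamod (w - 1))
    rwa [show x - w - (Q * ta w 1 t (w - 1) - 1 * (w - 1)) = x - 1 - ta w 1 t (w - 1) * Q by
      ring] at this
  have c3 : w ∣ x - dl Q w D w := by
    have := dvd_sub (dvd_sub hx5 (dvd_refl w)) (h.dlmod w)
    rwa [show x - w - (dl Q w D w - 1 * w) = x - dl Q w D w by ring] at this
  have c4 : w ∣ x - (1 + dl Q w D (w - 1)) := by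
    have := dvd_sub (dvd_sub hx5 (dvd_refl w)) (h.dlmod (w - 1))
    rwa [show x - w - (dl Q w D (w - 1) - 1 * (w - 1)) = x - (1 + dl Q w D (w - 1)) by
      ring] at this
  have hev := eval0P h hW (m := -om * (w * Q) + P * x) rfl hx3.le hF.hJ (a := w)
    (b := ta w 1 t (w - 1)) (by linarith) le_rfl (by rw [e1]; linarith) (by rw [e1]; linarith)
    (dvd_sub hx5 (Dvd.intro Q rfl)) c2
  have s1 := thr0 h (m := -om * (w * Q) + P * x) (b0 := -om) (z0 := 1 * w) (y := 0)
    (d := dl Q w D w) (Y := yy P Q w D w) rfl le_rfl h.w0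
    (by linear_combination h.spec w) c3 (by linarith) (by linarith)
  have s2 := thr0 h (m := -om * (w * Q) + P * x) (b0 := -om) (z0 := P) (y := w - 1)
    (d := 1 + dl Q w D (w - 1)) (Y := yy P Q w D (w - 1)) rfl (by linarith) (by linarith)
    (by linear_combination h.spec (w - 1)) c4
    (by linarith [(hW.2.2 (w - 1) (by linarith) (by linarith)).1])
    (by linarith [h.yylt (n := w - 1) (by linarith)])
  rw [th_pos (show 0 ≤ x - dl Q w D w by linarith)] at s1
  rw [th_neg (show x - (1 + dl Q w D (w - 1)) < 0 by linarith)] at s2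
  rw [th_neg (show x - w * Q < 0 by linarith),
    th_pos (show 0 ≤ x - 1 - ta w 1 t (w - 1) * Q by linarith), s2] at hev
  have hm1 : -om * (w * Q) + P * x < w * (P * Q) := by
    have : 0 < om * (w * Q) := mul_pos (by linarith) h.wQ0
    nlinarith
  have hb := hF.al _ 1 (by linarith [nonneg_of_S h s1]) hm1 (by norm_num)
    (by have := Int.emod_lt_of_pos (-om * (w * Q) + P * x) h.w0; linarith)
  rw [hev, s1] at hb
  ring_nf at hb
  norm_num at hb

/-- the first window, for nonmembers -/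
theorem win_one (h : Ch P Q w sg D t k)
    (hn : ∀ n, 0 < n → n < w → dl Q w D n < Q * ta w sg t n) : Win P Q w D k 1 := by
  have hk := h.hk
  have hP := h.P0
  have hk1 : (1 : ℤ) ≤ k := by exact_mod_cast h.k1
  refine ⟨le_rfl, hk1, ?_⟩
  intro n h0 h1
  refine ⟨h.yypos h0 (h1.trans h.wQ) (h1.trans h.wP), ?_⟩
  have h2 := h.nmem_yy h0 (hn n h0 h1)
  have h3 := h.ta1 n
  have h4 : w * yy P Q w D n < w * (P - k + 1) := by
    rcases h.sg1 with hs | hs <;> rw [hs] at hk <;> nlinarith [h.w2]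
  have := lt_of_mul_lt_mul_left h4 h.w0.le
  linarith

theorem ta_s (h : Ch P Q w 1 D t k) {s : ℤ} (hsQ : w ∣ Q - s) : ta w 1 t s = 1 :=
  h.tauniq (by norm_num) (by linarith [h.w2]) (by simpa using hsQ)

/-- all nonmembers, `P ≡ 1`, general evaluation -/
theorem fin_ab {pm : ℤ} {J : ℕ} (h : Ch P Q w 1 D t k) (hF : Fl P Q w pm J)
    (hn : ∀ n, 0 < n → n < w → dl Q w D n < Q * ta w 1 t n) {s : ℤ} (hs : 2 ≤ s) (hsw : s < w)
    (hsQ : w ∣ Q - s) {j d Y : ℤ} (hj0 : 0 ≤ j) (hjP : j * w ≤ P)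
    (hjm : w * j ≤ pm) (hd : P * d = j * w + s + w * Q * Y) (hY0 : 1 ≤ Y) (hY1 : Y ≤ P)
    (hdw : w ∣ d - s) (hd1 : Q < d) (hd2 : 1 + dl Q w D (s - 1) < d) : False := by
  have hQ := h.Q0
  have hP := h.P0
  have hw2 := h.w2
  have hwQ := h.wQ
  have hk := h.hk
  have hW := win_one h hn
  have n1 := hn (s - 1) (by linarith) (by linarith)
  have t1 := h.tapos (n := s - 1) (by linarith) (by linarith)
  have t2 := h.ta1 (s - 1)
  obtain ⟨x, hx1, hx2, hx3, hx4, hx5⟩ := mid (a := 1 + dl Q w D (s - 1)) (b := Q)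
    (c := d) (d := 1 + ta w 1 t (s - 1) * Q) (w := w) (e := s) hd2 (by linarith)
    hd1 (by nlinarith) (by
      have := h.dlmod (s - 1)
      rwa [show dl Q w D (s - 1) - 1 * (s - 1) = 1 + dl Q w D (s - 1) - s by ring] at this) hsQ
  have hxQ : x ≤ w * Q := by nlinarith
  have c1 : w ∣ x - 1 * Q := by
    have := dvd_sub hx5 hsQ
    rwa [show x - s - (Q - s) = x - 1 * Q by ring] at this
  have c2 : w ∣ x - 1 - ta w 1 t (s - 1) * Q := by
    have := dvd_sub hx5 (h.tamod (s - 1))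
    rwa [show x - s - (Q * ta w 1 t (s - 1) - 1 * (s - 1)) = x - 1 - ta w 1 t (s - 1) * Q by
      ring] at this
  have c3 : w ∣ x - d := by
    have := dvd_sub hx5 hdw
    rwa [show x - s - (d - s) = x - d by ring] at this
  have c4 : w ∣ x - (1 + dl Q w D (s - 1)) := by
    have := dvd_sub hx5 (h.dlmod (s - 1))
    rwa [show x - s - (dl Q w D (s - 1) - 1 * (s - 1)) = x - (1 + dl Q w D (s - 1)) by
      ring] at this
  have hev := eval0P h hW (m := -1 * (w * Q) + P * x) rfl hxQ hF.hJ (a := 1)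
    (b := ta w 1 t (s - 1)) le_rfl (by linarith) t1 t2.le c1 c2
  have s1 := thr0 h (m := -1 * (w * Q) + P * x) (b0 := -1) (z0 := j * w) (y := s)
    (d := d) (Y := Y) rfl (by linarith) hsw hd c3 (by linarith) (by linarith)
  have s2 := thr0 h (m := -1 * (w * Q) + P * x) (b0 := -1) (z0 := P) (y := s - 1)
    (d := 1 + dl Q w D (s - 1)) (Y := yy P Q w D (s - 1)) rfl (by linarith) (by linarith)
    (by linear_combination h.spec (s - 1)) c4
    (by linarith [(hW.2.2 (s - 1) (by linarith) (by linarith)).1])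
    (by linarith [h.yylt (n := s - 1) (by linarith)])
  rw [th_neg (show x - d < 0 by linarith)] at s1
  rw [th_pos (show 0 ≤ x - (1 + dl Q w D (s - 1)) by linarith)] at s2
  rw [th_pos (show 0 ≤ x - 1 * Q by linarith),
    th_neg (show x - 1 - ta w 1 t (s - 1) * Q < 0 by linarith), s2] at hev
  have hm0 := nonneg_of_S h s2
  have hm1 : -1 * (w * Q) + P * x < w * (P * Q) := by
    have := h.wQ0
    nlinarith
  have hb := hF.al _ j (by linarith) hm1 hj0
    (by have := Int.emod_lt_of_pos (-1 * (w * Q) + P * x) h.w0; linarith)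
  rw [hev, s1] at hb
  ring_nf at hb
  norm_num at hb

/-- all nonmembers, `P ≡ 1`, `P` the smaller one -/
theorem caseB {J : ℕ} (h : Ch P Q w 1 D t k) (hF : Fl P Q w P J)
    (hn : ∀ n, 0 < n → n < w → dl Q w D n < Q * ta w 1 t n) {s : ℤ} (hs : 2 ≤ s) (hsw : s < w)
    (hsQ : w ∣ Q - s) : False := by
  have hQ := h.Q0
  have hP := h.P0
  have hw2 := h.w2
  have hk := h.hk
  have hk1 : (1 : ℤ) ≤ k := by exact_mod_cast h.k1
  have n1 := hn (s - 1) (by linarith) (by linarith)
  have n2 := hn (w - (s - 1)) (by linarith) (by linarith)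
  have t1 := h.tapos (n := s - 1) (by linarith) (by linarith)
  have t3 := h.ta_sub (n := s - 1) (by linarith) (by linarith)
  rw [t3] at n2
  have y1 := h.yypos (n := w - (s - 1)) (by linarith) (by linarith [h.wQ]) (by linarith [h.wP])
  have y2 := h.yylt (n := w - (s - 1)) (by linarith)
  refine fin_ab h hF hn hs hsw hsQ (j := k - 1) (d := 1 + w * Q - dl Q w D (w - (s - 1)))
    (Y := P - yy P Q w D (w - (s - 1))) (by linarith) (by nlinarith) (by nlinarith)
    ?_ (by linarith) (by linarith) ?_ ?_ ?_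
  · linear_combination -1 * h.spec (w - (s - 1)) + hk
  · have := dvd_sub (dvd_sub (Dvd.intro Q rfl : w ∣ w * Q) (dvd_refl w)) (h.dlmod (w - (s - 1)))
    rwa [show w * Q - w - (dl Q w D (w - (s - 1)) - 1 * (w - (s - 1))) =
      1 + w * Q - dl Q w D (w - (s - 1)) - s by ring] at this
  · nlinarith
  · nlinarith

end Pool.Agent.Helper73.E
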