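import Pool.Agent.Helper73.E.Base

set_option autoImplicit false

/-!
# The chain formulas for `P ≡ ± 1` modulo `w`
-/

namespace Pool.Agent.Helper73.E

open Finset

/-- one chain step -/
noncomputable def uu (P Q w M : ℤ) : ℤ := S P Q w M - S P Q w (M - w * Q)

theorem uu_rep {P Q w r z : ℤ} (hP : 0 < P) (hQ : 0 < Q) (hw : 0 < w) (hcop : IsCoprime P Q)
    (hr : 0 ≤ r) (hrw : r < w) (hz : z < w * Q) (hwP : w ≤ P) :
    uu P Q w (r + P * z) = if w ∣ z ∧ 0 ≤ z then 1 else 0 := by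
  -- write `r + P z = y + w (Q a + P c)`
  obtain ⟨y, n, hy0, hyw, hyn⟩ : ∃ y n : ℤ, 0 ≤ y ∧ y < w ∧ r + P * z = w * n + y :=
    ⟨(r + P * z) % w, (r + P * z) / w, Int.emod_nonneg _ hw.ne', Int.emod_lt_of_pos _ hw, by
      have := Int.emod_add_mul_ediv (r + P * z) w
      linarith⟩
  obtain ⟨a, c, ha0, haP, hac⟩ : ∃ a c : ℤ, 0 ≤ a ∧ a < P ∧ n = Q * a + P * c := by
    obtain ⟨u, v, huv⟩ := hcop
    refine ⟨(n * v) % P, n * u + Q * ((n * v) / P), Int.emod_nonneg _ hP.ne',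
      Int.emod_lt_of_pos _ hP, ?_⟩
    have h1 := Int.emod_add_mul_ediv (n * v) P
    have h2 : Q * (n * v % P) + P * (n * u + Q * (n * v / P)) =
        Q * (n * v % P + P * (n * v / P)) + P * (n * u) := by ring
    rw [h2, h1]
    linear_combination -n * huv
  have hS1 : S P Q w (r + P * z) = th c := by
    rw [hyn, S_block hw hy0 hyw, hac, g_rep hP hQ hcop ha0 haP]
  have hS2 : S P Q w (r + P * z - w * Q) = g P Q (n - Q) := by
    rw [hyn, show w * n + y - w * Q = w * (n - Q) + y by ring, S_block hw hy0 hyw]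
  unfold uu
  rw [hS1, hS2]
  rcases eq_or_lt_of_le ha0 with h | h
  · -- `a = 0`
    subst h
    have e1 : n - Q = Q * (P - 1) + P * (c - Q) := by rw [hac]; ring
    rw [e1, g_rep hP hQ hcop (by linarith) (by linarith)]
    -- `r + P z = w P c + y`
    have e2 : r + P * z = w * (P * c) + y := by rw [hyn, hac]; ring
    have e3 : P ∣ r - y := ⟨w * c - z, by linarith⟩
    have e4 : r - y = 0 := Int.eq_zero_of_abs_lt_dvd e3 (by rw [abs_lt]; constructor <;> linarith)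
    have e5 : P * z = P * (w * c) := by linarith
    have e6 : z = w * c := mul_left_cancel₀ hP.ne' e5
    have hcQ : c < Q := by
      rw [e6] at hz
      exact lt_of_mul_lt_mul_left hz hw.le
    rw [th_neg (show c - Q < 0 by linarith), sub_zero]
    unfold th
    by_cases hc : 0 ≤ c
    · rw [if_pos hc, if_pos ⟨⟨c, e6⟩, by rw [e6]; positivity⟩]
    · rw [if_neg hc, if_neg]
      rintro ⟨_, h1⟩
      rw [e6] at h1
      exact hc (nonneg_of_mul_nonneg_right h1 hw)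
  · have e1 : n - Q = Q * (a - 1) + P * c := by rw [hac]; ring
    rw [e1, g_rep hP hQ hcop (by linarith) (by linarith), sub_self, if_neg]
    rintro ⟨⟨c', hc'⟩, -⟩
    have e2 : r + P * (w * c') = w * n + y := by rw [← hc']; exact hyn
    have e3 : w ∣ r - y := ⟨n - P * c', by linarith⟩
    have e4 : r - y = 0 := Int.eq_zero_of_abs_lt_dvd e3 (by rw [abs_lt]; constructor <;> linarith)
    have e5 : w * (P * c') = w * n := by linarith
    have e6 : P * c' = n := mul_left_cancel₀ hw.ne' e5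
    have e7 : P ∣ a * Q := ⟨c' - c, by linarith⟩
    have e8 := Int.le_of_dvd h (hcop.dvd_of_dvd_mul_right e7)
    linarith

/-- the difference of two chain steps -/
noncomputable def hh (P Q w M : ℤ) : ℤ := uu P Q w M - uu P Q w (M - P)

/-- the chain function -/
noncomputable def ff (P Q w : ℤ) (J : ℕ) (M : ℤ) : ℤ := ∑ j ∈ range J, hh P Q w (M - j * (P * Q))

theorem uu_zero {P Q w M : ℤ} (hP : 0 < P) (hQ : 0 < Q) (hw : 0 < w) (hcop : IsCoprime P Q)
    (hwP : w ≤ P) (hM : w ≤ M % P) : uu P Q w M = 0 := by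
  obtain ⟨y, n, hy0, hyw, hyn⟩ : ∃ y n : ℤ, 0 ≤ y ∧ y < w ∧ M = w * n + y :=
    ⟨M % w, M / w, Int.emod_nonneg _ hw.ne', Int.emod_lt_of_pos _ hw, by
      have := Int.emod_add_mul_ediv M w
      linarith⟩
  obtain ⟨a, c, ha0, haP, hac⟩ : ∃ a c : ℤ, 0 ≤ a ∧ a < P ∧ n = Q * a + P * c := by
    obtain ⟨u, v, huv⟩ := hcop
    refine ⟨(n * v) % P, n * u + Q * ((n * v) / P), Int.emod_nonneg _ hP.ne',
      Int.emod_lt_of_pos _ hP, ?_⟩
    have h1 := Int.emod_add_mul_ediv (n * v) P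
    have h2 : Q * (n * v % P) + P * (n * u + Q * (n * v / P)) =
        Q * (n * v % P + P * (n * v / P)) + P * (n * u) := by ring
    rw [h2, h1]
    linear_combination -n * huv
  have hS1 : S P Q w M = th c := by
    rw [hyn, S_block hw hy0 hyw, hac, g_rep hP hQ hcop ha0 haP]
  have hS2 : S P Q w (M - w * Q) = g P Q (n - Q) := by
    rw [hyn, show w * n + y - w * Q = w * (n - Q) + y by ring, S_block hw hy0 hyw]
  unfold uu
  rw [hS1, hS2]
  rcases eq_or_lt_of_le ha0 with h | h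
  · exfalso
    subst h
    have e2 : M = y + P * (w * c) := by rw [hyn, hac]; ring
    rw [e2, Int.add_mul_emod_self_left, Int.emod_eq_of_lt hy0 (by linarith)] at hM
    linarith
  · have e1 : n - Q = Q * (a - 1) + P * c := by rw [hac]; ring
    rw [e1, g_rep hP hQ hcop (by linarith) (by linarith), sub_self]

theorem ff_zero {P Q w M : ℤ} {J : ℕ} (hP : 0 < P) (hQ : 0 < Q) (hw : 0 < w)
    (hcop : IsCoprime P Q) (hwP : w ≤ P) (hM : w ≤ M % P) : ff P Q w J M = 0 := by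
  unfold ff
  apply sum_eq_zero
  intro j _
  unfold hh
  rw [uu_zero hP hQ hw hcop hwP, uu_zero hP hQ hw hcop hwP, sub_self]
  · rw [show M - j * (P * Q) - P = M + P * (-(j * Q) - 1) by ring, Int.add_mul_emod_self_left]
    exact hM
  · rw [show M - j * (P * Q) = M + P * (-(j * Q)) by ring, Int.add_mul_emod_self_left]
    exact hM

theorem uu_sum {P Q w r z : ℤ} {J : ℕ} (hP : 0 < P) (hQ : 0 < Q) (hw : 0 < w)
    (hcop : IsCoprime P Q) (hr : 0 ≤ r) (hrw : r < w) (hz : z < w * Q)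
    (hcQ : IsCoprime w Q) (hwP : w ≤ P) (hJ : w ≤ J) {jU : ℤ} (h0 : 0 ≤ jU) (h1 : jU < w)
    (hd : w ∣ z - jU * Q) :
    ∑ j ∈ range J, uu P Q w (r + P * (z - j * Q)) = th (z - jU * Q) := by
  obtain ⟨n, rfl⟩ := Int.eq_ofNat_of_zero_le h0
  have hnJ : n < J := by
    have : (n : ℤ) < J := lt_of_lt_of_le h1 hJ
    exact_mod_cast this
  rw [sum_eq_single_of_mem n (mem_range.2 hnJ)]
  · rw [uu_rep hP hQ hw hcop hr hrw (by nlinarith [mul_nonneg h0 hQ.le]) hwP]
    unfold th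
    by_cases h : 0 ≤ z - (n : ℤ) * Q
    · rw [if_pos h, if_pos ⟨hd, h⟩]
    · rw [if_neg h, if_neg (fun h' => h h'.2)]
  · intro j hj hjn
    have hj0 : (0 : ℤ) ≤ j := Nat.cast_nonneg j
    rw [uu_rep hP hQ hw hcop hr hrw (by nlinarith [mul_nonneg hj0 hQ.le]) hwP, if_neg]
    rintro ⟨h2, h3⟩
    apply hjn
    have h4 : (j : ℤ) < w := by
      by_contra hcon
      push Not at hcon
      nlinarith
    have h5 : w ∣ ((j : ℤ) - n) * Q := by
      have := dvd_sub hd h2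
      rwa [show z - (n : ℤ) * Q - (z - j * Q) = ((j : ℤ) - n) * Q by ring] at this
    have h6 := Int.eq_zero_of_abs_lt_dvd (hcQ.dvd_of_dvd_mul_right h5)
      (by rw [abs_lt]; constructor <;> linarith)
    have : (j : ℤ) = n := by linarith
    exact_mod_cast this

theorem ff_one {P Q w r z : ℤ} {J : ℕ} (hP : 0 < P) (hQ : 0 < Q) (hw : 0 < w)
    (hcop : IsCoprime P Q) (hr : 0 ≤ r) (hrw : r < w) (hz : z < w * Q)
    (hcQ : IsCoprime w Q) (hwP : w ≤ P) (hJ : w ≤ J) {jU jV : ℤ} (h0 : 0 ≤ jU) (h1 : jU < w)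
    (hd : w ∣ z - jU * Q) (h0' : 0 ≤ jV) (h1' : jV < w) (hd' : w ∣ z - 1 - jV * Q) :
    ff P Q w J (r + P * z) = th (z - jU * Q) - th (z - 1 - jV * Q) := by
  unfold ff hh
  rw [sum_sub_distrib]
  congr 1
  · rw [← uu_sum hP hQ hw hcop hr hrw hz hcQ hwP hJ h0 h1 hd]
    refine sum_congr rfl fun j _ => ?_
    congr 1
    ring
  · rw [← uu_sum hP hQ hw hcop hr hrw (by linarith) hcQ hwP hJ h0' h1' hd']
    refine sum_congr rfl fun j _ => ?_
    congr 1
    ring

/-- `A` in terms of differences -/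
theorem A_ee (P Q w : ℤ) (J : ℕ) (m : ℤ) : A P Q w J m =
    ∑ j ∈ range J, ((S P Q w (m - j * (P * Q)) - S P Q w (m - j * (P * Q) - P)) -
      (S P Q w (m - j * (P * Q) - Q) - S P Q w (m - j * (P * Q) - Q - P))) := by
  unfold A
  refine sum_congr rfl fun j _ => ?_
  rw [show m - j * (P * Q) - Q - P = m - j * (P * Q) - P - Q by ring]
  ring

theorem hh_eq (P Q w M : ℤ) : hh P Q w M = (S P Q w M - S P Q w (M - P)) -
    (S P Q w (M - w * Q) - S P Q w (M - w * Q - P)) := by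
  unfold hh uu
  rw [show M - P - w * Q = M - w * Q - P by ring]
  ring

theorem hh_sum (P Q w M : ℤ) (k : ℕ) : ∑ i ∈ range k, hh P Q w (M - i * (w * Q)) =
    (S P Q w M - S P Q w (M - P)) -
      (S P Q w (M - k * (w * Q)) - S P Q w (M - k * (w * Q) - P)) := by
  have h := sum_range_sub' (fun i : ℕ => S P Q w (M - i * (w * Q)) - S P Q w (M - i * (w * Q) - P)) k
  simp only [Nat.cast_zero, zero_mul, sub_zero] at h
  rw [← h]
  refine sum_congr rfl fun i _ => ?_
  rw [hh_eq]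
  push_cast
  rw [show M - ((i : ℤ) + 1) * (w * Q) = M - i * (w * Q) - w * Q by ring]

theorem chain_plus {P Q w : ℤ} {k J : ℕ} (hP : 0 < P) (hQ : 0 < Q) (hw : 0 < w) {m : ℤ}
    (hk : P = k * w + 1) (hJ : m < J * (P * Q)) :
    A P Q w J m = S P Q w m - S P Q w (m - P) -
      ∑ i ∈ range k, ff P Q w J (m - Q - i * (w * Q)) := by
  have h1 : ∑ i ∈ range k, ff P Q w J (m - Q - i * (w * Q)) =
      ∑ j ∈ range J, ((S P Q w (m - j * (P * Q) - Q) - S P Q w (m - j * (P * Q) - Q - P)) -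
        (S P Q w (m - ((j + 1 : ℕ) : ℤ) * (P * Q)) -
          S P Q w (m - ((j + 1 : ℕ) : ℤ) * (P * Q) - P))) := by
    unfold ff
    rw [sum_comm]
    refine sum_congr rfl fun j _ => ?_
    have h2 := hh_sum P Q w (m - j * (P * Q) - Q) k
    rw [show m - j * (P * Q) - Q - k * (w * Q) = m - ((j + 1 : ℕ) : ℤ) * (P * Q) by
      push_cast; rw [hk]; ring] at h2
    rw [← h2]
    refine sum_congr rfl fun i _ => ?_
    congr 1
    ring
  have h3 := sum_range_succ (fun j : ℕ => S P Q w (m - j * (P * Q)) - S P Q w (m - j * (P * Q) - P)) J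
  have h4 := sum_range_succ' (fun j : ℕ => S P Q w (m - j * (P * Q)) - S P Q w (m - j * (P * Q) - P)) J
  have h5 : S P Q w (m - J * (P * Q)) - S P Q w (m - J * (P * Q) - P) = 0 := by
    rw [S_neg hP hQ hw (by linarith), S_neg hP hQ hw (by linarith), sub_zero]
  rw [h3, h5] at h4
  simp only [Nat.cast_zero, zero_mul, sub_zero] at h4
  rw [A_ee, h1]
  simp only [sum_sub_distrib] at h4 ⊢
  linarith

theorem chain_minus {P Q w : ℤ} {k J : ℕ} (hP : 0 < P) (hQ : 0 < Q) (hw : 0 < w) {m : ℤ}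
    (hk : P = k * w - 1) (hJ : m < J * (P * Q)) :
    A P Q w J m = - S P Q w (m - Q) + S P Q w (m - P - Q) +
      ∑ i ∈ range k, ff P Q w J (m - i * (w * Q)) := by
  have h1 : ∑ i ∈ range k, ff P Q w J (m - i * (w * Q)) =
      ∑ j ∈ range J, ((S P Q w (m - j * (P * Q)) - S P Q w (m - j * (P * Q) - P)) -
        (S P Q w (m - Q - ((j + 1 : ℕ) : ℤ) * (P * Q)) -
          S P Q w (m - Q - ((j + 1 : ℕ) : ℤ) * (P * Q) - P))) := by
    unfold ff
    rw [sum_comm]
    refine sum_congr rfl fun j _ => ?_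
    have h2 := hh_sum P Q w (m - j * (P * Q)) k
    rw [show m - j * (P * Q) - k * (w * Q) = m - Q - ((j + 1 : ℕ) : ℤ) * (P * Q) by
      push_cast; rw [hk]; ring] at h2
    rw [← h2]
    refine sum_congr rfl fun i _ => ?_
    congr 1
    ring
  have h3 := sum_range_succ
    (fun j : ℕ => S P Q w (m - Q - j * (P * Q)) - S P Q w (m - Q - j * (P * Q) - P)) J
  have h4 := sum_range_succ'
    (fun j : ℕ => S P Q w (m - Q - j * (P * Q)) - S P Q w (m - Q - j * (P * Q) - P)) J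
  have h5 : S P Q w (m - Q - J * (P * Q)) - S P Q w (m - Q - J * (P * Q) - P) = 0 := by
    rw [S_neg hP hQ hw (by linarith), S_neg hP hQ hw (by linarith), sub_zero]
  rw [h3, h5] at h4
  simp only [Nat.cast_zero, zero_mul, sub_zero] at h4
  have h6 : ∑ j ∈ range J, (S P Q w (m - j * (P * Q) - Q) - S P Q w (m - j * (P * Q) - Q - P)) =
      ∑ j ∈ range J, (S P Q w (m - Q - j * (P * Q)) - S P Q w (m - Q - j * (P * Q) - P)) := by
    refine sum_congr rfl fun j _ => ?_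
    rw [show m - j * (P * Q) - Q = m - Q - j * (P * Q) by ring]
  rw [A_ee, h1, show m - P - Q = m - Q - P by ring]
  simp only [sum_sub_distrib] at h4 h6 ⊢
  linarith

/-- evaluation through a single window, `P ≡ 1` -/
theorem eval_plus {P Q w : ℤ} {k J : ℕ} (hP : 0 < P) (hQ : 0 < Q) (hw : 0 < w) {m : ℤ}
    (hcop : IsCoprime P Q) (hcQ : IsCoprime w Q) (hwP : w ≤ P)
    (hk : P = k * w + 1) (hJ : w ≤ J) (hm : m < w * (P * Q)) {i0 : ℕ} (hi0 : i0 < k) {r z : ℤ}
    (hr : 0 ≤ r) (hrw : r < w) (hM : m - Q - i0 * (w * Q) = r + P * z)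
    (hwin : ∀ i : ℕ, i < k → i ≠ i0 → w ≤ (m - Q - i * (w * Q)) % P)
    {jU jV : ℤ} (h0 : 0 ≤ jU) (h1 : jU < w)
    (hd : w ∣ z - jU * Q) (h0' : 0 ≤ jV) (h1' : jV < w) (hd' : w ∣ z - 1 - jV * Q) :
    A P Q w J m = S P Q w m - S P Q w (m - P) - (th (z - jU * Q) - th (z - 1 - jV * Q)) := by
  have hPQ : 0 < P * Q := by positivity
  have hJ' : m < J * (P * Q) := lt_of_lt_of_le hm (mul_le_mul_of_nonneg_right hJ hPQ.le)
  rw [chain_plus hP hQ hw hk hJ', sum_eq_single_of_mem i0 (mem_range.2 hi0), hM,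
    ff_one hP hQ hw hcop hr hrw _ hcQ hwP hJ h0 h1 hd h0' h1' hd']
  · have h2 : P * z < P * (w * Q) := by
      have : 0 ≤ (i0 : ℤ) * (w * Q) := by positivity
      nlinarith
    exact lt_of_mul_lt_mul_left h2 hP.le
  · intro i hi hne
    exact ff_zero hP hQ hw hcop hwP (hwin i (mem_range.1 hi) hne)

/-- evaluation through a single window, `P ≡ -1` -/
theorem eval_minus {P Q w : ℤ} {k J : ℕ} (hP : 0 < P) (hQ : 0 < Q) (hw : 0 < w) {m : ℤ}
    (hcop : IsCoprime P Q) (hcQ : IsCoprime w Q) (hwP : w ≤ P)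
    (hk : P = k * w - 1) (hJ : w ≤ J) (hm : m < w * (P * Q)) {i0 : ℕ} (hi0 : i0 < k) {r z : ℤ}
    (hr : 0 ≤ r) (hrw : r < w) (hM : m - i0 * (w * Q) = r + P * z)
    (hwin : ∀ i : ℕ, i < k → i ≠ i0 → w ≤ (m - i * (w * Q)) % P)
    {jU jV : ℤ} (h0 : 0 ≤ jU) (h1 : jU < w)
    (hd : w ∣ z - jU * Q) (h0' : 0 ≤ jV) (h1' : jV < w) (hd' : w ∣ z - 1 - jV * Q) :
    A P Q w J m = - S P Q w (m - Q) + S P Q w (m - P - Q) +
      (th (z - jU * Q) - th (z - 1 - jV * Q)) := by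
  have hPQ : 0 < P * Q := by positivity
  have hJ' : m < J * (P * Q) := lt_of_lt_of_le hm (mul_le_mul_of_nonneg_right hJ hPQ.le)
  rw [chain_minus hP hQ hw hk hJ', sum_eq_single_of_mem i0 (mem_range.2 hi0), hM,
    ff_one hP hQ hw hcop hr hrw _ hcQ hwP hJ h0 h1 hd h0' h1' hd']
  · have h2 : P * z < P * (w * Q) := by
      have : 0 ≤ (i0 : ℤ) * (w * Q) := by positivity
      nlinarith
    exact lt_of_mul_lt_mul_left h2 hP.le
  · intro i hi hne
    exact ff_zero hP hQ hw hcop hwP (hwin i (mem_range.1 hi) hne)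

end Pool.Agent.Helper73.E
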