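import Pool.Agent.Helper73.E.Sign

set_option autoImplicit false

/-!
# Constancy of the sign
-/

namespace Pool.Agent.Helper73.E

open Finset

variable {P Q w sg D t : ℤ} {k : ℕ}

/-- a change from member to nonmember, `P ≡ -1` -/
theorem chgM1 {pm : ℤ} {J : ℕ} (h : Ch P Q w (-1) D t k) (hF : Fl P Q w pm J) {n : ℤ} (hn0 : 0 < n)
    (hn1 : n + 1 < w) (hm : Q * ta w (-1) t n < dl Q w D n)
    (hm' : dl Q w D (n + 1) < Q * ta w (-1) t (n + 1)) (hd : 1 + dl Q w D (n + 1) < dl Q w D n)
    (ht : ta w (-1) t n ≤ ta w (-1) t (n + 1)) : False := by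
  obtain ⟨om, hW⟩ := exists_win h
  have hQ := h.Q0
  have hP := h.P0
  have hw2 := h.w2
  obtain ⟨X, hx1, hx2, hx3, hx4, hx5⟩ := mid (a := Q * ta w (-1) t n) (b := 1 + dl Q w D (n + 1))
    (c := dl Q w D n) (d := 1 + Q * ta w (-1) t (n + 1)) (w := w) (e := -n) hm
    (by nlinarith [h.wQ]) hd (by linarith)
    (by simpa using h.tamod n) (by
      have := h.dlmod (n + 1)
      rwa [show dl Q w D (n + 1) - -1 * (n + 1) = 1 + dl Q w D (n + 1) - -n by ring] at this)
  obtain ⟨x, hx⟩ : ∃ x, X = x + Q := ⟨X - Q, by ring⟩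
  subst hx
  have t1 := h.tapos (n := n) hn0 (by linarith)
  have t2 := h.tapos (n := n + 1) (by linarith) hn1
  have t3 := h.ta1 n
  have t4 := h.ta1 (n + 1)
  have hxQ : x ≤ (w - 1) * Q := by
    have := h.dl1 n
    linarith
  have hx0 : 0 ≤ x := by nlinarith
  have c1 : w ∣ x - (ta w (-1) t n - 1) * Q := by
    have := dvd_sub hx5 (h.tamod n)
    rwa [show x + Q - -n - (Q * ta w (-1) t n - -1 * n) = x - (ta w (-1) t n - 1) * Q by
      ring] at this
  have c2 : w ∣ x - 1 - (ta w (-1) t (n + 1) - 1) * Q := by
    have := dvd_sub hx5 (h.tamod (n + 1))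
    rwa [show x + Q - -n - (Q * ta w (-1) t (n + 1) - -1 * (n + 1)) =
      x - 1 - (ta w (-1) t (n + 1) - 1) * Q by ring] at this
  have c3 : w ∣ x - (dl Q w D n - Q) := by
    have := dvd_sub hx5 (h.dlmod n)
    rwa [show x + Q - -n - (dl Q w D n - -1 * n) = x - (dl Q w D n - Q) by ring] at this
  have c4 : w ∣ x - (1 - Q + dl Q w D (n + 1)) := by
    have := dvd_sub hx5 (h.dlmod (n + 1))
    rwa [show x + Q - -n - (dl Q w D (n + 1) - -1 * (n + 1)) = x - (1 - Q + dl Q w D (n + 1)) by
      ring] at this
  have hev := eval0M h hW (m := (k - om) * (w * Q) + P * x) rfl hxQ hF.hJ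
    (a := ta w (-1) t n - 1) (b := ta w (-1) t (n + 1) - 1) (by linarith) (by linarith)
    (by linarith) (by linarith) c1 c2
  have hk := h.hk
  have s1 := thr0 h (m := (k - om) * (w * Q) + P * x) (b0 := k - om) (z0 := Q) (y := n)
    (d := dl Q w D n - Q) (Y := yy P Q w D n - k) rfl (by linarith) (by linarith)
    (by linear_combination h.spec n - Q * hk) c3 (by linarith [(hW.2.2 n hn0 (by linarith)).1])
    (by linarith [h.yylt hn0, hW.1])
  have s2 := thr0 h (m := (k - om) * (w * Q) + P * x) (b0 := k - om) (z0 := P + Q) (y := n + 1)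
    (d := 1 - Q + dl Q w D (n + 1)) (Y := yy P Q w D (n + 1) - k) rfl (by linarith) hn1
    (by linear_combination h.spec (n + 1) - Q * hk) c4
    (by linarith [(hW.2.2 (n + 1) (by linarith) hn1).1])
    (by linarith [h.yylt (n := n + 1) (by linarith), hW.1])
  rw [← sub_sub] at s2
  have hm0 : 0 ≤ (k - om) * (w * Q) + P * x := by
    have e1 : 0 ≤ (k - om) * (w * Q) := mul_nonneg (by linarith [hW.2.1]) h.wQ0.le
    nlinarith
  have hm1 : (k - om) * (w * Q) + P * x < w * (P * Q) := by
    have e1 : (k : ℤ) * (w * Q) = P * Q + Q := by linear_combination (-Q) * hk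
    have e3 : P * x ≤ P * ((w - 1) * Q) := mul_le_mul_of_nonneg_left hxQ h.P0.le
    have e4 : w * Q ≤ om * (w * Q) := by nlinarith [h.wQ0, hW.1]
    have e5 : Q < w * Q := by nlinarith [h.Q0]
    nlinarith
  have hb := hF.A1 _ hm0 hm1
  rw [hev, s1, s2, th_neg (show x - (dl Q w D n - Q) < 0 by linarith),
    th_pos (show 0 ≤ x - (1 - Q + dl Q w D (n + 1)) by linarith),
    th_pos (show 0 ≤ x - (ta w (-1) t n - 1) * Q by linarith),
    th_neg (show x - 1 - (ta w (-1) t (n + 1) - 1) * Q < 0 by linarith)] at hb
  norm_num at hb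

/-- a change from nonmember to member, `P ≡ -1` -/
theorem chgM2 {pm : ℤ} {J : ℕ} (h : Ch P Q w (-1) D t k) (hF : Fl P Q w pm J) {n : ℤ} (hn0 : 0 < n)
    (hn1 : n + 1 < w) (hm : dl Q w D n < Q * ta w (-1) t n)
    (hm' : Q * ta w (-1) t (n + 1) < dl Q w D (n + 1)) (hd : dl Q w D n ≤ dl Q w D (n + 1))
    (ht : ta w (-1) t (n + 1) < ta w (-1) t n) : False := by
  obtain ⟨om, hW⟩ := exists_win h
  have hQ := h.Q0
  have hP := h.P0
  have hw2 := h.w2
  obtain ⟨X, hx1, hx2, hx3, hx4, hx5⟩ := mid (a := dl Q w D n) (b := 1 + Q * ta w (-1) t (n + 1))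
    (c := Q * ta w (-1) t n) (d := 1 + dl Q w D (n + 1)) (w := w) (e := -n) hm
    (by linarith) (by nlinarith [h.wQ]) (by linarith)
    (by simpa using h.dlmod n) (by
      have := h.tamod (n + 1)
      rwa [show Q * ta w (-1) t (n + 1) - -1 * (n + 1) = 1 + Q * ta w (-1) t (n + 1) - -n by
        ring] at this)
  obtain ⟨x, hx⟩ : ∃ x, X = x + Q := ⟨X - Q, by ring⟩
  subst hx
  have t1 := h.tapos (n := n) hn0 (by linarith)
  have t2 := h.tapos (n := n + 1) (by linarith) hn1
  have t3 := h.ta1 n
  have t4 := h.ta1 (n + 1)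
  have hxQ : x ≤ (w - 1) * Q := by nlinarith
  have hx0 : 0 ≤ x := by nlinarith
  have c1 : w ∣ x - (ta w (-1) t n - 1) * Q := by
    have := dvd_sub hx5 (h.tamod n)
    rwa [show x + Q - -n - (Q * ta w (-1) t n - -1 * n) = x - (ta w (-1) t n - 1) * Q by
      ring] at this
  have c2 : w ∣ x - 1 - (ta w (-1) t (n + 1) - 1) * Q := by
    have := dvd_sub hx5 (h.tamod (n + 1))
    rwa [show x + Q - -n - (Q * ta w (-1) t (n + 1) - -1 * (n + 1)) =
      x - 1 - (ta w (-1) t (n + 1) - 1) * Q by ring] at this
  have c3 : w ∣ x - (dl Q w D n - Q) := by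
    have := dvd_sub hx5 (h.dlmod n)
    rwa [show x + Q - -n - (dl Q w D n - -1 * n) = x - (dl Q w D n - Q) by ring] at this
  have c4 : w ∣ x - (1 - Q + dl Q w D (n + 1)) := by
    have := dvd_sub hx5 (h.dlmod (n + 1))
    rwa [show x + Q - -n - (dl Q w D (n + 1) - -1 * (n + 1)) = x - (1 - Q + dl Q w D (n + 1)) by
      ring] at this
  have hev := eval0M h hW (m := (k - om) * (w * Q) + P * x) rfl hxQ hF.hJ
    (a := ta w (-1) t n - 1) (b := ta w (-1) t (n + 1) - 1) (by linarith) (by linarith)
    (by linarith) (by linarith) c1 c2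
  have hk := h.hk
  have s1 := thr0 h (m := (k - om) * (w * Q) + P * x) (b0 := k - om) (z0 := Q) (y := n)
    (d := dl Q w D n - Q) (Y := yy P Q w D n - k) rfl (by linarith) (by linarith)
    (by linear_combination h.spec n - Q * hk) c3 (by linarith [(hW.2.2 n hn0 (by linarith)).1])
    (by linarith [h.yylt hn0, hW.1])
  have s2 := thr0 h (m := (k - om) * (w * Q) + P * x) (b0 := k - om) (z0 := P + Q) (y := n + 1)
    (d := 1 - Q + dl Q w D (n + 1)) (Y := yy P Q w D (n + 1) - k) rfl (by linarith) hn1
    (by linear_combination h.spec (n + 1) - Q * hk) c4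
    (by linarith [(hW.2.2 (n + 1) (by linarith) hn1).1])
    (by linarith [h.yylt (n := n + 1) (by linarith), hW.1])
  rw [← sub_sub] at s2
  have hm0 : 0 ≤ (k - om) * (w * Q) + P * x := by
    have e1 : 0 ≤ (k - om) * (w * Q) := mul_nonneg (by linarith [hW.2.1]) h.wQ0.le
    nlinarith
  have hm1 : (k - om) * (w * Q) + P * x < w * (P * Q) := by
    have e1 : (k : ℤ) * (w * Q) = P * Q + Q := by linear_combination (-Q) * hk
    have e3 : P * x ≤ P * ((w - 1) * Q) := mul_le_mul_of_nonneg_left hxQ h.P0.le
    have e4 : w * Q ≤ om * (w * Q) := by nlinarith [h.wQ0, hW.1]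
    have e5 : Q < w * Q := by nlinarith [h.Q0]
    nlinarith
  have hb := hF.A1 _ hm0 hm1
  rw [hev, s1, s2, th_pos (show 0 ≤ x - (dl Q w D n - Q) by linarith),
    th_neg (show x - (1 - Q + dl Q w D (n + 1)) < 0 by linarith),
    th_neg (show x - (ta w (-1) t n - 1) * Q < 0 by linarith),
    th_pos (show 0 ≤ x - 1 - (ta w (-1) t (n + 1) - 1) * Q by linarith)] at hb
  norm_num at hb

/-- multiples when `dl 1 = 1` -/
theorem dl_one (h : Ch P Q w sg D t k) (h1 : dl Q w D 1 = 1) {n : ℤ} (hn0 : 0 ≤ n) (hn : n < w * Q) :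
    dl Q w D n = n := by
  have h2 := h.spec 1
  rw [h1] at h2
  exact (h.uniq (Y := n * yy P Q w D 1) hn0 hn (by linear_combination n * h2)).1

/-- multiples when `dl 1 = w Q - 1` -/
theorem dl_neg_one (h : Ch P Q w sg D t k) (h1 : dl Q w D 1 = w * Q - 1) {n : ℤ} (hn0 : 0 < n)
    (hn : n ≤ w * Q) : dl Q w D n = w * Q - n := by
  have h2 := h.spec 1
  rw [h1] at h2
  exact (h.uniq (Y := n * yy P Q w D 1 - (n - 1) * P) (by linarith) (by linarith)
    (by linear_combination n * h2)).1

theorem const {pm : ℤ} {J : ℕ} (h : Ch P Q w sg D t k) (hF : Fl P Q w pm J) :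
    (∀ n, 0 < n → n < w → Q * ta w sg t n < dl Q w D n) ∨
      (∀ n, 0 < n → n < w → dl Q w D n < Q * ta w sg t n) := by
  have hw2 := h.w2
  have hQ := h.Q0
  have hne := h.dlne (n := 1) one_pos (by linarith [h.wQ]) (ta w sg t 1)
  rcases lt_or_gt_of_ne hne with h1 | h1
  · -- nonmembers
    right
    have key : ∀ n : ℕ, 0 < n → (n : ℤ) < w → dl Q w D n < Q * ta w sg t n := by
      intro n
      induction n with
      | zero => intro h0; omega
      | succ n ih =>
        intro _ hn
        rcases Nat.eq_zero_or_pos n with h0 | h0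
        · subst h0
          simpa using h1
        · push_cast at hn ⊢
          have h2 := ih h0 (by linarith)
          have h0' : (0 : ℤ) < n := by exact_mod_cast h0
          by_contra hcon
          push Not at hcon
          have hm' : Q * ta w sg t (n + 1) < dl Q w D (n + 1) :=
            lt_of_le_of_ne hcon (h.dlne (by linarith) (by linarith [h.wQ]) _).symm
          rcases lt_or_ge (ta w sg t n + ta w sg t 1) w with ht | ht
          · have e1 := h.ta_add_lt ht
            rcases lt_or_ge (dl Q w D n + dl Q w D 1) (w * Q) with hd | hd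
            · have e2 := (h.add_lt hd).1
              nlinarith
            · have e2 := (h.add_ge hd).1
              nlinarith [h.wQ0]
          · have e1 := h.ta_add_ge ht
            rcases lt_or_ge (dl Q w D n + dl Q w D 1) (w * Q) with hd | hd
            · have e2 := (h.add_lt hd).1
              have d1 := h.dlpos (n := 1) one_pos (by linarith [h.wQ])
              have t1 := h.ta1 1
              rcases h.sg1 with hs | hs
              · subst hs
                rcases eq_or_lt_of_le d1 with d2 | d2
                · have e3 := dl_one h d2.symm (n := n + 1) (by linarith)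
                    (by nlinarith [h.wQ])
                  have t2 := h.tapos (n := n + 1) (by linarith) hn
                  nlinarith [h.wQ]
                · exact chgP2 h hF h0' hn h2 hm' (by linarith) (by linarith)
              · subst hs
                exact chgM2 h hF h0' hn h2 hm' (by linarith) (by linarith)
            · have e2 := (h.add_ge hd).1
              nlinarith [h.wQ0]
    intro n h0 hn
    obtain ⟨n', rfl⟩ := Int.eq_ofNat_of_zero_le h0.le
    exact key n' (by exact_mod_cast h0) hn
  · -- members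
    left
    have key : ∀ n : ℕ, 0 < n → (n : ℤ) < w → Q * ta w sg t n < dl Q w D n := by
      intro n
      induction n with
      | zero => intro h0; omega
      | succ n ih =>
        intro _ hn
        rcases Nat.eq_zero_or_pos n with h0 | h0
        · subst h0
          simpa using h1
        · push_cast at hn ⊢
          have h2 := ih h0 (by linarith)
          have h0' : (0 : ℤ) < n := by exact_mod_cast h0
          by_contra hcon
          push Not at hcon
          have hm' : dl Q w D (n + 1) < Q * ta w sg t (n + 1) :=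
            lt_of_le_of_ne hcon (h.dlne (by linarith) (by linarith [h.wQ]) _)
          rcases lt_or_ge (ta w sg t n + ta w sg t 1) w with ht | ht
          · have e1 := h.ta_add_lt ht
            rcases lt_or_ge (dl Q w D n + dl Q w D 1) (w * Q) with hd | hd
            · have e2 := (h.add_lt hd).1
              nlinarith
            · have e2 := (h.add_ge hd).1
              have d1 := h.dl1 1
              have t1 := h.tapos (n := 1) one_pos (by linarith)
              rcases h.sg1 with hs | hs
              · subst hs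
                exact chgP1 h hF h0' hn h2 hm' (by linarith) (by linarith)
              · subst hs
                rcases eq_or_lt_of_le (show dl Q w D 1 ≤ w * Q - 1 by linarith) with d2 | d2
                · have e3 := dl_neg_one h d2 (n := n + 1) (by linarith)
                    (by nlinarith [h.wQ])
                  have t2 := h.ta1 (n + 1)
                  nlinarith [h.wQ]
                · exact chgM1 h hF h0' hn h2 hm' (by linarith) (by linarith)
          · have e1 := h.ta_add_ge ht
            rcases lt_or_ge (dl Q w D n + dl Q w D 1) (w * Q) with hd | hd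
            · have e2 := (h.add_lt hd).1
              nlinarith [h.wQ0]
            · have e2 := (h.add_ge hd).1
              nlinarith [h.wQ0]
    intro n h0 hn
    obtain ⟨n', rfl⟩ := Int.eq_ofNat_of_zero_le h0.le
    exact key n' (by exact_mod_cast h0) hn

end Pool.Agent.Helper73.E
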