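import Mathlib

set_option autoImplicit false

/-!
# The two gaps at zero of `w` consecutive multiples
-/

namespace Pool.Agent.Helper73.E

open Finset

theorem gap_aux {P K x : ℤ} {n m : ℤ} {y : ℤ} (h : P ∣ n * K % P + y - m * K)
    (h0 : 0 ≤ n * K % P + y) (h1 : n * K % P + y ≤ x) (hx : x < P) :
    m * K % P = n * K % P + y := by
  rw [← Int.emod_eq_of_lt h0 (lt_of_le_of_lt h1 hx)]
  exact (Int.emod_emod_of_dvd _ dvd_rfl).symm.trans (by
    rw [Int.emod_emod_of_dvd _ dvd_rfl]
    exact (Int.modEq_iff_dvd.2 h))

theorem gap {P K : ℤ} {w : ℕ} (hP : 0 < P) (hw : 2 ≤ w) {u v : ℤ} {a b : ℕ}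
    (haw : a < w) (hb0 : 0 < b) (hbw : b < w) (hu0 : 0 < u) (hv0 : 0 < v)
    (ha : (a : ℤ) * K % P = u) (hb : (b : ℤ) * K % P = P - v) :
    P ≤ (w - 1) * (u + v) := by
  classical
  have hdiv : ∀ n : ℤ, P ∣ n * K % P - n * K := fun n => by
    have := Int.emod_add_mul_ediv (n * K) P
    exact ⟨-(n * K / P), by linarith⟩
  have hda := hdiv a
  have hdb := hdiv b
  rw [ha] at hda
  rw [hb] at hdb
  have hbm : b ∈ (range w).erase 0 := mem_erase.2 ⟨hb0.ne', mem_range.2 hbw⟩
  have hsub : Finset.Ico 0 P ⊆ (Finset.Ico 0 u ∪ Finset.Ico (P - v) P) ∪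
      (((range w).erase 0).erase b).biUnion
        (fun n : ℕ => Finset.Ico ((n : ℤ) * K % P) ((n : ℤ) * K % P + (u + v))) := by
    intro x hx
    rw [Finset.mem_Ico] at hx
    obtain ⟨n, hn, hmax⟩ := exists_max_image ((range w).filter (fun n : ℕ => (n : ℤ) * K % P ≤ x))
      (fun n : ℕ => (n : ℤ) * K % P) ⟨0, by
        rw [mem_filter, mem_range]
        exact ⟨by omega, by simpa using hx.1⟩⟩
    rw [mem_filter, mem_range] at hn
    have hkey : ∀ (m : ℕ) (y : ℤ), m < w → 0 < y → P ∣ (n : ℤ) * K % P + y - m * K →
        x < (n : ℤ) * K % P + y := by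
      intro m y hm hy hdvd
      by_contra hcon
      push Not at hcon
      have h0 : 0 ≤ (n : ℤ) * K % P := Int.emod_nonneg _ hP.ne'
      have h1 := gap_aux hdvd (by linarith) hcon hx.2
      have h2 := hmax m (by
        rw [mem_filter, mem_range]
        exact ⟨hm, by rw [h1]; exact hcon⟩)
      linarith
    have hdn := hdiv n
    rw [mem_union, mem_union, Finset.mem_Ico, Finset.mem_Ico, mem_biUnion]
    rcases Nat.eq_zero_or_pos n with h0 | h0
    · left; left
      refine ⟨hx.1, ?_⟩
      have := hkey a u haw hu0 (by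
        have := dvd_add hdn hda
        subst h0
        simpa using this)
      subst h0
      simpa using this
    · by_cases hnb : n = b
      · left; right
        subst hnb
        rw [hb] at hn
        exact ⟨hn.2, hx.2⟩
      · right
        refine ⟨n, mem_erase.2 ⟨hnb, mem_erase.2 ⟨h0.ne', mem_range.2 hn.1⟩⟩, ?_⟩
        rw [Finset.mem_Ico]
        refine ⟨hn.2, ?_⟩
        rcases Nat.lt_or_ge (n + a) w with h1 | h1
        · have := hkey (n + a) u h1 hu0 (by
            have := dvd_add hdn hda
            push_cast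
            rwa [show (n : ℤ) * K % P - n * K + (u - a * K) =
              (n : ℤ) * K % P + u - (n + a) * K by ring] at this)
          linarith
        · rcases Nat.lt_or_ge n b with h2 | h2
          · have h3 : n + a - b < w := by omega
            have h4 : ((n + a - b : ℕ) : ℤ) = n + a - b := by
              rw [Nat.cast_sub (by omega)]; push_cast; ring
            have := hkey (n + a - b) (u + v) h3 (by linarith) (by
              rw [h4]
              have := dvd_sub (dvd_add (dvd_add hdn hda) (dvd_refl P)) hdb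
              rwa [show (n : ℤ) * K % P - n * K + (u - a * K) + P - (P - v - b * K) =
                (n : ℤ) * K % P + (u + v) - (n + a - b) * K by ring] at this)
            exact this
          · have h4 : ((n - b : ℕ) : ℤ) = n - b := by
              rw [Nat.cast_sub h2]
            have := hkey (n - b) v (by omega) hv0 (by
              rw [h4]
              have := dvd_sub (dvd_add hdn (dvd_refl P)) hdb
              rwa [show (n : ℤ) * K % P - n * K + P - (P - v - b * K) =
                (n : ℤ) * K % P + v - (n - b) * K by ring] at this)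
            linarith
  have hcard := card_le_card hsub
  have h1 := card_union_le (Finset.Ico 0 u ∪ Finset.Ico (P - v) P)
    ((((range w).erase 0).erase b).biUnion
        (fun n : ℕ => Finset.Ico ((n : ℤ) * K % P) ((n : ℤ) * K % P + (u + v))))
  have h2 := card_union_le (Finset.Ico 0 u) (Finset.Ico (P - v) P)
  have h3 := card_biUnion_le (s := ((range w).erase 0).erase b)
    (t := fun n : ℕ => Finset.Ico ((n : ℤ) * K % P) ((n : ℤ) * K % P + (u + v)))
  have h4 : ∑ n ∈ ((range w).erase 0).erase b,
      (Finset.Ico ((n : ℤ) * K % P) ((n : ℤ) * K % P + (u + v))).card = (w - 2) * (u + v).toNat := by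
    rw [sum_congr rfl (g := fun _ => (u + v).toNat), sum_const, card_erase_of_mem hbm,
      card_erase_of_mem (mem_range.2 (by omega)), card_range, smul_eq_mul]
    · congr 1
    · intro n _
      rw [Int.card_Ico]
      congr 1
      ring
  rw [Int.card_Ico] at hcard
  rw [Int.card_Ico, Int.card_Ico] at h2
  have h5 : (P - 0).toNat ≤ (u - 0).toNat + (P - (P - v)).toNat + (w - 2) * (u + v).toNat := by
    omega
  have h6 : (P : ℤ) ≤ u + v + ((w : ℤ) - 2) * (u + v) := by
    have h7 : (((P - 0).toNat : ℕ) : ℤ) ≤
        ((u - 0).toNat + (P - (P - v)).toNat + (w - 2) * (u + v).toNat : ℕ) := by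
      exact_mod_cast h5
    push_cast [Nat.cast_sub hw] at h7
    rw [Int.toNat_of_nonneg (by linarith), Int.toNat_of_nonneg (by linarith),
      Int.toNat_of_nonneg (by linarith), Int.toNat_of_nonneg (by linarith)] at h7
    linarith
  linarith

end Pool.Agent.Helper73.E
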