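import Pool.Agent.Helper73.E.Chain
import Pool.Agent.Helper73.E.Gap

set_option autoImplicit false

/-!
# Coordinates along a chain
-/

namespace Pool.Agent.Helper73.E

open Finset

/-- data of a `P`-chain -/
structure Ch (P Q w sg D t : ℤ) (k : ℕ) : Prop where
  w2 : 2 ≤ w
  wP : w < P
  wQ : w < Q
  cop : IsCoprime P Q
  cQ : IsCoprime w Q
  sg1 : sg = 1 ∨ sg = -1
  hk : P = k * w + sg
  hD : w * Q ∣ P * D - 1
  ht : w ∣ Q * t - 1

/-- multiples of `1/P` modulo `w Q` -/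
def dl (Q w D n : ℤ) : ℤ := (n * D) % (w * Q)

/-- the cofactor -/
def yy (P Q w D n : ℤ) : ℤ := (P * dl Q w D n - n) / (w * Q)

/-- the residue class of `dl` -/
def ta (w sg t n : ℤ) : ℤ := (sg * n * t) % w

section
variable {P Q w sg D t : ℤ} {k : ℕ}

namespace Ch

theorem w0 (h : Ch P Q w sg D t k) : 0 < w := by have := h.w2; linarith
theorem P0 (h : Ch P Q w sg D t k) : 0 < P := h.w0.trans h.wP
theorem Q0 (h : Ch P Q w sg D t k) : 0 < Q := h.w0.trans h.wQ
theorem wQ0 (h : Ch P Q w sg D t k) : 0 < w * Q := mul_pos h.w0 h.Q0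

theorem copPwQ (h : Ch P Q w sg D t k) : IsCoprime P (w * Q) := by
  obtain ⟨c, hc⟩ := h.hD
  exact ⟨D, -c, by linear_combination hc⟩

theorem k1 (h : Ch P Q w sg D t k) : 1 ≤ k := by
  rcases Nat.eq_zero_or_pos k with h0 | h0
  · exfalso
    have h1 := h.hk
    rw [h0] at h1
    have h2 := h.wP
    have h3 := h.w2
    rcases h.sg1 with h4 | h4 <;> rw [h4] at h1 <;> simp at h1 <;> linarith
  · exact h0

theorem kP (h : Ch P Q w sg D t k) : (k : ℤ) < P := by
  have h1 := h.hk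
  have h2 := h.wP
  have h3 := h.w2
  have h5 : (1 : ℤ) ≤ k := by exact_mod_cast h.k1
  rcases h.sg1 with h4 | h4
  · rw [h4] at h1
    nlinarith
  · rw [h4] at h1
    have h6 : (2 : ℤ) ≤ k := by
      by_contra hcon
      push Not at hcon
      have : (k : ℤ) = 1 := by linarith
      rw [this] at h1
      linarith
    nlinarith

theorem spec (h : Ch P Q w sg D t k) (n : ℤ) :
    P * dl Q w D n = n + w * Q * yy P Q w D n := by
  have h1 : w * Q ∣ P * dl Q w D n - n := by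
    have h2 : w * Q ∣ dl Q w D n - n * D := by
      have := Int.emod_add_mul_ediv (n * D) (w * Q)
      exact ⟨-(n * D / (w * Q)), by unfold dl; linarith⟩
    have h3 := dvd_add (h2.mul_left P) (h.hD.mul_left n)
    rwa [show P * (dl Q w D n - n * D) + n * (P * D - 1) = P * dl Q w D n - n by ring] at h3
  have := Int.ediv_mul_cancel h1
  unfold yy
  linarith

theorem dl0 (h : Ch P Q w sg D t k) (n : ℤ) : 0 ≤ dl Q w D n :=
  Int.emod_nonneg _ h.wQ0.ne'

theorem dl1 (h : Ch P Q w sg D t k) (n : ℤ) : dl Q w D n < w * Q :=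
  Int.emod_lt_of_pos _ h.wQ0

theorem uniq (h : Ch P Q w sg D t k) {n d Y : ℤ} (h0 : 0 ≤ d) (h1 : d < w * Q)
    (h2 : P * d = n + w * Q * Y) : dl Q w D n = d ∧ yy P Q w D n = Y := by
  have h3 := h.spec n
  have h4 : w * Q ∣ (d - dl Q w D n) * P := ⟨Y - yy P Q w D n, by linear_combination h2 - h3⟩
  have h5 : w * Q ∣ d - dl Q w D n := h.copPwQ.symm.dvd_of_dvd_mul_right h4
  have h6 := h.dl0 n
  have h7 := h.dl1 n
  have h8 := Int.eq_zero_of_abs_lt_dvd h5 (by rw [abs_lt]; constructor <;> linarith)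
  have h9 : d = dl Q w D n := by linarith
  refine ⟨h9.symm, ?_⟩
  have h10 : w * Q * yy P Q w D n = w * Q * Y := by
    rw [h9] at h2
    linarith
  exact mul_left_cancel₀ h.wQ0.ne' h10

theorem sgsq (h : Ch P Q w sg D t k) : sg * sg = 1 := by
  rcases h.sg1 with h1 | h1 <;> rw [h1] <;> norm_num

theorem dlmod (h : Ch P Q w sg D t k) (n : ℤ) : w ∣ dl Q w D n - sg * n := by
  -- `P d = n + w Q Y`, `P = k w + sg`
  have h1 := h.spec n
  refine ⟨sg * (Q * yy P Q w D n - k * dl Q w D n), ?_⟩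
  have h2 := h.sgsq
  have h3 := h.hk
  linear_combination (-dl Q w D n) * h2 + sg * h1 - sg * dl Q w D n * h3

theorem ta0 (h : Ch P Q w sg D t k) (n : ℤ) : 0 ≤ ta w sg t n := Int.emod_nonneg _ h.w0.ne'

theorem ta1 (h : Ch P Q w sg D t k) (n : ℤ) : ta w sg t n < w := Int.emod_lt_of_pos _ h.w0

theorem tamod (h : Ch P Q w sg D t k) (n : ℤ) : w ∣ Q * ta w sg t n - sg * n := by
  have h1 := Int.emod_add_mul_ediv (sg * n * t) w
  obtain ⟨c, hc⟩ := h.ht
  refine ⟨sg * n * c - Q * (sg * n * t / w), ?_⟩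
  unfold ta
  linear_combination Q * h1 + sg * n * hc

theorem dtmod (h : Ch P Q w sg D t k) (n : ℤ) : w ∣ dl Q w D n - Q * ta w sg t n := by
  have := dvd_sub (h.dlmod n) (h.tamod n)
  rwa [show dl Q w D n - sg * n - (Q * ta w sg t n - sg * n) = dl Q w D n - Q * ta w sg t n by
    ring] at this

theorem tauniq (h : Ch P Q w sg D t k) {n c : ℤ} (h0 : 0 ≤ c) (h1 : c < w)
    (h2 : w ∣ Q * c - sg * n) : ta w sg t n = c := by
  have h3 := dvd_sub (h.tamod n) h2
  rw [show Q * ta w sg t n - sg * n - (Q * c - sg * n) = (ta w sg t n - c) * Q by ring] at h3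
  have h4 := h.cQ.dvd_of_dvd_mul_right h3
  have h5 := h.ta0 n
  have h6 := h.ta1 n
  have := Int.eq_zero_of_abs_lt_dvd h4 (by rw [abs_lt]; constructor <;> linarith)
  linarith

theorem tapos (h : Ch P Q w sg D t k) {n : ℤ} (h0 : 0 < n) (h1 : n < w) : 1 ≤ ta w sg t n := by
  by_contra hcon
  push Not at hcon
  have h2 := h.ta0 n
  have h3 : ta w sg t n = 0 := by linarith
  have h4 := h.tamod n
  rw [h3, mul_zero, zero_sub, dvd_neg] at h4
  have h5 : w ∣ n := by
    have := h4.mul_left sg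
    rwa [show sg * (sg * n) = (sg * sg) * n by ring, h.sgsq, one_mul] at this
  have := Int.le_of_dvd h0 h5
  linarith

/-- `Q` does not divide `dl n` for `0 < n < Q` -/
theorem Qdl (h : Ch P Q w sg D t k) {n : ℤ} (h0 : 0 < n) (h1 : n < Q) : ¬ Q ∣ dl Q w D n := by
  rintro ⟨c, hc⟩
  have h2 := h.spec n
  have h3 : Q ∣ n := ⟨P * c - w * yy P Q w D n, by rw [hc] at h2; linear_combination -1 * h2⟩
  have := Int.le_of_dvd h0 h3
  linarith

theorem dlpos (h : Ch P Q w sg D t k) {n : ℤ} (h0 : 0 < n) (h1 : n < Q) : 1 ≤ dl Q w D n := by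
  by_contra hcon
  push Not at hcon
  have h2 := h.dl0 n
  have h3 : dl Q w D n = 0 := by linarith
  exact h.Qdl h0 h1 (by rw [h3]; exact dvd_zero _)

theorem dlne (h : Ch P Q w sg D t k) {n : ℤ} (h0 : 0 < n) (h1 : n < Q) (c : ℤ) :
    dl Q w D n ≠ Q * c := fun h2 => h.Qdl h0 h1 ⟨c, h2⟩

theorem yypos (h : Ch P Q w sg D t k) {n : ℤ} (h0 : 0 < n) (h1 : n < Q) (h1' : n < P) :
    1 ≤ yy P Q w D n := by
  have h2 := h.spec n
  have h3 := h.dlpos h0 h1
  have h4 := h.wQ0
  have h5 : 0 < w * Q * yy P Q w D n := by nlinarith [h.P0]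
  have := (mul_pos_iff_of_pos_left h4).1 h5
  linarith

theorem yylt (h : Ch P Q w sg D t k) {n : ℤ} (h0 : 0 < n) : yy P Q w D n < P := by
  have h2 := h.spec n
  have h3 := h.dl1 n
  have h4 := h.wQ0
  have h5 : w * Q * yy P Q w D n < w * Q * P := by nlinarith [h.P0]
  exact lt_of_mul_lt_mul_left h5 h4.le

/-- a member -/
theorem mem_yy (h : Ch P Q w sg D t k) {n : ℤ} (h1 : n < w)
    (hm : Q * ta w sg t n < dl Q w D n) : P * ta w sg t n < w * yy P Q w D n := by
  have h2 := h.spec n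
  have h3 : Q * ta w sg t n + w ≤ dl Q w D n := by
    have := Int.le_of_dvd (by linarith) (h.dtmod n)
    linarith
  have h4 : Q * (P * ta w sg t n) < Q * (w * yy P Q w D n) := by nlinarith [h.P0, h.wP]
  exact lt_of_mul_lt_mul_left h4 h.Q0.le

/-- a nonmember -/
theorem nmem_yy (h : Ch P Q w sg D t k) {n : ℤ} (h0 : 0 < n)
    (hm : dl Q w D n < Q * ta w sg t n) : w * yy P Q w D n < P * ta w sg t n := by
  have h2 := h.spec n
  have h4 : Q * (w * yy P Q w D n) < Q * (P * ta w sg t n) := by nlinarith [h.P0]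
  exact lt_of_mul_lt_mul_left h4 h.Q0.le

theorem add_lt (h : Ch P Q w sg D t k) {a b : ℤ} (hab : dl Q w D a + dl Q w D b < w * Q) :
    dl Q w D (a + b) = dl Q w D a + dl Q w D b ∧
      yy P Q w D (a + b) = yy P Q w D a + yy P Q w D b :=
  h.uniq (by linarith [h.dl0 a, h.dl0 b]) hab (by linear_combination h.spec a + h.spec b)

theorem add_ge (h : Ch P Q w sg D t k) {a b : ℤ} (hab : w * Q ≤ dl Q w D a + dl Q w D b) :
    dl Q w D (a + b) = dl Q w D a + dl Q w D b - w * Q ∧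
      yy P Q w D (a + b) = yy P Q w D a + yy P Q w D b - P :=
  h.uniq (by linarith) (by linarith [h.dl1 a, h.dl1 b])
    (by linear_combination h.spec a + h.spec b)

theorem neg (h : Ch P Q w sg D t k) {n : ℤ} (h0 : 0 < n) (h1 : n < Q) :
    dl Q w D (-n) = w * Q - dl Q w D n ∧ yy P Q w D (-n) = P - yy P Q w D n :=
  h.uniq (by linarith [h.dl1 n]) (by linarith [h.dlpos h0 h1])
    (by linear_combination -1 * h.spec n)

theorem ta_add_lt (h : Ch P Q w sg D t k) {a b : ℤ} (hab : ta w sg t a + ta w sg t b < w) :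
    ta w sg t (a + b) = ta w sg t a + ta w sg t b :=
  h.tauniq (by linarith [h.ta0 a, h.ta0 b]) hab (by
    have := dvd_add (h.tamod a) (h.tamod b)
    rwa [show Q * ta w sg t a - sg * a + (Q * ta w sg t b - sg * b) =
      Q * (ta w sg t a + ta w sg t b) - sg * (a + b) by ring] at this)

theorem ta_add_ge (h : Ch P Q w sg D t k) {a b : ℤ} (hab : w ≤ ta w sg t a + ta w sg t b) :
    ta w sg t (a + b) = ta w sg t a + ta w sg t b - w :=
  h.tauniq (by linarith) (by linarith [h.ta1 a, h.ta1 b]) (by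
    have := dvd_sub (dvd_add (h.tamod a) (h.tamod b)) (Dvd.intro Q rfl : w ∣ w * Q)
    rwa [show Q * ta w sg t a - sg * a + (Q * ta w sg t b - sg * b) - w * Q =
      Q * (ta w sg t a + ta w sg t b - w) - sg * (a + b) by ring] at this)

/-- `n` and `w - n` -/
theorem ta_sub (h : Ch P Q w sg D t k) {n : ℤ} (h0 : 0 < n) (h1 : n < w) :
    ta w sg t (w - n) = w - ta w sg t n :=
  h.tauniq (by linarith [h.ta1 n]) (by linarith [h.tapos h0 h1]) (by
    have := dvd_sub (dvd_mul_right w (Q - sg)) (h.tamod n)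
    rwa [show w * (Q - sg) - (Q * ta w sg t n - sg * n) =
      Q * (w - ta w sg t n) - sg * (w - n) by ring] at this)

end Ch

/-- window condition -/
def Win (P Q w D : ℤ) (k : ℕ) (om : ℤ) : Prop :=
  1 ≤ om ∧ om ≤ k ∧ ∀ n, 0 < n → n < w → om ≤ yy P Q w D n ∧ yy P Q w D n < P - (k - om)

theorem win0 (h : Ch P Q w sg D t k) {om : ℤ} (hW : Win P Q w D k om) {v : ℤ} (h1 : 1 - om ≤ v)
    (h2 : v ≤ k - om) (h0 : v ≠ 0) (x : ℤ) : w ≤ (P * x + v * (w * Q)) % P := by
  obtain ⟨hom1, homk, hwin⟩ := hW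
  by_contra hcon
  push Not at hcon
  set n := (P * x + v * (w * Q)) % P with hn
  have hn0 : 0 ≤ n := Int.emod_nonneg _ h.P0.ne'
  have hd : P ∣ v * (w * Q) - n := by
    have := Int.emod_add_mul_ediv (P * x + v * (w * Q)) P
    exact ⟨(P * x + v * (w * Q)) / P - x, by linarith⟩
  rcases eq_or_lt_of_le hn0 with h3 | h3
  · rw [← h3, sub_zero] at hd
    have h4 := h.copPwQ.dvd_of_dvd_mul_right hd
    have h5 := h.kP
    exact h0 (Int.eq_zero_of_abs_lt_dvd h4 (by rw [abs_lt]; constructor <;> linarith))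
  · obtain ⟨h4, h5⟩ := hwin n h3 hcon
    have h6 := h.spec n
    have h7 : P ∣ (v + yy P Q w D n) * (w * Q) := by
      obtain ⟨c, hc⟩ := hd
      exact ⟨c + dl Q w D n, by linear_combination hc - h6⟩
    have h8 := h.copPwQ.dvd_of_dvd_mul_right h7
    have := Int.le_of_dvd (by linarith) h8
    linarith

/-- thresholds -/
theorem thr0 (h : Ch P Q w sg D t k) {m b0 x y z0 d Y : ℤ} (hm : m = b0 * (w * Q) + P * x)
    (hy : 0 ≤ y) (hyw : y < w) (hd : P * d = z0 + y + w * Q * Y) (hx : w ∣ x - d)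
    (h0 : 0 ≤ Y + b0) (h1 : Y + b0 < P) : S P Q w (m - z0) = th (x - d) :=
  S_thr h.P0 h.Q0 h.w0 h.cop hy hyw h0 h1 hx (by rw [hm]; linear_combination hd)

/-- evaluation for `P ≡ 1` -/
theorem eval0P (h : Ch P Q w 1 D t k) {om : ℤ} (hW : Win P Q w D k om) {m x : ℤ}
    (hm : m = -om * (w * Q) + P * x) (hx : x ≤ w * Q) {J : ℕ} (hJ : w ≤ J) {a b : ℤ}
    (ha0 : 1 ≤ a) (haw : a ≤ w) (hb0 : 1 ≤ b) (hbw : b ≤ w) (ha : w ∣ x - a * Q)
    (hb : w ∣ x - 1 - b * Q) :
    A P Q w J m = S P Q w m - S P Q w (m - P) - (th (x - a * Q) - th (x - 1 - b * Q)) := by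
  obtain ⟨i0, hi0⟩ : ∃ i0 : ℕ, (k : ℤ) - om = i0 :=
    ⟨_, (Int.toNat_of_nonneg (by linarith [hW.2.1])).symm⟩
  have hk := h.hk
  have hom := hW.1
  have hmlt : m < w * (P * Q) := by
    rw [hm]
    nlinarith [h.wQ0, h.P0, mul_pos h.wQ0 (show 0 < om by linarith)]
  have hi : i0 < k := by
    have : (i0 : ℤ) < k := by linarith
    exact_mod_cast this
  have h1 := eval_plus (jU := a - 1) (jV := b - 1) (r := 0) (z := x - Q) h.P0 h.Q0 h.w0 h.cop h.cQ
    h.wP.le hk hJ hmlt hi le_rfl h.w0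
    (by rw [hm, ← hi0]; linear_combination Q * hk) (by
      intro i hi1 hi2
      have e1 : m - Q - i * (w * Q) = P * (x - Q) + ((k : ℤ) - om - i) * (w * Q) := by
        rw [hm]; linear_combination Q * hk
      rw [e1]
      apply win0 h hW
      · have : (i : ℤ) + 1 ≤ k := by exact_mod_cast hi1
        linarith
      · have : (0 : ℤ) ≤ i := Nat.cast_nonneg i
        linarith
      · rw [hi0]
        intro h3
        apply hi2
        have : (i : ℤ) = i0 := by linarith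
        exact_mod_cast this) (by linarith) (by linarith)
    (by rwa [show x - Q - (a - 1) * Q = x - a * Q by ring]) (by linarith) (by linarith)
    (by rwa [show x - Q - 1 - (b - 1) * Q = x - 1 - b * Q by ring])
  rw [h1, show x - Q - (a - 1) * Q = x - a * Q by ring,
    show x - Q - 1 - (b - 1) * Q = x - 1 - b * Q by ring]

/-- evaluation for `P ≡ -1` -/
theorem eval0M (h : Ch P Q w (-1) D t k) {om : ℤ} (hW : Win P Q w D k om) {m x : ℤ}
    (hm : m = (k - om) * (w * Q) + P * x) (hx : x ≤ (w - 1) * Q) {J : ℕ} (hJ : w ≤ J) {a b : ℤ}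
    (ha0 : 0 ≤ a) (haw : a < w) (hb0 : 0 ≤ b) (hbw : b < w) (ha : w ∣ x - a * Q)
    (hb : w ∣ x - 1 - b * Q) :
    A P Q w J m = - S P Q w (m - Q) + S P Q w (m - P - Q) + (th (x - a * Q) - th (x - 1 - b * Q)) := by
  obtain ⟨i0, hi0⟩ : ∃ i0 : ℕ, (k : ℤ) - om = i0 :=
    ⟨_, (Int.toNat_of_nonneg (by linarith [hW.2.1])).symm⟩
  have hk := h.hk
  have hom := hW.1
  have hw2 := h.w2
  have hmlt : m < w * (P * Q) := by
    have e1 : (k : ℤ) * (w * Q) = P * Q + Q := by linear_combination (-Q) * hk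
    have e2 : m = P * Q + Q - om * (w * Q) + P * x := by rw [hm]; linear_combination e1
    have e3 : P * x ≤ P * ((w - 1) * Q) := mul_le_mul_of_nonneg_left hx h.P0.le
    have e4 : w * Q ≤ om * (w * Q) := by nlinarith [h.wQ0]
    have e5 : Q < w * Q := by nlinarith [h.Q0]
    rw [e2]
    nlinarith
  have hi : i0 < k := by
    have : (i0 : ℤ) < k := by linarith
    exact_mod_cast this
  exact eval_minus (jU := a) (jV := b) (r := 0) (z := x) h.P0 h.Q0 h.w0 h.cop h.cQ
    h.wP.le (by rw [hk]; ring) hJ hmlt hi le_rfl h.w0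
    (by rw [hm, ← hi0]; ring) (by
      intro i hi1 hi2
      have e1 : m - i * (w * Q) = P * x + ((k : ℤ) - om - i) * (w * Q) := by
        rw [hm]; ring
      rw [e1]
      apply win0 h hW
      · have : (i : ℤ) + 1 ≤ k := by exact_mod_cast hi1
        linarith
      · have : (0 : ℤ) ≤ i := Nat.cast_nonneg i
        linarith
      · rw [hi0]
        intro h3
        apply hi2
        have : (i : ℤ) = i0 := by linarith
        exact_mod_cast this) ha0 haw ha hb0 hbw hb

end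

end Pool.Agent.Helper73.E
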