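import Pool.Agent.Helper73.E.Sym

set_option autoImplicit false

/-!
# Heredity: from the coefficients of `Q_{w,p,q}` to all the sums `F w p q`
-/

namespace Pool.Agent.Helper73.E

open Finset

theorem cc_congr {p q x y : ℤ} (h : p * q ∣ x - y) : cc p q x = cc p q y := by
  have h1 : x % (p * q) = y % (p * q) :=
    (Int.modEq_iff_dvd.2 (by
      have := (dvd_neg (α := ℤ)).2 h
      rwa [neg_sub] at this))
  unfold cc
  rw [h1]

theorem F_congr {p q w : ℤ} {N : ℕ} {x y : ℤ} (h : p * q ∣ x - y) : F p q w N x = F p q w N y := by
  unfold F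
  refine sum_congr rfl fun s _ => ?_
  rw [cc_congr (x := x - w * s) (y := y - w * s) (by
    rwa [show x - w * s - (y - w * s) = x - y by ring])]

/-- partial sums -/
noncomputable def Fn (p q w : ℤ) (n : ℕ) (m : ℤ) : ℤ :=
  ∑ s ∈ range n, (g p q s - g p q (s - 1)) * cc p q (m - w * s)

theorem Fn_succ (p q w : ℤ) (n : ℕ) (m : ℤ) : Fn p q w (n + 1) m = F p q w n m := rfl

theorem Fn_step (p q w : ℤ) (n : ℕ) (m : ℤ) :
    Fn p q w (n + 1) m = Fn p q w n m + (g p q n - g p q (n - 1)) * cc p q (m - w * n) := by
  unfold Fn
  rw [sum_range_succ]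

theorem g_01 (P Q u : ℤ) : g P Q u = 0 ∨ g P Q u = 1 := by
  unfold g
  split_ifs
  · exact Or.inr rfl
  · exact Or.inl rfl

/-- for two moduli `P < Q` and a step `R > Q` -/
theorem hered {P Q R : ℤ} (hP : 2 ≤ P) (hPQ : P < Q) (hQR : Q < R) (hcop : IsCoprime P Q)
    (hA : ∀ (N : ℕ) (m : ℤ), (N : ℤ) < P * Q → R * N ≤ m → m < R * N + R → |F P Q R N m| ≤ 1)
    (N : ℕ) (m : ℤ) (hN : (N : ℤ) < P * Q) : |F P Q R N m| ≤ 1 := by
  have hM : 0 < P * Q := by nlinarith
  obtain ⟨M, hMe⟩ : ∃ M, P * Q = M := ⟨_, rfl⟩
  have hQ2 : 2 * Q ≤ M := by rw [← hMe]; nlinarith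
  -- realizable
  have real : ∀ N : ℕ, (N : ℤ) < M → (m - R * N) % M < R → |F P Q R N m| ≤ 1 := by
    intro N hN h
    have h0 := Int.emod_nonneg (m - R * N) (show M ≠ 0 by linarith)
    have h1 := Int.emod_add_mul_ediv (m - R * N) M
    rw [F_congr (y := R * N + (m - R * N) % M) ⟨(m - R * N) / M, by rw [hMe]; linarith⟩]
    exact hA N _ (by rwa [hMe]) (by linarith) (by linarith)
  -- the values of `cc`
  have hcc0 : ∀ x, P ≤ x % M → (x % M < Q ∨ Q + P ≤ x % M) → cc P Q x = 0 := by
    intro x h1 h2
    unfold cc
    rw [hMe, if_neg (by linarith), if_neg (by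
      rintro ⟨h3, h4⟩
      rcases h2 with h2 | h2 <;> linarith), sub_self]
  have hccm : ∀ x, Q ≤ x % M → x % M < Q + P → cc P Q x = -1 := by
    intro x h1 h2
    unfold cc
    rw [hMe, if_neg (by linarith), if_pos ⟨h1, h2⟩, zero_sub]
  have hccp : ∀ x, x % M < P → cc P Q x = 1 := by
    intro x h1
    unfold cc
    rw [hMe, if_pos h1, if_neg (by
      rintro ⟨h3, h4⟩
      linarith), sub_zero]
  -- the residues
  have hres : ∀ (N : ℤ), (m - R * (N - 1)) % M = ((m - R * N) % M + R) % M := by
    intro N
    rw [Int.emod_add_emod]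
    congr 1
    ring
  -- just before a residue which is not realizable
  have key : ∀ N : ℕ, (N : ℤ) < M → R ≤ (m - R * N) % M → |Fn P Q R N m| ≤ 1 := by
    intro N
    induction N with
    | zero =>
      intro _ _
      unfold Fn
      rw [sum_range_zero, abs_zero]
      exact zero_le_one
    | succ N ih =>
      intro hN hR
      push_cast at hN hR
      have h1 := hres (N + 1)
      rw [add_sub_cancel_right] at h1
      have h2 := Int.emod_lt_of_pos (m - R * (N + 1)) (show 0 < M by linarith)
      rcases lt_or_ge ((m - R * (N + 1)) % M + R) M with h3 | h3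
      · rw [Int.emod_eq_of_lt (by linarith) h3] at h1
        have h4 : cc P Q (m - R * N) = 0 := by
          apply hcc0
          · linarith
          · right
            linarith
        rw [Fn_step, h4, mul_zero, add_zero]
        exact ih (by linarith) (by linarith)
      · have h4 : ((m - R * (N + 1)) % M + R) % M = (m - R * (N + 1)) % M + R - M := by
          rw [← Int.sub_emod_right, Int.emod_eq_of_lt (by linarith)]
          have : R < 2 * M := by
            linarith
          linarith
        rw [h4] at h1
        rw [Fn_succ]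
        refine real N (by linarith) ?_
        linarith
  rw [hMe] at hN
  rcases lt_or_ge ((m - R * N) % M) R with hR | hR
  · exact real N hN hR
  · have h1 := key N hN hR
    rw [← Fn_succ, Fn_step]
    rcases lt_or_ge ((m - R * N) % M) (Q + P) with h2 | h2
    · -- in the second window
      have h3 := hccm (m - R * N) (by linarith) h2
      rw [h3]
      rcases lt_or_ge ((N : ℤ) + 1) M with h4 | h4
      · have h5 := hres (N + 1)
        rw [add_sub_cancel_right] at h5
        -- the next residue
        have h6 : (m - R * (N + 1)) % M = (m - R * N) % M - R := by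
          have h7 : (m - R * (N + 1)) % M = ((m - R * N) % M - R) % M := by
            rw [Int.emod_sub_emod]
            congr 1
            ring
          rw [h7, Int.emod_eq_of_lt (by linarith)]
          have := Int.emod_lt_of_pos (m - R * N) (show 0 < M by linarith)
          linarith
        have h7 : |Fn P Q R (N + 1 + 1) m| ≤ 1 := by
          rw [Fn_succ]
          refine real (N + 1) (by push_cast; linarith) ?_
          push_cast
          rw [h6]
          linarith
        rw [Fn_step, Fn_step, h3] at h7
        have h8 : cc P Q (m - R * ((N + 1 : ℕ) : ℤ)) = 1 := by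
          apply hccp
          push_cast
          rw [h6]
          linarith
        rw [h8] at h7
        push_cast at h7
        rw [add_sub_cancel_right] at h7
        rw [abs_le] at h1 h7 ⊢
        rcases g_01 P Q (N - 1) with g1 | g1 <;> rcases g_01 P Q N with g2 | g2 <;>
          rcases g_01 P Q (N + 1) with g3 | g3 <;> rw [g1, g2] <;> rw [g1, g2, g3] at h7 <;>
          constructor <;> linarith [h1.1, h1.2, h7.1, h7.2]
      · -- the last index: the coefficient is zero
        have h5 : ∀ u : ℤ, M - P - Q < u → g P Q u = 1 := by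
          intro u hu
          obtain ⟨a, c, ha, haP, hac⟩ := exists_rep (P := P) (Q := Q) (by linarith) hcop u
          rw [hac, g_rep (by linarith) (by linarith) hcop ha haP, th_pos]
          by_contra hcon
          push Not at hcon
          have : Q * a ≤ Q * (P - 1) := mul_le_mul_of_nonneg_left (by linarith) (by linarith)
          nlinarith
        rw [h5 N (by linarith), h5 (N - 1) (by linarith), sub_self, zero_mul, add_zero]
        exact h1
    · rw [hcc0 (m - R * N) (by linarith) (Or.inr h2), mul_zero, add_zero]
      exact h1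

end Pool.Agent.Helper73.E
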