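import Pool.Agent.Helper73.E.Base
import Pool.Agent.Helper55.FT.Def

set_option autoImplicit false

/-!
# The sums `F` and the progression sums `G` of `Helper55/FT/Def.lean`
-/

namespace Pool.Agent.Helper73.E

open Finset
open Pool.Agent.Helper55.FT (mm av bv G)

variable {p q : ℕ}

/-- the counting function of the semigroup -/
theorem mm_zero (hp : 0 < p) (hq : 0 < q) (hcop : IsCoprime (p : ℤ) q) (y : ℤ) :
    mm p q 0 y = g p q y := by
  have hp' : (0 : ℤ) < p := by exact_mod_cast hp
  have hq' : (0 : ℤ) < q := by exact_mod_cast hq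
  unfold mm
  by_cases h : ∃ l ∈ range p, (l : ℤ) * q ≤ y ∧ (p : ℤ) ∣ y - 0 - l * q
  · obtain ⟨l, hl, h1, h2⟩ := h
    rw [sum_eq_single_of_mem l hl, if_pos ⟨h1, h2⟩]
    · unfold g
      rw [if_pos]
      obtain ⟨i, hi⟩ := h2
      refine ⟨i, l, ?_, Nat.cast_nonneg l, by linarith⟩
      by_contra hcon
      push Not at hcon
      nlinarith
    · intro m hm hml
      rw [if_neg]
      rintro ⟨h3, h4⟩
      apply hml
      rw [mem_range] at hl hm
      have h5 : (p : ℤ) ∣ ((m : ℤ) - l) * q := by
        have := dvd_sub h2 h4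
        rwa [show y - 0 - l * q - (y - 0 - m * q) = ((m : ℤ) - l) * q by ring] at this
      have h6 := hcop.dvd_of_dvd_mul_right h5
      have h7 := Int.eq_zero_of_abs_lt_dvd h6 (by rw [abs_lt]; omega)
      omega
  · have h0 : g (p : ℤ) q y = 0 := by
      unfold g
      rw [if_neg]
      rintro ⟨i, j, hi, hj, hy⟩
      apply h
      have e1 := Int.emod_add_mul_ediv j p
      have e2 := Int.emod_nonneg j hp'.ne'
      have e3 := Int.emod_lt_of_pos j hp'
      have e4 : 0 ≤ j / p := Int.ediv_nonneg hj hp'.le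
      refine ⟨(j % p).toNat, ?_, ?_, ?_⟩
      · rw [mem_range]
        omega
      · rw [Int.toNat_of_nonneg e2]
        have : 0 ≤ i * p := mul_nonneg hi hp'.le
        have : 0 ≤ (p : ℤ) * (j / p) * q := by positivity
        nlinarith
      · rw [Int.toNat_of_nonneg e2]
        exact ⟨i + j / p * q, by rw [hy]; linear_combination (-q : ℤ) * e1⟩
    rw [h0]
    push Not at h
    exact sum_eq_zero fun l hl => if_neg fun h1 => h l hl h1.1 h1.2

theorem mm_one (hp : 2 ≤ p) (hq : 0 < q) (hcop : IsCoprime (p : ℤ) q) (y : ℤ) :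
    mm p q 1 y = g p q (y - 1) := by
  rw [← mm_zero (by omega) hq hcop]
  unfold mm
  refine sum_congr rfl fun l _ => ?_
  congr 1
  apply propext
  constructor
  · rintro ⟨h1, h2⟩
    refine ⟨?_, by rwa [sub_zero]⟩
    rcases eq_or_lt_of_le h1 with h3 | h3
    · exfalso
      rw [show y - 1 - l * q = -1 by linarith, dvd_neg] at h2
      have := Int.le_of_dvd one_pos h2
      omega
    · linarith
  · rintro ⟨h1, h2⟩
    exact ⟨by linarith, by rwa [sub_zero] at h2⟩

theorem av_g (hp : 2 ≤ p) (hq : 0 < q) (hcop : IsCoprime (p : ℤ) q) (y : ℤ) :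
    av p q y = g p q y - g p q (y - 1) := by
  unfold av
  rw [mm_zero (by omega) hq hcop, mm_one hp hq hcop]

/-- one term of the progression sum -/
theorem bv_sum {w D : ℤ} (hM : 0 < (p : ℤ) * q) (hD : (p : ℤ) * q ∣ D * w - 1) {N : ℕ}
    (hN : (N : ℤ) < p * q) {c m : ℤ} (hc : 0 ≤ c) (hcM : c < p * q) :
    ∑ s ∈ range (N + 1), av p q s * (if (m - w * s) % (p * q) = c then 1 else 0) =
      bv p q N (D * (m - c)) := by
  obtain ⟨s0, hs0⟩ : ∃ s0 : ℕ, (D * (m - c)) % (p * q) = s0 :=
    ⟨_, (Int.toNat_of_nonneg (Int.emod_nonneg _ hM.ne')).symm⟩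
  have e1 := Int.emod_add_mul_ediv (D * (m - c)) (p * q)
  have hs1 := Int.emod_lt_of_pos (D * (m - c)) hM
  have key : ∀ s : ℕ, (s : ℤ) < p * q → ((m - w * s) % (p * q) = c ↔ s = s0) := by
    intro s hs
    obtain ⟨d, hd⟩ := hD
    constructor
    · intro h
      have e2 := Int.emod_add_mul_ediv (m - w * s) (p * q)
      rw [h] at e2
      have h1 : (p : ℤ) * q ∣ (s : ℤ) - s0 := by
        rw [← hs0]
        refine ⟨D * (m - c) / (p * q) - D * ((m - w * s) / (p * q)) - d * s, ?_⟩
        linear_combination D * e2 - e1 - (s : ℤ) * hd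
      have h2 := Int.eq_zero_of_abs_lt_dvd h1 (by
        rw [abs_lt]
        constructor <;> omega)
      omega
    · rintro rfl
      have h1 : (m - w * s) % (p * q) = c % (p * q) := by
        refine Int.modEq_iff_dvd.2 ⟨d * (m - c) - w * (D * (m - c) / (p * q)), ?_⟩
        rw [← hs0]
        linear_combination (m - c) * hd + w * e1
      rw [h1, Int.emod_eq_of_lt hc hcM]
  unfold bv
  rw [hs0]
  by_cases h : s0 ≤ N
  · rw [if_pos (by exact_mod_cast h), sum_eq_single_of_mem s0 (mem_range.2 (by omega))]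
    · rw [if_pos ((key s0 (by omega)).2 rfl), mul_one]
    · intro s hs hne
      rw [mem_range] at hs
      rw [if_neg (fun h1 => hne ((key s (by omega)).1 h1)), mul_zero]
  · rw [if_neg (by exact_mod_cast h)]
    refine sum_eq_zero fun s hs => ?_
    rw [mem_range] at hs
    rw [if_neg (fun h1 => h (by have := (key s (by omega)).1 h1; omega)), mul_zero]

/-- the windows -/
theorem cc_sum (hpq : p ≤ q) (hM : (q : ℤ) + p ≤ p * q) (hp : 0 < p) (x : ℤ) :
    cc p q x = ∑ e ∈ range p, ((if x % (p * q) = (e : ℤ) then 1 else 0) -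
      (if x % (p * q) = (q : ℤ) + e then 1 else 0)) := by
  have hp' : (0 : ℤ) < p := by exact_mod_cast hp
  have hM0 : 0 < (p : ℤ) * q := by
    have : (0 : ℤ) ≤ q := Nat.cast_nonneg q
    linarith
  obtain ⟨y, hy⟩ : ∃ y : ℕ, x % (p * q) = y :=
    ⟨_, (Int.toNat_of_nonneg (Int.emod_nonneg _ hM0.ne')).symm⟩
  unfold cc
  rw [hy, sum_sub_distrib]
  congr 1
  · by_cases h : y < p
    · rw [if_pos (by exact_mod_cast h), sum_eq_single_of_mem y (mem_range.2 h), if_pos rfl]
      intro e _ hne
      rw [if_neg]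
      intro h1
      exact hne (by exact_mod_cast h1.symm)
    · rw [if_neg (by exact_mod_cast h)]
      symm
      refine sum_eq_zero fun e he => if_neg fun h1 => ?_
      rw [mem_range] at he
      have : y = e := by exact_mod_cast h1
      omega
  · by_cases h : q ≤ y ∧ y < q + p
    · rw [if_pos (by exact_mod_cast h), sum_eq_single_of_mem (y - q) (mem_range.2 (by omega)),
        if_pos (by omega)]
      intro e _ hne
      rw [if_neg]
      intro h1
      have : y = q + e := by exact_mod_cast h1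
      omega
    · rw [if_neg (by exact_mod_cast h)]
      symm
      refine sum_eq_zero fun e he => if_neg fun h1 => ?_
      rw [mem_range] at he
      have : y = q + e := by exact_mod_cast h1
      omega

/-- **Link.** -/
theorem G_eq_F (hp : 2 ≤ p) (hpq : p < q) (hcop : IsCoprime (p : ℤ) q) {w D : ℤ}
    (hD : (p : ℤ) * q ∣ D * w - 1) {N : ℕ} (hN : (N : ℤ) < p * q) (m : ℤ) :
    G p q D N (D * m) = F p q w N m := by
  have hp' : (2 : ℤ) ≤ p := by exact_mod_cast hp
  have hpq' : (p : ℤ) + 1 ≤ q := by exact_mod_cast hpq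
  have hM1 : (q : ℤ) + p ≤ p * q := by nlinarith
  have hM : 0 < (p : ℤ) * q := by nlinarith
  unfold G F
  have e1 : ∀ e ∈ range p, bv p q N (D * m - e * D) - bv p q N (D * m - e * D - q * D) =
      ∑ s ∈ range (N + 1), av p q s * ((if (m - w * s) % (p * q) = (e : ℤ) then 1 else 0) -
        (if (m - w * s) % (p * q) = (q : ℤ) + e then 1 else 0)) := by
    intro e he
    rw [mem_range] at he
    have he' : (e : ℤ) + 1 ≤ p := by exact_mod_cast he
    have he0 : (0 : ℤ) ≤ e := Nat.cast_nonneg e
    rw [show D * m - e * D = D * (m - e) by ring,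
      show D * (m - e) - q * D = D * (m - (q + e)) by ring,
      ← bv_sum hM hD hN he0 (by linarith), ← bv_sum hM hD hN (c := q + e) (by linarith)
        (by linarith), ← sum_sub_distrib]
    exact sum_congr rfl fun s _ => by ring
  rw [sum_congr rfl e1, sum_comm]
  refine sum_congr rfl fun s _ => ?_
  rw [← mul_sum, ← cc_sum hpq.le hM1 (by omega), av_g hp (by omega) hcop]

end Pool.Agent.Helper73.E
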