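import Pool.Agent.Helper73.E.Asm
import Pool.Agent.Helper73.E.Link
import Pool.Agent.Helper73.E.Hered

set_option autoImplicit false

/-!
# The family `r ≡ w` modulo `p q`, with `2 ≤ w < p < q`

Flatness for `D = 1 / w` modulo `p q` implies `w p ∣ q - 1`, or neither `p` nor `q` is `± 1` modulo
`w` and the pair `(w, p)` is flat for `1 / q` modulo `w p`.
-/

namespace Pool.Agent.Helper73.E

open Finset Pool.Agent.Helper55.FT

theorem hered_F {w p q : ℤ} (hw : 2 ≤ w) (hwp : w < p) (hpq : p < q) (cwp : IsCoprime w p)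
    (cpq : IsCoprime p q)
    (hF : ∀ (N : ℕ) (m : ℤ), (N : ℤ) < p * q → |F p q w N m| ≤ 1) (N : ℕ) (m : ℤ)
    (hN : (N : ℤ) < w * p) : |F w p q N m| ≤ 1 := by
  have hfl := fl_of hw hwp hpq hF
  have hw0 : 0 < w := by linarith
  have hp0 : 0 < p := by linarith
  have hq0 : 0 < q := by linarith
  have hJ : (w.toNat : ℤ) = w := Int.toNat_of_nonneg hw0.le
  refine hered hw hwp hpq cwp (fun N m hN h1 h2 => ?_) N m hN
  have h0 : 0 ≤ m := le_trans (mul_nonneg hq0.le (Int.natCast_nonneg N)) h1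
  have hm : m / q = N := by
    apply le_antisymm
    · apply Int.le_of_lt_add_one
      rw [Int.ediv_lt_iff_lt_mul hq0]
      linarith
    · rw [Int.le_ediv_iff_mul_le hq0]
      linarith
  have hmM : m < w * (p * q) := by
    have h3 : (N : ℤ) + 1 ≤ w * p := hN
    have h4 : q * ((N : ℤ) + 1) ≤ q * (w * p) := mul_le_mul_of_nonneg_left h3 hq0.le
    linarith
  have hwp0 : 0 < w * p := mul_pos hw0 hp0
  have hmJ : m < ((m.toNat + 1 : ℕ) : ℤ) * (w * p) := by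
    push_cast
    rw [Int.toNat_of_nonneg h0]
    nlinarith
  have h3 := F_al (p := w) (q := p) (w := q) (N := N) hw0 hwp.le (by nlinarith) hq0 hmJ
    (by rw [← hm]; exact Int.ediv_le_ediv hq0 (by linarith)) hm.ge
  have h4 : S w p q m = g w p N := by unfold S; rw [hm]
  rw [h3, h4, sub_add_cancel, A_eq_Ai hw0 hp0 hq0 hmJ, Ai_symm hw0 hp0 hq0 cwp cpq,
    ← A_eq_Ai hp0 hq0 hw0 (J := w.toNat) (by rw [hJ]; exact hmM)]
  exact hfl.A1 m h0 hmM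

/-- **Theorem E.** -/
theorem main (w p q : ℕ) (D : ℤ) (hw : 2 ≤ w) (hwp : w < p) (hpq : p < q) (cwp : w.Coprime p)
    (cwq : w.Coprime q) (cpq : p.Coprime q) (hD : ((p * q : ℕ) : ℤ) ∣ D * w - 1)
    (hG : ∀ N k : ℤ, 0 ≤ N → N < p * q → |G p q D N k| ≤ 1) :
    (((w * p : ℕ) : ℤ) ∣ (q : ℤ) - 1) ∨
    ((¬ ((w : ℤ) ∣ (p : ℤ) - 1) ∧ ¬ ((w : ℤ) ∣ (p : ℤ) + 1)) ∧
      (¬ ((w : ℤ) ∣ (q : ℤ) - 1) ∧ ¬ ((w : ℤ) ∣ (q : ℤ) + 1)) ∧
      ∀ D2 : ℤ, ((w * p : ℕ) : ℤ) ∣ D2 * q - 1 →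
        ∀ N k : ℤ, 0 ≤ N → N < w * p → |G w p D2 N k| ≤ 1) := by
  have cwp' : IsCoprime (w : ℤ) p := Nat.isCoprime_iff_coprime.2 cwp
  have cwq' : IsCoprime (w : ℤ) q := Nat.isCoprime_iff_coprime.2 cwq
  have cpq' : IsCoprime (p : ℤ) q := Nat.isCoprime_iff_coprime.2 cpq
  have hw' : (2 : ℤ) ≤ w := by exact_mod_cast hw
  have hwp' : (w : ℤ) < p := by exact_mod_cast hwp
  have hpq' : (p : ℤ) < q := by exact_mod_cast hpq
  push_cast at hD
  have hF : ∀ (N : ℕ) (m : ℤ), (N : ℤ) < (p : ℤ) * q → |F p q w N m| ≤ 1 := by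
    intro N m hN
    rw [← G_eq_F (by omega) hpq cpq' hD hN m]
    exact hG N _ (Int.natCast_nonneg N) hN
  by_cases hor : ((w : ℤ) ∣ (p : ℤ) - 1 ∨ (w : ℤ) ∣ (p : ℤ) + 1) ∨
      ((w : ℤ) ∣ (q : ℤ) - 1 ∨ (w : ℤ) ∣ (q : ℤ) + 1)
  · left
    push_cast
    exact main1 hw' hwp' hpq' cpq' cwp' cwq' hF hor
  · right
    rw [not_or, not_or, not_or] at hor
    refine ⟨hor.1, hor.2, fun D2 hD2 N k h0 h1 => ?_⟩
    obtain ⟨n, rfl⟩ := Int.eq_ofNat_of_zero_le h0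
    push_cast at hD2
    rw [G_congr_k (k' := D2 * (q * k)) (by
      obtain ⟨t, ht⟩ := hD2
      push_cast
      exact ⟨-(t * k), by linear_combination -(k * ht)⟩),
      G_eq_F hw hwp cwp' hD2 h1]
    exact hered_F hw' hwp' hpq' cwp' cpq' hF n _ h1

end Pool.Agent.Helper73.E
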