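import Pool.Agent.Helper73.E.Coord

set_option autoImplicit false

/-!
# Existence of a window and constancy of the sign
-/

namespace Pool.Agent.Helper73.E

open Finset

theorem mid {a b c d w e : ℤ} (h1 : a < c) (h2 : a < d) (h3 : b < c) (h4 : b < d)
    (h5 : w ∣ a - e) (h6 : w ∣ b - e) :
    ∃ x, a ≤ x ∧ b ≤ x ∧ x < c ∧ x < d ∧ w ∣ x - e := by
  rcases le_total a b with h | h
  · exact ⟨b, h, le_rfl, h3, h4, h6⟩
  · exact ⟨a, le_rfl, h, h1, h2, h5⟩

/-- the bounds which follow from flatness; `pm` is the smaller one of `P` and `Q` -/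
structure Fl (P Q w pm : ℤ) (J : ℕ) : Prop where
  hJ : w ≤ J
  A1 : ∀ m, 0 ≤ m → m < w * (P * Q) → |A P Q w J m| ≤ 1
  al : ∀ m j, j * w ≤ m → m < w * (P * Q) → 0 ≤ j → m % w + w * (j - 1) < pm →
    |A P Q w J m - S P Q w m + S P Q w (m - j * w)| ≤ 1
  be : ∀ m, 0 ≤ m - P - Q + w → m < w * (P * Q) →
    |A P Q w J m - S P Q w m + S P Q w (m - P) + S P Q w (m - Q) - S P Q w (m - P - Q + w)| ≤ 1

variable {P Q w sg D t : ℤ} {k : ℕ}

theorem exists_win (h : Ch P Q w sg D t k) : ∃ om, Win P Q w D k om := by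
  obtain ⟨wn, hwn⟩ : ∃ wn : ℕ, w = wn := ⟨_, (Int.toNat_of_nonneg h.w0.le).symm⟩
  have hw2 : 2 ≤ wn := by
    have := h.w2
    rw [hwn] at this
    exact_mod_cast this
  have hcong : ∀ n : ℕ, 0 < n → n < wn → (n : ℤ) * yy P Q w D 1 % P = yy P Q w D n := by
    intro n h0 h1
    have h0' : (0 : ℤ) < n := by exact_mod_cast h0
    have h1' : (n : ℤ) < w := by rw [hwn]; exact_mod_cast h1
    have h2 := h.yypos h0' (h1'.trans h.wQ) (h1'.trans h.wP)
    have h3 := h.yylt h0'
    have h4 : P ∣ (yy P Q w D n - n * yy P Q w D 1) * (w * Q) :=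
      ⟨dl Q w D n - n * dl Q w D 1, by linear_combination n * h.spec 1 - h.spec n⟩
    have h5 := h.copPwQ.dvd_of_dvd_mul_right h4
    rw [← Int.emod_eq_of_lt (by linarith : 0 ≤ yy P Q w D n) h3]
    exact Int.modEq_iff_dvd.2 h5
  obtain ⟨a, ha, hamin⟩ := exists_min_image (Ico 1 wn) (fun n : ℕ => yy P Q w D n)
    ⟨1, by rw [mem_Ico]; omega⟩
  obtain ⟨b, hb, hbmax⟩ := exists_max_image (Ico 1 wn) (fun n : ℕ => yy P Q w D n)
    ⟨1, by rw [mem_Ico]; omega⟩
  rw [mem_Ico] at ha hb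
  have ha1 : (0 : ℤ) < a := by exact_mod_cast ha.1
  have hb1 : (0 : ℤ) < b := by exact_mod_cast hb.1
  have ha2 : (a : ℤ) < w := by rw [hwn]; exact_mod_cast ha.2
  have hb2 : (b : ℤ) < w := by rw [hwn]; exact_mod_cast hb.2
  have hu := h.yypos ha1 (ha2.trans h.wQ) (ha2.trans h.wP)
  have hv := h.yylt hb1
  have hgap := gap (v := P - yy P Q w D b) h.P0 hw2 ha.2 hb.1 hb.2 (by linarith) (by linarith)
    (hcong a ha.1 ha.2) (by rw [hcong b hb.1 hb.2]; ring)
  rw [← hwn] at hgap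
  have hk : (w - 1) * k < P := by
    have hk1 := h.hk
    have h5 : (1 : ℤ) ≤ k := by exact_mod_cast h.k1
    rcases h.sg1 with h4 | h4 <;> rw [h4] at hk1
    · linarith
    · have h6 : (2 : ℤ) ≤ k := by
        by_contra hcon
        push Not at hcon
        have h7 : (k : ℤ) = 1 := by linarith
        rw [h7] at hk1
        linarith [h.wP]
      linarith
  have hk2 : (k : ℤ) + 1 ≤ yy P Q w D a + (P - yy P Q w D b) := by
    have h1 : (w - 1) * (k : ℤ) < (w - 1) * (yy P Q w D a + (P - yy P Q w D b)) :=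
      lt_of_lt_of_le hk hgap
    have := lt_of_mul_lt_mul_left h1 (by linarith [h.w2])
    linarith
  have hall : ∀ n, 0 < n → n < w → yy P Q w D a ≤ yy P Q w D n ∧
      yy P Q w D n ≤ yy P Q w D b := by
    intro n h0 h1
    obtain ⟨n', rfl⟩ := Int.eq_ofNat_of_zero_le h0.le
    have h2 : n' ∈ Ico 1 wn := by
      rw [mem_Ico]
      rw [hwn] at h1
      constructor
      · have : 0 < n' := by exact_mod_cast h0
        omega
      · exact_mod_cast h1
    exact ⟨hamin n' h2, hbmax n' h2⟩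
  have hk1' : (1 : ℤ) ≤ k := by exact_mod_cast h.k1
  refine ⟨min (yy P Q w D a) k, le_min hu hk1', min_le_right _ _, ?_⟩
  intro n h0 h1
  obtain ⟨h2, h3⟩ := hall n h0 h1
  refine ⟨(min_le_left _ _).trans h2, ?_⟩
  rcases le_total (yy P Q w D a) k with h4 | h4
  · rw [min_eq_left h4]
    linarith
  · rw [min_eq_right h4]
    linarith

/-- a change from member to nonmember, `P ≡ 1` -/
theorem chgP1 {pm : ℤ} {J : ℕ} (h : Ch P Q w 1 D t k) (hF : Fl P Q w pm J) {n : ℤ} (hn0 : 0 < n)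
    (hn1 : n + 1 < w) (hm : Q * ta w 1 t n < dl Q w D n)
    (hm' : dl Q w D (n + 1) < Q * ta w 1 t (n + 1)) (hd : dl Q w D (n + 1) ≤ dl Q w D n)
    (ht : ta w 1 t n < ta w 1 t (n + 1)) : False := by
  obtain ⟨om, hW⟩ := exists_win h
  have hQ := h.Q0
  have hP := h.P0
  have hw2 := h.w2
  obtain ⟨x, hx1, hx2, hx3, hx4, hx5⟩ := mid (a := dl Q w D (n + 1)) (b := 1 + Q * ta w 1 t n)
    (c := Q * ta w 1 t (n + 1)) (d := 1 + dl Q w D n) (w := w) (e := n + 1) hm' (by linarith)
    (by nlinarith [h.wQ]) (by linarith)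
    (by simpa using h.dlmod (n + 1)) (by
      have := h.tamod n
      rw [one_mul] at this
      rwa [show 1 + Q * ta w 1 t n - (n + 1) = Q * ta w 1 t n - n by ring])
  have hxQ : x < w * Q := by
    have := h.ta1 (n + 1)
    nlinarith
  have hx0 : Q < x := by
    have := h.tapos hn0 (by linarith)
    nlinarith
  have t1 := h.tapos (n := n) hn0 (by linarith)
  have t2 := h.tapos (n := n + 1) (by linarith) hn1
  have t3 := h.ta1 n
  have t4 := h.ta1 (n + 1)
  have c1 : w ∣ x - Q * ta w 1 t (n + 1) := by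
    have := dvd_sub hx5 (h.tamod (n + 1))
    rwa [show x - (n + 1) - (Q * ta w 1 t (n + 1) - 1 * (n + 1)) = x - Q * ta w 1 t (n + 1) by
      ring] at this
  have c2 : w ∣ x - 1 - Q * ta w 1 t n := by
    have := dvd_sub hx5 (h.tamod n)
    rwa [show x - (n + 1) - (Q * ta w 1 t n - 1 * n) = x - 1 - Q * ta w 1 t n by ring] at this
  have c3 : w ∣ x - dl Q w D (n + 1) := by
    have := dvd_sub hx5 (h.dlmod (n + 1))
    rwa [show x - (n + 1) - (dl Q w D (n + 1) - 1 * (n + 1)) = x - dl Q w D (n + 1) by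
      ring] at this
  have c4 : w ∣ x - (1 + dl Q w D n) := by
    have := dvd_sub hx5 (h.dlmod n)
    rwa [show x - (n + 1) - (dl Q w D n - 1 * n) = x - (1 + dl Q w D n) by ring] at this
  have hev := eval0P h hW (m := -om * (w * Q) + P * x) rfl hxQ.le hF.hJ (a := ta w 1 t (n + 1))
    (b := ta w 1 t n) t2 t4.le t1 t3.le (by rwa [mul_comm (ta w 1 t (n + 1))])
    (by rwa [mul_comm (ta w 1 t n)])
  have s1 := thr0 h (m := -om * (w * Q) + P * x) (b0 := -om) (z0 := 0) (y := n + 1)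
    (d := dl Q w D (n + 1)) (Y := yy P Q w D (n + 1)) rfl (by linarith) hn1
    (by linear_combination h.spec (n + 1)) c3 (by linarith [(hW.2.2 (n + 1) (by linarith) hn1).1])
    (by linarith [h.yylt (n := n + 1) (by linarith), hW.1])
  have s2 := thr0 h (m := -om * (w * Q) + P * x) (b0 := -om) (z0 := P) (y := n)
    (d := 1 + dl Q w D n) (Y := yy P Q w D n) rfl (by linarith) (by linarith)
    (by linear_combination h.spec n) c4 (by linarith [(hW.2.2 n hn0 (by linarith)).1])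
    (by linarith [h.yylt hn0, hW.1])
  rw [sub_zero] at s1
  have hk := h.hk
  have hm0 : 0 ≤ -om * (w * Q) + P * x := by
    have e1 : om * (w * Q) ≤ k * (w * Q) := mul_le_mul_of_nonneg_right hW.2.1 h.wQ0.le
    have e2 : (k : ℤ) * (w * Q) = (P - 1) * Q := by linear_combination (-Q) * hk
    nlinarith
  have hm1 : -om * (w * Q) + P * x < w * (P * Q) := by
    have : 0 < om * (w * Q) := mul_pos (by linarith [hW.1]) h.wQ0
    nlinarith
  have hb := hF.A1 _ hm0 hm1
  rw [hev, s1, s2, th_pos (show 0 ≤ x - dl Q w D (n + 1) by linarith),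
    th_neg (show x - (1 + dl Q w D n) < 0 by linarith),
    th_neg (show x - ta w 1 t (n + 1) * Q < 0 by linarith),
    th_pos (show 0 ≤ x - 1 - ta w 1 t n * Q by linarith)] at hb
  norm_num at hb

/-- a change from nonmember to member, `P ≡ 1` -/
theorem chgP2 {pm : ℤ} {J : ℕ} (h : Ch P Q w 1 D t k) (hF : Fl P Q w pm J) {n : ℤ} (hn0 : 0 < n)
    (hn1 : n + 1 < w) (hm : dl Q w D n < Q * ta w 1 t n)
    (hm' : Q * ta w 1 t (n + 1) < dl Q w D (n + 1)) (hd : 1 + dl Q w D n < dl Q w D (n + 1))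
    (ht : ta w 1 t (n + 1) ≤ ta w 1 t n) : False := by
  obtain ⟨om, hW⟩ := exists_win h
  have hQ := h.Q0
  have hP := h.P0
  have hw2 := h.w2
  obtain ⟨x, hx1, hx2, hx3, hx4, hx5⟩ := mid (a := Q * ta w 1 t (n + 1)) (b := 1 + dl Q w D n)
    (c := dl Q w D (n + 1)) (d := 1 + Q * ta w 1 t n) (w := w) (e := n + 1) hm'
    (by nlinarith [h.wQ]) hd (by linarith)
    (by simpa using h.tamod (n + 1)) (by
      have := h.dlmod n
      rw [one_mul] at this
      rwa [show 1 + dl Q w D n - (n + 1) = dl Q w D n - n by ring])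
  have hxQ : x < w * Q := by
    have := h.dl1 (n + 1)
    linarith
  have hx0 : Q ≤ x := by
    have := h.tapos (n := n + 1) (by linarith) hn1
    nlinarith
  have t1 := h.tapos (n := n) hn0 (by linarith)
  have t2 := h.tapos (n := n + 1) (by linarith) hn1
  have t3 := h.ta1 n
  have t4 := h.ta1 (n + 1)
  have c1 : w ∣ x - Q * ta w 1 t (n + 1) := by
    have := dvd_sub hx5 (h.tamod (n + 1))
    rwa [show x - (n + 1) - (Q * ta w 1 t (n + 1) - 1 * (n + 1)) = x - Q * ta w 1 t (n + 1) by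
      ring] at this
  have c2 : w ∣ x - 1 - Q * ta w 1 t n := by
    have := dvd_sub hx5 (h.tamod n)
    rwa [show x - (n + 1) - (Q * ta w 1 t n - 1 * n) = x - 1 - Q * ta w 1 t n by ring] at this
  have c3 : w ∣ x - dl Q w D (n + 1) := by
    have := dvd_sub hx5 (h.dlmod (n + 1))
    rwa [show x - (n + 1) - (dl Q w D (n + 1) - 1 * (n + 1)) = x - dl Q w D (n + 1) by
      ring] at this
  have c4 : w ∣ x - (1 + dl Q w D n) := by
    have := dvd_sub hx5 (h.dlmod n)
    rwa [show x - (n + 1) - (dl Q w D n - 1 * n) = x - (1 + dl Q w D n) by ring] at this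
  have hev := eval0P h hW (m := -om * (w * Q) + P * x) rfl hxQ.le hF.hJ (a := ta w 1 t (n + 1))
    (b := ta w 1 t n) t2 t4.le t1 t3.le (by rwa [mul_comm (ta w 1 t (n + 1))])
    (by rwa [mul_comm (ta w 1 t n)])
  have s1 := thr0 h (m := -om * (w * Q) + P * x) (b0 := -om) (z0 := 0) (y := n + 1)
    (d := dl Q w D (n + 1)) (Y := yy P Q w D (n + 1)) rfl (by linarith) hn1
    (by linear_combination h.spec (n + 1)) c3 (by linarith [(hW.2.2 (n + 1) (by linarith) hn1).1])
    (by linarith [h.yylt (n := n + 1) (by linarith), hW.1])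
  have s2 := thr0 h (m := -om * (w * Q) + P * x) (b0 := -om) (z0 := P) (y := n)
    (d := 1 + dl Q w D n) (Y := yy P Q w D n) rfl (by linarith) (by linarith)
    (by linear_combination h.spec n) c4 (by linarith [(hW.2.2 n hn0 (by linarith)).1])
    (by linarith [h.yylt hn0, hW.1])
  rw [sub_zero] at s1
  have hk := h.hk
  have hm0 : 0 ≤ -om * (w * Q) + P * x := by
    have e1 : om * (w * Q) ≤ k * (w * Q) := mul_le_mul_of_nonneg_right hW.2.1 h.wQ0.le
    have e2 : (k : ℤ) * (w * Q) = (P - 1) * Q := by linear_combination (-Q) * hk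
    nlinarith
  have hm1 : -om * (w * Q) + P * x < w * (P * Q) := by
    have : 0 < om * (w * Q) := mul_pos (by linarith [hW.1]) h.wQ0
    nlinarith
  have hb := hF.A1 _ hm0 hm1
  rw [hev, s1, s2, th_neg (show x - dl Q w D (n + 1) < 0 by linarith),
    th_pos (show 0 ≤ x - (1 + dl Q w D n) by linarith),
    th_pos (show 0 ≤ x - ta w 1 t (n + 1) * Q by linarith),
    th_neg (show x - 1 - ta w 1 t n * Q < 0 by linarith)] at hb
  norm_num at hb

end Pool.Agent.Helper73.E
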