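import Pool.Agent.Helper73.E.Base

set_option autoImplicit false

/-!
# Symmetry of the coefficients in the three parameters
-/

namespace Pool.Agent.Helper73.E

open Finset

/-- difference operator -/
def Dl (n : ℤ) (f : ℤ → ℤ) (m : ℤ) : ℤ := f m - f (m - n)

theorem Dl_comm (a b : ℤ) (f : ℤ → ℤ) : Dl a (Dl b f) = Dl b (Dl a f) := by
  funext m
  unfold Dl
  rw [sub_right_comm m a b]
  ring

/-- functions vanishing on the negative numbers -/
def Van (f : ℤ → ℤ) : Prop := ∀ m < 0, f m = 0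

theorem Van.dl {f : ℤ → ℤ} (h : Van f) {n : ℤ} (hn : 0 ≤ n) : Van (Dl n f) := by
  intro m hm
  unfold Dl
  rw [h m hm, h (m - n) (by linarith), sub_zero]

theorem Dl_inj {f f' : ℤ → ℤ} {n : ℤ} (hn : 0 < n) (h : Van f) (h' : Van f')
    (heq : Dl n f = Dl n f') : f = f' := by
  have key : ∀ N : ℕ, ∀ m : ℤ, m < N → f m = f' m := by
    intro N
    induction N with
    | zero =>
      intro m hm
      rw [h m (by simpa using hm), h' m (by simpa using hm)]
    | succ N ih =>
      intro m hm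
      push_cast at hm
      have h1 := congrFun heq m
      unfold Dl at h1
      have h2 := ih (m - n) (by linarith)
      linarith
  funext m
  refine key (m.toNat + 1) m ?_
  push_cast
  linarith [Int.self_le_toNat m]

/-- point mass -/
def pt (a m : ℤ) : ℤ := if m = a then 1 else 0

/-- every integer in the coordinates -/
theorem exists_rep {P Q : ℤ} (hP : 0 < P) (hcop : IsCoprime P Q) (u : ℤ) :
    ∃ a c : ℤ, 0 ≤ a ∧ a < P ∧ u = Q * a + P * c := by
  obtain ⟨x, y, hxy⟩ := hcop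
  refine ⟨(u * y) % P, u * x + Q * (u * y / P), Int.emod_nonneg _ hP.ne',
    Int.emod_lt_of_pos _ hP, ?_⟩
  have := Int.emod_add_mul_ediv (u * y) P
  linear_combination -u * hxy - Q * this

/-- the generating function of the semigroup -/
theorem dl_g {P Q : ℤ} (hP : 0 < P) (hQ : 0 < Q) (hcop : IsCoprime P Q) (u : ℤ) :
    Dl P (Dl Q (g P Q)) u = pt 0 u - pt (P * Q) u := by
  obtain ⟨a, c, ha, haP, rfl⟩ := exists_rep hP hcop u
  unfold Dl
  have e1 : g P Q (Q * a + P * c) = th c := g_rep hP hQ hcop ha haP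
  have e2 : g P Q (Q * a + P * c - P) = th (c - 1) := by
    rw [show Q * a + P * c - P = Q * a + P * (c - 1) by ring]
    exact g_rep hP hQ hcop ha haP
  rcases eq_or_lt_of_le ha with h0 | h0
  · subst h0
    have e3 : g P Q (Q * 0 + P * c - Q) = th (c - Q) := by
      rw [show Q * 0 + P * c - Q = Q * (P - 1) + P * (c - Q) by ring]
      exact g_rep hP hQ hcop (by linarith) (by linarith)
    have e4 : g P Q (Q * 0 + P * c - P - Q) = th (c - 1 - Q) := by
      rw [show Q * 0 + P * c - P - Q = Q * (P - 1) + P * (c - 1 - Q) by ring]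
      exact g_rep hP hQ hcop (by linarith) (by linarith)
    rw [e1, e2, e3, e4]
    have e5 : pt 0 (Q * 0 + P * c) = pt 0 c := by
      unfold pt
      congr 1
      simp only [mul_zero, zero_add, mul_eq_zero, eq_iff_iff]
      constructor
      · rintro (h | h)
        · exact absurd h hP.ne'
        · exact h
      · exact fun h => Or.inr h
    have e6 : pt (P * Q) (Q * 0 + P * c) = pt Q c := by
      unfold pt
      congr 1
      simp only [mul_zero, zero_add, eq_iff_iff]
      constructor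
      · intro h
        exact mul_left_cancel₀ hP.ne' h
      · rintro rfl
        rfl
    rw [e5, e6]
    unfold th pt
    split_ifs <;> omega
  · have e3 : g P Q (Q * a + P * c - Q) = th c := by
      rw [show Q * a + P * c - Q = Q * (a - 1) + P * c by ring]
      exact g_rep hP hQ hcop (by linarith) (by linarith)
    have e4 : g P Q (Q * a + P * c - P - Q) = th (c - 1) := by
      rw [show Q * a + P * c - P - Q = Q * (a - 1) + P * (c - 1) by ring]
      exact g_rep hP hQ hcop (by linarith) (by linarith)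
    rw [e1, e2, e3, e4]
    have e5 : pt 0 (Q * a + P * c) = 0 := by
      unfold pt
      rw [if_neg]
      intro h
      have h1 : P ∣ a * Q := ⟨-c, by linarith⟩
      have h2 := Int.le_of_dvd h0 (hcop.dvd_of_dvd_mul_right h1)
      linarith
    have e6 : pt (P * Q) (Q * a + P * c) = 0 := by
      unfold pt
      rw [if_neg]
      intro h
      have h1 : P ∣ a * Q := ⟨Q - c, by linarith⟩
      have h2 := Int.le_of_dvd h0 (hcop.dvd_of_dvd_mul_right h1)
      linarith
    rw [e5, e6]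
    ring

/-- the blocks -/
theorem dl_S {P Q w : ℤ} (hP : 0 < P) (hQ : 0 < Q) (hw : 0 < w) (hcop : IsCoprime P Q) :
    Dl 1 (Dl (w * P) (Dl (w * Q) (S P Q w))) = Dl w (fun m => pt 0 m - pt (w * (P * Q)) m) := by
  funext m
  -- `Dl (w P) (Dl (w Q) S)` at `m` is `Dl P (Dl Q g)` at `m / w`
  have h1 : ∀ m : ℤ, Dl (w * P) (Dl (w * Q) (S P Q w)) m = pt 0 (m / w) - pt (P * Q) (m / w) := by
    intro m
    rw [← dl_g hP hQ hcop]
    unfold Dl S
    have e : ∀ (m c : ℤ), (m - w * c) / w = m / w - c := by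
      intro m c
      rw [show m - w * c = m + w * (-c) by ring, Int.add_mul_ediv_left _ _ hw.ne']
      ring
    rw [e, e, e, e]
  have h2 : ∀ c m : ℤ, pt c (m / w) - pt c ((m - 1) / w) = pt (w * c) m - pt (w * c) (m - w) := by
    intro c m
    have e1 := Int.emod_add_mul_ediv m w
    have e2 := Int.emod_nonneg m hw.ne'
    have e3 := Int.emod_lt_of_pos m hw
    have k1 : m / w = c ↔ w * c ≤ m ∧ m < w * c + w := by
      rw [Int.ediv_eq_iff_of_pos hw]
      constructor <;> rintro ⟨h, h'⟩ <;> constructor <;> nlinarith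
    have k2 : (m - 1) / w = c ↔ w * c ≤ m - 1 ∧ m - 1 < w * c + w := by
      rw [Int.ediv_eq_iff_of_pos hw]
      constructor <;> rintro ⟨h, h'⟩ <;> constructor <;> nlinarith
    unfold pt
    simp only [k1, k2]
    generalize w * c = v
    split_ifs <;> omega
  have h3 : Dl 1 (Dl (w * P) (Dl (w * Q) (S P Q w))) m =
      (pt 0 (m / w) - pt 0 ((m - 1) / w)) - (pt (P * Q) (m / w) - pt (P * Q) ((m - 1) / w)) := by
    show Dl (w * P) (Dl (w * Q) (S P Q w)) m - Dl (w * P) (Dl (w * Q) (S P Q w)) (m - 1) = _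
    rw [h1, h1]
    ring
  rw [h3, h2, h2]
  unfold Dl
  rw [mul_zero]
  ring

/-- the stable value -/
noncomputable def Ai (P Q w m : ℤ) : ℤ := A P Q w (m.toNat + 1) m

theorem A_stable {P Q w : ℤ} (hP : 0 < P) (hQ : 0 < Q) (hw : 0 < w) {J J' : ℕ} {m : ℤ}
    (hJJ : J ≤ J') (hJ : m < J * (P * Q)) : A P Q w J' m = A P Q w J m := by
  unfold A
  symm
  apply sum_subset (range_mono hJJ)
  intro j _ hj
  rw [mem_range, not_lt] at hj
  have h1 : (J : ℤ) ≤ j := by exact_mod_cast hj
  have h2 : m - j * (P * Q) < 0 := by nlinarith [mul_pos hP hQ]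
  rw [S_neg hP hQ hw h2, S_neg hP hQ hw (by linarith), S_neg hP hQ hw (by linarith),
    S_neg hP hQ hw (by linarith)]
  ring

theorem A_eq_Ai {P Q w : ℤ} (hP : 0 < P) (hQ : 0 < Q) (hw : 0 < w) {J : ℕ} {m : ℤ}
    (hJ : m < J * (P * Q)) : A P Q w J m = Ai P Q w m := by
  unfold Ai
  rcases le_total J (m.toNat + 1) with h | h
  · exact (A_stable hP hQ hw h hJ).symm
  · refine A_stable hP hQ hw h ?_
    have h1 := Int.self_le_toNat m
    have h2 : 0 < P * Q := mul_pos hP hQ
    push_cast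
    nlinarith [Int.natCast_nonneg m.toNat]

theorem Ai_van {P Q w : ℤ} (hP : 0 < P) (hQ : 0 < Q) (hw : 0 < w) : Van (Ai P Q w) := by
  intro m hm
  rw [← A_eq_Ai hP hQ hw (J := 0) (by simpa using hm)]
  unfold A
  rw [sum_range_zero]

theorem S_van {P Q w : ℤ} (hP : 0 < P) (hQ : 0 < Q) (hw : 0 < w) : Van (S P Q w) :=
  fun _ hm => S_neg hP hQ hw hm

theorem dl_Ai {P Q w : ℤ} (hP : 0 < P) (hQ : 0 < Q) (hw : 0 < w) :
    Dl (P * Q) (Ai P Q w) = Dl P (Dl Q (S P Q w)) := by
  funext m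
  have hPQ : 0 < P * Q := mul_pos hP hQ
  obtain ⟨J, hJ⟩ : ∃ J : ℕ, m < (J : ℤ) * (P * Q) := by
    refine ⟨m.toNat + 1, ?_⟩
    have h1 := Int.self_le_toNat m
    push_cast
    nlinarith [Int.natCast_nonneg m.toNat]
  unfold Dl
  rw [← A_eq_Ai hP hQ hw (J := J + 1) (by push_cast; linarith),
    ← A_eq_Ai hP hQ hw (J := J) (m := m - P * Q) (by linarith)]
  unfold A
  rw [sum_range_succ']
  have e : ∀ j ∈ range J, (S P Q w (m - ((j + 1 : ℕ) : ℤ) * (P * Q)) -
      S P Q w (m - ((j + 1 : ℕ) : ℤ) * (P * Q) - P) - S P Q w (m - ((j + 1 : ℕ) : ℤ) * (P * Q) - Q) +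
      S P Q w (m - ((j + 1 : ℕ) : ℤ) * (P * Q) - P - Q)) =
      (S P Q w (m - P * Q - j * (P * Q)) - S P Q w (m - P * Q - j * (P * Q) - P) -
    S P Q w (m - P * Q - j * (P * Q) - Q) + S P Q w (m - P * Q - j * (P * Q) - P - Q)) := by
    intro j _
    push_cast
    rw [show m - ((j : ℤ) + 1) * (P * Q) = m - P * Q - j * (P * Q) by ring]
  rw [sum_congr rfl e]
  simp only [Nat.cast_zero, zero_mul, sub_zero]
  ring

/-- all difference operators -/
theorem dl_all {P Q w : ℤ} (hP : 0 < P) (hQ : 0 < Q) (hw : 0 < w) (hcop : IsCoprime P Q) :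
    Dl 1 (Dl (w * P) (Dl (w * Q) (Dl (P * Q) (Ai P Q w)))) =
      Dl P (Dl Q (Dl w (fun m => pt 0 m - pt (w * (P * Q)) m))) := by
  rw [dl_Ai hP hQ hw, ← dl_S hP hQ hw hcop]
  rw [Dl_comm (w * Q) P, Dl_comm (w * Q) Q, Dl_comm (w * P) P, Dl_comm (w * P) Q, Dl_comm 1 P,
    Dl_comm 1 Q]

/-- **Symmetry.** -/
theorem Ai_symm {a b c : ℤ} (ha : 0 < a) (hb : 0 < b) (hc : 0 < c) (hab : IsCoprime a b)
    (hbc : IsCoprime b c) : Ai a b c = Ai b c a := by
  have h1 := dl_all ha hb hc hab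
  have h2 := dl_all hb hc ha hbc
  have h3 : Dl a (Dl b (Dl c (fun m => pt 0 m - pt (c * (a * b)) m))) =
      Dl b (Dl c (Dl a (fun m => pt 0 m - pt (a * (b * c)) m))) := by
    rw [show c * (a * b) = a * (b * c) by ring, Dl_comm c a, Dl_comm b a]
  rw [h3, ← h2] at h1
  -- reorder
  have v1 := Ai_van ha hb hc
  have v2 := Ai_van hb hc ha
  have hab' : 0 < a * b := mul_pos ha hb
  have hbc' : 0 < b * c := mul_pos hb hc
  have hca : 0 < c * a := mul_pos hc ha
  have h4 : Dl 1 (Dl (c * a) (Dl (c * b) (Dl (a * b) (Ai a b c)))) =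
      Dl 1 (Dl (c * a) (Dl (c * b) (Dl (a * b) (Ai b c a)))) := by
    rw [h1, show a * c = c * a by ring, show b * c = c * b by ring]
    rw [Dl_comm (a * b) (c * a), Dl_comm (a * b) (c * b)]
  have hcb : 0 < c * b := mul_pos hc hb
  exact Dl_inj hab' v1 v2 (Dl_inj hcb (v1.dl hab'.le) (v2.dl hab'.le)
    (Dl_inj hca ((v1.dl hab'.le).dl hcb.le) ((v2.dl hab'.le).dl hcb.le)
      (Dl_inj one_pos (((v1.dl hab'.le).dl hcb.le).dl hca.le)
        (((v2.dl hab'.le).dl hcb.le).dl hca.le) h4)))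

end Pool.Agent.Helper73.E
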